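import Pool.Agent.H566R4.Stmts

set_option autoImplicit false

namespace Pool.Agent.H588R3.BOG

open Finset

theorem two_choose (n : ℕ) : 2 * (n + 1).choose 2 = (n + 1) * n := by
  induction n with
  | zero => simp
  | succ n ih =>
    rw [Nat.choose_succ_succ' (n + 1) 1, mul_add, ih, Nat.choose_one_right]; ring

theorem tail (a : ℕ → ℕ) : ∀ (M s c : ℕ), a s ≤ c → (∀ n, s ≤ n → a (n + 1) ≤ a n - 1) →
    2 * ∑ j ∈ range M, a (s + j) ≤ (c + 1) * c := by
  intro M
  induction M with
  | zero => intro s c _ _; simp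
  | succ M ih =>
    intro s c hs hd
    rw [Finset.sum_range_succ']
    have e : ∑ j ∈ range M, a (s + (j + 1)) = ∑ j ∈ range M, a (s + 1 + j) := by
      apply Finset.sum_congr rfl
      intro j _
      congr 1
      omega
    rw [e, add_zero]
    have h1 := ih (s + 1) (c - 1) (by have := hd s le_rfl; omega) (fun n hn => hd n (by omega))
    rcases c with _ | c
    · simp only [Nat.zero_sub, mul_zero] at h1
      simp only [mul_zero]
      omega
    · simp only [Nat.add_sub_cancel] at h1
      nlinarith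

theorem lowsum (a : ℕ → ℕ) : ∀ b : ℕ, (∀ n, n < b → n + 1 ≤ a n) →
    (b + 1) * b ≤ 2 * ∑ n ∈ range b, a n := by
  intro b
  induction b with
  | zero => intro _; simp
  | succ b ih =>
    intro h
    rw [Finset.sum_range_succ]
    have h1 := ih (fun n hn => h n (by omega))
    have h2 := h b (by omega)
    nlinarith

theorem consum (f : ℕ → ℕ) (b : ℕ) : ∀ e : ℕ, (∀ j, j < e → b ≤ f j) →
    e * b ≤ ∑ j ∈ range e, f j := by
  intro e
  induction e with
  | zero => intro _; simp
  | succ e ih =>
    intro h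
    rw [Finset.sum_range_succ]
    have h1 := ih (fun n hn => h n (by omega))
    have h2 := h e (by omega)
    nlinarith

theorem upsum (f : ℕ → ℕ) (b : ℕ) : ∀ e : ℕ, (∀ j, j < e → f j ≤ b) →
    ∑ j ∈ range e, f j ≤ e * b := by
  intro e
  induction e with
  | zero => intro _; simp
  | succ e ih =>
    intro h
    rw [Finset.sum_range_succ]
    have h1 := ih (fun n hn => h n (by omega))
    have h2 := h e (by omega)
    nlinarith

/-- Once `a n ≤ n`, the sequence is nonincreasing. -/
theorem mono (a : ℕ → ℕ) (h2 : ∀ n, a n ≤ n → a (n + 1) ≤ a n) (n : ℕ) (hn : a n ≤ n) :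
    ∀ j, a (n + j) ≤ a n := by
  intro j
  induction j with
  | zero => simp
  | succ j ih =>
    have h3 := h2 (n + j) (by omega)
    have : n + (j + 1) = n + j + 1 := by omega
    rw [this]
    omega

theorem aux1 (z c : ℕ) (h : z + 1 ≤ c) : z * (z + 1) + c ≤ c * c := by
  obtain ⟨c', rfl⟩ : ∃ c', c = z + 1 + c' := ⟨c - (z + 1), by omega⟩
  have : (z + 1 + c') * (z + 1 + c') =
      z * (z + 1) + (z + 1 + c') + (c' * c' + 2 * (c' * z) + c') := by ring
  omega

theorem taskNum : Pool.Agent.H566R4.TaskNum := by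
  intro q d r w A B κ a hd hq hr h1 h2 h3 h4 hA h5 h6 h7 h8 hκ
  obtain ⟨N₀, hN⟩ := hA
  obtain ⟨t, rfl⟩ : ∃ t, q = d + 2 + t := ⟨q - (d + 2), by omega⟩
  have e1 : d + 2 + t - 2 = d + t := by omega
  have e2 : d + 2 + t - 1 = d + t + 1 := by omega
  rw [e1, e2] at h8
  -- the low part
  have hmin : ∀ n, n < d → n + 1 ≤ a n ∨ a d ≤ a n := by
    intro n hn
    by_cases hc : a n ≤ n
    · right
      have := mono a h2 n hc (d - n)
      have e : n + (d - n) = d := by omega
      rwa [e] at this
    · left; omega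
  obtain ⟨e, he⟩ : ∃ e, d = a d + e := ⟨d - a d, by omega⟩
  generalize hb : a d = b at *
  have hlow : (b + 1) * b + 2 * (e * b) ≤ 2 * ∑ n ∈ range d, a n := by
    have hs : ∑ n ∈ range d, a n = ∑ n ∈ range b, a n + ∑ j ∈ range e, a (b + j) := by
      rw [he, Finset.sum_range_add]
    rw [hs]
    have l1 := lowsum a b (by
      intro n hn
      rcases hmin n (by omega) with h | h
      · exact h
      · omega)
    have l2 := consum (fun j => a (b + j)) b e (by
      intro j hj
      rcases hmin (b + j) (by omega) with h | h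
      · show b ≤ a (b + j)
        omega
      · exact h)
    omega
  have hC2 : 2 * (d + 2).choose 2 = (d + 2) * (d + 1) := two_choose (d + 1)
  have hK1 : 2 * (κ + 1).choose 2 = (κ + 1) * κ := two_choose κ
  have hK2 : 2 * (κ + 2).choose 2 = (κ + 2) * (κ + 1) := two_choose (κ + 1)
  -- `κ ≤ e`
  have hre : 2 * r ≤ (e + 2) * (e + 1) := by
    have : 2 * r + ((b + 1) * b + 2 * (e * b)) + 2 * b ≤ (d + 2) * (d + 1) := by omega
    rw [he] at this
    have hid : (b + e + 2) * (b + e + 1) =
        (b + 1) * b + 2 * (e * b) + 2 * b + (e + 2) * (e + 1) := by ring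
    omega
  have hκe : κ ≤ e := by
    by_contra hc
    have hc' : e + 1 ≤ κ := by omega
    have : (e + 2) * (e + 1) ≤ (κ + 1) * κ := Nat.mul_le_mul (by omega) hc'
    omega
  -- the tail
  have htop : ∀ j, a (d + j) ≤ b := by
    intro j
    have := mono a h2 d (by omega) j
    omega
  have hsum : A = ∑ n ∈ range d, a n + ∑ j ∈ range t, a (d + j) + a (d + t) + a (d + t + 1) +
      ∑ j ∈ range (N₀ + 1), a (d + t + 2 + j) := by
    rw [← hN (N₀ + (d + 2 + t)) (by omega)]
    have e3 : N₀ + (d + 2 + t) + 1 = d + t + 1 + 1 + (N₀ + 1) := by omega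
    rw [e3, Finset.sum_range_add, Finset.sum_range_succ, Finset.sum_range_succ,
      Finset.sum_range_add]
  have ht1 := upsum (fun j => a (d + j)) b t (fun j _ => htop j)
  have hx := htop t
  have hy : a (d + t + 1) ≤ a (d + t) := h2 (d + t) (by omega)
  have hz : a (d + t + 2) ≤ a (d + t + 1) - 1 := h4 (d + t + 1) (by omega)
  have htail := tail a (N₀ + 1) (d + t + 2) (a (d + t + 2)) le_rfl
    (fun n hn => h4 n (by omega))
  have e4 : d + 2 + t = d + t + 2 := by omega
  rw [e4] at h8
  generalize hS : ∑ n ∈ range d, a n = S at *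
  generalize ∑ j ∈ range t, a (d + j) = T1 at *
  generalize ∑ j ∈ range (N₀ + 1), a (d + t + 2 + j) = T2 at *
  generalize a (d + t) = x at *
  generalize a (d + t + 1) = y at *
  generalize a (d + t + 2) = z at *
  rcases Nat.eq_zero_or_pos b with hb0 | hb0
  · subst hb0
    have hx0 : x = 0 := by omega
    have hy0 : y = 0 := by omega
    have hz0 : z = 0 := by omega
    subst hx0 hy0 hz0
    simp only [mul_zero] at ht1 htail
    have hmain : A + B + r ≤ (d + 2).choose 2 := by omega
    refine ⟨fun hlt => ?_, fun _ => hmain⟩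
    obtain ⟨m, rfl⟩ : ∃ m, d = κ + m := ⟨d - κ, by omega⟩
    have e5 : κ + m - κ = m := by omega
    rw [e5]
    have hid0 : 2 * (m * (κ + m + 2 + t)) + (κ + 2) * (κ + 1) =
        (κ + m + 2) * (κ + m + 1) + (m * m + m + 2 * (m * t)) := by ring
    omega
  · obtain ⟨c, rfl⟩ : ∃ c, b = c + 1 := ⟨b - 1, by omega⟩
    have hkey : 2 * (A + B + r) + c ≤ (d + 2) * (d + 1) + 2 * ((c + 1) * (t + 2)) + c * c := by
      by_cases hex : x = c + 1 ∧ y = c + 1 ∧ z = c
      · obtain ⟨hx1, hy1, hz1⟩ := hex
        have h9 := h8 hx1 hy1 (by omega)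
        rw [hz1] at htail
        have p1 : (c + 1) * (t + 2) = t * (c + 1) + 2 * (c + 1) := by ring
        have p2 : (c + 1) * c = c * c + c := by ring
        omega
      · have hz' : z * (z + 1) + c ≤ c * c ∨ (c = 0 ∧ z = 0 ∧ x + y ≤ 1) := by
          by_cases hzc : z + 1 ≤ c
          · left
            exact aux1 z c hzc
          · right
            refine ⟨?_, ?_, ?_⟩
            · by_contra hc0
              apply hex
              refine ⟨?_, ?_, ?_⟩ <;> omega
            · by_contra hc0
              apply hex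
              refine ⟨?_, ?_, ?_⟩ <;> omega
            · by_contra hc0
              apply hex
              refine ⟨?_, ?_, ?_⟩ <;> omega
        rcases hz' with hz' | ⟨hc0, hz0, hxy⟩
        · have p1 : (c + 1) * (t + 2) = t * (c + 1) + 2 * (c + 1) := by ring
          have p3 : (z + 1) * z = z * (z + 1) := by ring
          omega
        · subst hc0 hz0
          simp only [zero_add, one_mul, mul_zero, mul_one, add_zero] at *
          omega
    refine ⟨fun hlt => ?_, fun hle => by omega⟩
    obtain ⟨f, hf⟩ : ∃ f, e = κ + f := ⟨e - κ, by omega⟩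
    subst hf
    have e5 : d - κ = c + 1 + f := by omega
    rw [e5]
    subst he
    have hid : ((c + 1 + (κ + f)) + 2) * ((c + 1 + (κ + f)) + 1) + 2 * ((c + 1) * (t + 2)) + c * c +
        (f * f + 3 * f + 2 * (c * f) + 2 * (f * t)) =
        2 * ((c + 1 + f) * ((c + 1 + (κ + f)) + 2 + t)) + 2 + (κ + 2) * (κ + 1) + c := by ring
    omega

end Pool.Agent.H588R3.BOG
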