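import Mathlib

set_option autoImplicit false

namespace Pool.Agent.H588R3.BOG

open Module

/-- Standard representatives of the points of the projective plane. -/
def stdv {k : Type} [Field k] : Option (k × k ⊕ k) → (Fin 3 → k)
  | none => ![1, 0, 0]
  | some (Sum.inl a) => ![a.1, a.2, 1]
  | some (Sum.inr c) => ![c, 1, 0]

theorem stdv_ne {k : Type} [Field k] (s : Option (k × k ⊕ k)) : stdv s ≠ 0 := by
  intro h
  rcases s with _ | ⟨a⟩ | c
  · have := congrFun h 0
    simp [stdv] at this
  · have := congrFun h 2
    simp [stdv] at this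
  · have := congrFun h 1
    simp [stdv] at this

theorem count (k : Type) [Field k] [Fintype k] (Z : (Fin 3 → k) → Prop)
    (hZ : ∀ v (c : k), c ≠ 0 → (Z (c • v) ↔ Z v)) (φ : (Fin 3 → k) ≃ₗ[k] (Fin 3 → k))
    (h0 : ¬ Z (φ ![1, 0, 0])) (A : Finset (k × k)) (hA : ∀ a, a ∈ A ↔ Z (φ ![a.1, a.2, 1]))
    (B : Finset k) (hB : ∀ c, c ∈ B ↔ Z (φ ![c, 1, 0])) :
    {x : Projectivization k (Fin 3 → k) | Z x.rep}.ncard = A.card + B.card := by
  classical
  have hφ : ∀ s : Option (k × k ⊕ k), φ (stdv s) ≠ 0 := fun s h =>
    stdv_ne s (by simpa using h)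
  let P : (k × k ⊕ k) → Projectivization k (Fin 3 → k) :=
    fun s => Projectivization.mk k (φ (stdv (some s))) (hφ _)
  -- membership through representatives
  have hrep : ∀ s : Option (k × k ⊕ k),
      Z (Projectivization.mk k (φ (stdv s)) (hφ s)).rep ↔ Z (φ (stdv s)) := by
    intro s
    obtain ⟨a, ha⟩ := Projectivization.exists_smul_eq_mk_rep k (φ (stdv s)) (hφ s)
    rw [← ha]
    exact hZ _ (a : k) a.ne_zero
  have hinj : Function.Injective P := by
    intro s t h
    have h' := (Projectivization.mk_eq_mk_iff' k _ _ (hφ _) (hφ _)).1 h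
    obtain ⟨c, hc⟩ := h'
    rw [← map_smul] at hc
    have hc' := φ.injective hc
    rcases s with s | s <;> rcases t with t | t
    · have e2 := congrFun hc' 2
      have e0 := congrFun hc' 0
      have e1 := congrFun hc' 1
      simp [stdv] at e0 e1 e2
      subst e2
      simp at e0 e1
      congr 1
      exact Prod.ext e0.symm e1.symm
    · have e2 := congrFun hc' 2
      simp [stdv] at e2
    · have e2 := congrFun hc' 2
      have e1 := congrFun hc' 1
      simp [stdv] at e2 e1
      subst e2
      simp at e1
    · have e1 := congrFun hc' 1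
      have e0 := congrFun hc' 0
      simp [stdv] at e0 e1
      subst e1
      simp at e0
      congr 1
      exact e0.symm
  have hset : {x : Projectivization k (Fin 3 → k) | Z x.rep} =
      ((A.disjSum B).image P : Finset (Projectivization k (Fin 3 → k))) := by
    ext x
    simp only [Set.mem_ofPred_eq, Finset.coe_image, Set.mem_image, Finset.mem_coe]
    constructor
    · intro hx
      -- x = mk (φ v)
      obtain ⟨w, hw⟩ := φ.surjective x.rep
      have hw0 : w ≠ 0 := by
        rintro rfl
        rw [map_zero] at hw
        exact x.rep_nonzero hw.symm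
      by_cases hw2 : w 2 = 0
      · by_cases hw1 : w 1 = 0
        · exfalso
          apply h0
          have hw00 : w 0 ≠ 0 := by
            intro h
            apply hw0
            ext i
            fin_cases i <;> simp [h, hw1, hw2]
          have e : w = w 0 • (![1, 0, 0] : Fin 3 → k) := by
            ext i
            fin_cases i <;> simp [hw1, hw2]
          rw [← hw, e, map_smul, hZ _ _ hw00] at hx
          exact hx
        · have e : w = w 1 • (![w 0 / w 1, 1, 0] : Fin 3 → k) := by
            ext i
            fin_cases i <;> simp [hw2, mul_div_cancel₀, hw1]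
          have hx' : Z (φ ![w 0 / w 1, 1, 0]) := by
            rw [← hw, e, map_smul, hZ _ _ hw1] at hx
            exact hx
          refine ⟨Sum.inr (w 0 / w 1), by simpa using (hB _).2 hx', ?_⟩
          rw [← Projectivization.mk_rep x]
          refine (Projectivization.mk_eq_mk_iff' k _ _ (hφ _) x.rep_nonzero).2 ?_
          refine ⟨(w 1)⁻¹, ?_⟩
          have he : φ w = w 1 • φ ![w 0 / w 1, 1, 0] := by
            conv_lhs => rw [e]
            rw [map_smul]
          rw [← hw, he, smul_smul, inv_mul_cancel₀ hw1, one_smul]
          rfl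
      · have e : w = w 2 • (![w 0 / w 2, w 1 / w 2, 1] : Fin 3 → k) := by
          ext i
          fin_cases i <;> simp [mul_div_cancel₀, hw2]
        have hx' : Z (φ ![w 0 / w 2, w 1 / w 2, 1]) := by
          rw [← hw, e, map_smul, hZ _ _ hw2] at hx
          exact hx
        refine ⟨Sum.inl (w 0 / w 2, w 1 / w 2), by simpa using (hA _).2 hx', ?_⟩
        rw [← Projectivization.mk_rep x]
        refine (Projectivization.mk_eq_mk_iff' k _ _ (hφ _) x.rep_nonzero).2 ?_
        refine ⟨(w 2)⁻¹, ?_⟩
        have he : φ w = w 2 • φ ![w 0 / w 2, w 1 / w 2, 1] := by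
          conv_lhs => rw [e]
          rw [map_smul]
        rw [← hw, he, smul_smul, inv_mul_cancel₀ hw2, one_smul]
        rfl
    · rintro ⟨s, hs, rfl⟩
      refine (hrep (some s)).2 ?_
      rcases s with s | s
      · exact (hA s).1 (by simpa using hs)
      · exact (hB s).1 (by simpa using hs)
  rw [hset, Set.ncard_coe_finset, Finset.card_image_of_injective _ hinj, Finset.card_disjSum]

end Pool.Agent.H588R3.BOG
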