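import Pool.Agent.H566R4.Stmts

set_option autoImplicit false

namespace Pool.Agent.H588R3.BOG

open Module Pool.Agent.H566R4

noncomputable section

/-- Dehomogenisation. -/
def deh (k : Type) [Field k] : MvPolynomial (Fin 3) k →ₐ[k] MvPolynomial (Fin 2) k :=
  MvPolynomial.aeval ![MvPolynomial.X 0, MvPolynomial.X 1, 1]

theorem deh_monomial (k : Type) [Field k] (m : Fin 3 →₀ ℕ) (c : k) :
    deh k (MvPolynomial.monomial m c) =
      MvPolynomial.monomial (Finsupp.single 0 (m 0) + Finsupp.single 1 (m 1)) c := by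
  rw [deh, MvPolynomial.aeval_monomial, Finsupp.prod_fintype _ _ (by simp)]
  simp only [Fin.prod_univ_three, Matrix.cons_val_zero, Matrix.cons_val_one, Matrix.cons_val,
    one_pow, mul_one]
  rw [MvPolynomial.X_pow_eq_monomial, MvPolynomial.X_pow_eq_monomial, MvPolynomial.monomial_mul,
    MvPolynomial.algebraMap_eq, MvPolynomial.C_mul_monomial]
  simp

theorem deh_eval (k : Type) [Field k] (H : MvPolynomial (Fin 3) k) (a b : k) :
    MvPolynomial.eval ![a, b] (deh k H) = MvPolynomial.eval ![a, b, 1] H := by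
  have : (MvPolynomial.aeval ![a, b] : MvPolynomial (Fin 2) k →ₐ[k] k).comp (deh k) =
      MvPolynomial.aeval ![a, b, 1] := by
    apply MvPolynomial.algHom_ext
    intro i
    fin_cases i <;> simp [deh]
  have h := congrArg (fun φ => φ H) this
  simpa [MvPolynomial.aeval_eq_eval] using h

theorem hsum3 (k : Type) [Field k] (d : ℕ) (H : MvPolynomial (Fin 3) k)
    (hH : H.IsHomogeneous d) (m : Fin 3 →₀ ℕ) (hm : MvPolynomial.coeff m H ≠ 0) :
    m 0 + m 1 + m 2 = d := by
  have hdeg := hH hm
  rw [Finsupp.weight_apply, Finsupp.sum_fintype _ _ (by simp), Fin.sum_univ_three] at hdeg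
  simpa using hdeg

theorem deh_coeff (k : Type) [Field k] (d : ℕ) (H : MvPolynomial (Fin 3) k)
    (hH : H.IsHomogeneous d) (m : Fin 3 →₀ ℕ) (hm : m 0 + m 1 + m 2 = d) :
    (deh k H).coeff (Finsupp.single 0 (m 0) + Finsupp.single 1 (m 1)) = H.coeff m := by
  classical
  conv_lhs => rw [H.as_sum, map_sum, MvPolynomial.coeff_sum]
  simp only [deh_monomial, MvPolynomial.coeff_monomial]
  rw [Finset.sum_eq_single m]
  · simp
  · intro m' hm' hne
    rw [if_neg]
    intro h
    apply hne
    have h0 := DFunLike.congr_fun h 0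
    have h1 := DFunLike.congr_fun h 1
    simp at h0 h1
    have hsum := hsum3 k d H hH m' (MvPolynomial.mem_support_iff.1 hm')
    ext i
    fin_cases i
    · exact h0
    · exact h1
    · show m' 2 = m 2
      omega
  · intro hm'
    simp [MvPolynomial.notMem_support_iff.1 hm']

theorem deh_inj (k : Type) [Field k] (d : ℕ) (H : MvPolynomial (Fin 3) k)
    (hH : H.IsHomogeneous d) (h : deh k H = 0) : H = 0 := by
  ext m
  by_cases hm : m 0 + m 1 + m 2 = d
  · rw [← deh_coeff k d H hH m hm, h, MvPolynomial.coeff_zero, MvPolynomial.coeff_zero]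
  · rw [hH.coeff_eq_zero, MvPolynomial.coeff_zero]
    rwa [Finsupp.degree_eq_sum, Fin.sum_univ_three]

theorem deh_totalDegree (k : Type) [Field k] (d : ℕ) (H : MvPolynomial (Fin 3) k)
    (hH : H.IsHomogeneous d) : (deh k H).totalDegree ≤ d := by
  classical
  rw [H.as_sum, map_sum]
  refine (MvPolynomial.totalDegree_finsetSum_le ?_)
  intro m hm
  rw [deh_monomial]
  refine (MvPolynomial.totalDegree_monomial_le _ _).trans ?_
  have hsum := hsum3 k d H hH m (MvPolynomial.mem_support_iff.1 hm)
  rw [Finsupp.sum_fintype _ _ (by simp), Fin.sum_univ_two]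
  simp
  omega

theorem top_deh (k : Type) [Field k] (d : ℕ) (H : MvPolynomial (Fin 3) k)
    (hH : H.IsHomogeneous d) :
    top k d (deh k H) = MvPolynomial.aeval ![Polynomial.X, 1, 0] H := by
  classical
  conv_lhs => rw [H.as_sum, map_sum, map_sum]
  conv_rhs => rw [H.as_sum, map_sum]
  refine Finset.sum_congr rfl (fun m hm => ?_)
  have hsum := hsum3 k d H hH m (MvPolynomial.mem_support_iff.1 hm)
  rw [deh_monomial, MvPolynomial.aeval_monomial, Finsupp.prod_fintype _ _ (by simp)]
  simp only [Fin.prod_univ_three, Matrix.cons_val_zero, Matrix.cons_val_one, Matrix.cons_val,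
    one_pow, mul_one]
  simp only [top, LinearMap.coe_mk, AddHom.coe_mk, MvPolynomial.coeff_monomial]
  by_cases h2 : m 2 = 0
  · rw [Finset.sum_eq_single (m 0)]
    · have e : d - m 0 = m 1 := by omega
      rw [e, if_pos rfl, h2, pow_zero, mul_one, ← Polynomial.C_eq_algebraMap,
        Polynomial.C_mul_X_pow_eq_monomial]
    · intro j _ hj
      rw [if_neg, Polynomial.monomial_zero_right]
      intro h
      have h0 := DFunLike.congr_fun h 0
      simp at h0
      exact hj h0.symm
    · intro h
      exact absurd (Finset.mem_range.2 (by omega)) h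
  · rw [zero_pow h2, mul_zero, mul_zero]
    refine Finset.sum_eq_zero (fun j hj => ?_)
    rw [if_neg, Polynomial.monomial_zero_right]
    intro h
    have h0 := DFunLike.congr_fun h 0
    have h1 := DFunLike.congr_fun h 1
    simp at h0 h1
    have := Finset.mem_range.1 hj
    omega

end

end Pool.Agent.H588R3.BOG
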