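import Pool.Agent.H566R4.Stmts

set_option autoImplicit false

namespace Pool.Agent.H588R3.BOG

open Polynomial Module Pool.Agent.H566R4

theorem finDegLT (k : Type) [Field k] (n : ℕ) : FiniteDimensional k (degreeLT k n) :=
  Module.Finite.equiv (degreeLTEquiv k n).symm

theorem rankDegLT (k : Type) [Field k] (n : ℕ) : finrank k (degreeLT k n) = n := by
  rw [(degreeLTEquiv k n).finrank_eq]; simp

theorem taskExc (hGM : TaskGM) : TaskExc := by
  intro k _ _ d b U Wt B hd hdq hb hbd hU hmono hX h1 hXq r2 r1 r0 hWt hf hB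
  classical
  obtain ⟨q, hq⟩ : ∃ q, Fintype.card k = q + 2 := ⟨Fintype.card k - 2, by omega⟩
  have e2 : Fintype.card k - 2 = q := by omega
  have e1 : Fintype.card k - 1 = q + 1 := by omega
  rw [e2, e1] at r2
  rw [e1, hq] at r1
  rw [hq] at r0 h1 hXq
  have fin : ∀ n, FiniteDimensional k (U n) := fun n => by
    have := finDegLT k (n + 1)
    exact Submodule.finiteDimensional_of_le (hU n)
  have hne : U q ≠ ⊥ := by
    intro h
    rw [h, finrank_bot] at r2
    omega
  have hne1 : U (q + 1) ≠ ⊥ := by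
    intro h
    rw [h, finrank_bot] at r1
    omega
  obtain ⟨g1, g2⟩ := hGM k (U q) hne
  have hle1 : U q ⊔ (U q).map (mX k) ≤ U (q + 1) := sup_le (hmono q) (hX q)
  have hr1 : finrank k ↥(U q ⊔ (U q).map (mX k)) ≤ finrank k (U (q + 1)) :=
    Submodule.finrank_mono hle1
  obtain ⟨g, hg0, hg⟩ := g2 (by omega)
  have heq1 : U q ⊔ (U q).map (mX k) = U (q + 1) :=
    Submodule.eq_of_le_of_finrank_eq hle1 (by omega)
  -- multiples of g
  set M : Submodule k k[X] := LinearMap.range (LinearMap.mulLeft k g) with hMdef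
  have hM : ∀ f ∈ M, g ∣ f := by
    rintro f ⟨h, rfl⟩
    exact ⟨h, rfl⟩
  have hMX : M.map (mX k) ≤ M := by
    rintro f ⟨h, ⟨u, rfl⟩, rfl⟩
    refine ⟨X * u, ?_⟩
    simp only [mX, LinearMap.mulLeft_apply]
    ring
  have hUqM : U q ≤ M := by
    rw [hg]
    exact LinearMap.map_le_range
  have hUq1M : U (q + 1) ≤ M := by
    rw [← heq1]
    exact sup_le hUqM ((Submodule.map_mono hUqM).trans hMX)
  set P : Submodule k k[X] := U (q + 1) ⊔ (U (q + 1)).map (mX k) with hPdef
  have hPM : P ≤ M := sup_le hUq1M ((Submodule.map_mono hUq1M).trans hMX)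
  have hPU : P ≤ U (q + 2) := sup_le (hmono (q + 1)) (hX (q + 1))
  have g3 : finrank k (U (q + 1)) + 1 ≤ finrank k P := (hGM k (U (q + 1)) hne1).1
  have finP : FiniteDimensional k P := Submodule.finiteDimensional_of_le hPU
  -- the degree of g
  obtain ⟨f, hfW, hfd⟩ := hf
  have hf0 : f ≠ 0 := by
    rintro rfl
    simp at hfd
    omega
  have hshift : ∀ j, X ^ j * f ∈ U (d + j) := by
    intro j
    induction j with
    | zero => simpa using hWt hfW
    | succ j ih =>
      have := hX (d + j) (Submodule.mem_map_of_mem ih)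
      have e : X ^ (j + 1) * f = mX k (X ^ j * f) := by
        simp only [mX, LinearMap.mulLeft_apply]
        ring
      rw [e]
      exact this
  have hgb : g.natDegree = b := by
    apply le_antisymm
    · have hm : g * X ^ (q - b) ∈ U q := by
        rw [hg]
        refine ⟨X ^ (q - b), ?_, rfl⟩
        rw [SetLike.mem_coe, mem_degreeLT, degree_X_pow]
        exact_mod_cast (by omega)
      have hm2 := hU q hm
      rw [mem_degreeLT] at hm2
      have hne2 : g * X ^ (q - b) ≠ 0 := mul_ne_zero hg0 (pow_ne_zero _ X_ne_zero)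
      rw [← natDegree_lt_iff_degree_lt hne2, natDegree_mul hg0 (pow_ne_zero _ X_ne_zero),
        natDegree_X_pow] at hm2
      omega
    · have hs := hshift (q - d)
      have e : d + (q - d) = q := by omega
      rw [e, hg] at hs
      obtain ⟨h, hh, hgh⟩ := hs
      rw [LinearMap.mulLeft_apply] at hgh
      have hh0 : h ≠ 0 := by
        rintro rfl
        rw [mul_zero] at hgh
        exact mul_ne_zero (pow_ne_zero _ X_ne_zero) hf0 hgh.symm
      rw [SetLike.mem_coe, mem_degreeLT, ← natDegree_lt_iff_degree_lt hh0] at hh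
      have := congrArg natDegree hgh
      rw [natDegree_mul hg0 hh0, natDegree_mul (pow_ne_zero _ X_ne_zero) hf0, natDegree_X_pow,
        hfd] at this
      omega
  -- the relation
  have hone : (1 : k[X]) ∉ P := by
    intro h
    have h3 := natDegree_le_of_dvd (hM 1 (hPM h)) one_ne_zero
    rw [natDegree_one] at h3
    omega
  have hPlt : P < P ⊔ Submodule.span k {(1 : k[X])} := by
    refine lt_of_le_of_ne le_sup_left (fun h => hone ?_)
    rw [h]
    exact Submodule.mem_sup_right (Submodule.mem_span_singleton_self _)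
  have hP1 : P ⊔ Submodule.span k {(1 : k[X])} ≤ U (q + 2) := by
    refine sup_le hPU ?_
    rw [Submodule.span_singleton_le_iff_mem]
    exact h1
  have finP1 : FiniteDimensional k ↥(P ⊔ Submodule.span k {(1 : k[X])}) :=
    Submodule.finiteDimensional_of_le hP1
  have hr3 := Submodule.finrank_lt_finrank_of_lt hPlt
  have hr4 := Submodule.finrank_mono hP1
  have heq2 : P ⊔ Submodule.span k {(1 : k[X])} = U (q + 2) :=
    Submodule.eq_of_le_of_finrank_eq hP1 (by omega)
  rw [← heq2] at hXq
  obtain ⟨p, hp, s, hs, hps⟩ := Submodule.mem_sup.1 hXq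
  obtain ⟨c, rfl⟩ := Submodule.mem_span_singleton.1 hs
  have hpe : p = (X - C c) ^ (q + 2) := by
    have h5 := FiniteField.expand_card (K := k) (X - C c)
    rw [hq] at h5
    rw [← h5, map_sub, expand_X, expand_C, ← hps, smul_eq_C_mul, mul_one]
    ring
  have hgd : g ∣ (X - C c) ^ (q + 2) := hpe ▸ hM p (hPM hp)
  obtain ⟨i, hi, hass⟩ := (dvd_prime_pow (prime_X_sub_C c) (q + 2)).1 hgd
  have hib : i = b := by
    have := natDegree_eq_of_degree_eq (degree_eq_degree_of_associated hass)
    rw [hgb, natDegree_pow, natDegree_X_sub_C, mul_one] at this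
    exact this.symm
  subst hib
  -- all elements of Wt are divisible by (X - c)^b
  have hUmono : Monotone U := monotone_nat_of_le_succ hmono
  have hdiv : ∀ f ∈ Wt, (X - C c) ^ i ∣ f := by
    intro f hf
    have : f ∈ U q := hUmono (by omega) (hWt hf)
    exact hass.symm.dvd.trans (hM f (hUqM this))
  have hcB : c ∈ B := by
    rw [hB]
    intro f hf
    have h7 : (X - C c) ∣ f := (dvd_pow_self _ (by omega)).trans (hdiv f hf)
    exact dvd_iff_isRoot.1 h7
  set D : k[X] := (X - C c) ^ i * ∏ x ∈ B.erase c, (X - C x) with hD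
  have hprod0 : ∏ x ∈ B.erase c, (X - C x) ≠ 0 :=
    Finset.prod_ne_zero_iff.2 (fun x _ => X_sub_C_ne_zero x)
  have hpow0 : (X - C c) ^ i ≠ 0 := pow_ne_zero _ (X_sub_C_ne_zero c)
  have hD0 : D ≠ 0 := mul_ne_zero hpow0 hprod0
  have hDdeg : D.natDegree + 1 = i + B.card := by
    rw [hD, natDegree_mul hpow0 hprod0, natDegree_pow, natDegree_X_sub_C, mul_one,
      natDegree_prod _ _ (fun x _ => X_sub_C_ne_zero x)]
    simp only [natDegree_X_sub_C, Finset.sum_const, smul_eq_mul, mul_one]
    have := Finset.card_erase_add_one hcB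
    omega
  have hDdvd : ∀ f ∈ Wt, D ∣ f := by
    intro f hf
    refine IsCoprime.mul_dvd ?_ (hdiv f hf) ?_
    · refine IsCoprime.pow_left (IsCoprime.prod_right (fun x hx => ?_))
      exact pairwise_coprime_X_sub_C Function.injective_id (Finset.ne_of_mem_erase hx).symm
    · refine Finset.prod_dvd_of_coprime ?_ (fun x hx => ?_)
      · intro x _ y _ hxy
        exact pairwise_coprime_X_sub_C Function.injective_id hxy
      · exact dvd_iff_isRoot.2 ((hB x).1 (Finset.mem_of_mem_erase hx) f hf)
  have hDle : D.natDegree ≤ d := hfd ▸ natDegree_le_of_dvd (hDdvd f hfW) hf0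
  have hWle : Wt ≤ (degreeLT k (d + 1 - D.natDegree)).map (LinearMap.mulLeft k D) := by
    intro f hf
    obtain ⟨h, rfl⟩ := hDdvd f hf
    refine ⟨h, ?_, rfl⟩
    rw [SetLike.mem_coe, mem_degreeLT]
    by_cases hh0 : h = 0
    · rw [hh0, degree_zero]
      exact WithBot.bot_lt_coe _
    · have h8 := hU d (hWt hf)
      rw [mem_degreeLT, ← natDegree_lt_iff_degree_lt (mul_ne_zero hD0 hh0),
        natDegree_mul hD0 hh0] at h8
      rw [← natDegree_lt_iff_degree_lt hh0]
      omega
  have := finDegLT k (d + 1 - D.natDegree)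
  have h9 := Submodule.finrank_mono hWle
  have h10 := Submodule.finrank_map_le (LinearMap.mulLeft k D) (degreeLT k (d + 1 - D.natDegree))
  rw [rankDegLT] at h10
  omega

end Pool.Agent.H588R3.BOG
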