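import Pool.Agent.H588R3.BOG_Dehom
import Pool.Agent.H588R3.BOG_Count

set_option autoImplicit false

namespace Pool.Agent.H588R3.BOG

open Module Pool.Agent.H566R4

theorem eval_smul3 (k : Type) [Field k] (d : ℕ) (H : MvPolynomial (Fin 3) k)
    (hH : H.IsHomogeneous d) (c : k) (v : Fin 3 → k) :
    MvPolynomial.eval (c • v) H = c ^ d * MvPolynomial.eval v H := by
  rw [MvPolynomial.eval_eq', MvPolynomial.eval_eq', Finset.mul_sum]
  refine Finset.sum_congr rfl (fun m hm => ?_)
  have hs := hsum3 k d H hH m (MvPolynomial.mem_support_iff.1 hm)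
  rw [Fin.prod_univ_three, Fin.prod_univ_three]
  simp only [Pi.smul_apply, smul_eq_mul, mul_pow]
  rw [← hs, pow_add, pow_add]
  ring

theorem zero_of_eval (k : Type) [Field k] [Fintype k] (d : ℕ) (hd : d < Fintype.card k)
    (H : MvPolynomial (Fin 3) k) (hH : H.IsHomogeneous d)
    (h : ∀ v, MvPolynomial.eval v H = 0) : H = 0 := by
  refine MvPolynomial.eq_zero_of_eval_eq_zero (Fin 3) k H h ?_
  rw [MvPolynomial.mem_restrictDegree]
  intro s hs i
  have := hsum3 k d H hH s (MvPolynomial.mem_support_iff.1 hs)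
  fin_cases i <;> simp <;> omega

theorem exists_equiv (k : Type) [Field k] (p : Fin 3 → k) (hp : p ≠ 0) :
    ∃ φ : (Fin 3 → k) ≃ₗ[k] (Fin 3 → k), φ ![1, 0, 0] = p := by
  classical
  obtain ⟨j, hj⟩ : ∃ j, p j ≠ 0 := by
    by_contra hc
    push Not at hc
    exact hp (funext hc)
  let L : (Fin 3 → k) →ₗ[k] (Fin 3 → k) :=
    { toFun := fun v i => v 0 * p i + (if i = j then 0 else v (Equiv.swap 0 j i))
      map_add' := by
        intro v w
        ext i
        by_cases h : i = j <;> simp [h] <;> ring
      map_smul' := by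
        intro c v
        ext i
        by_cases h : i = j <;> simp [h] <;> ring }
  have hinj : Function.Injective L := by
    rw [injective_iff_map_eq_zero]
    intro v hv
    have hL : ∀ i, v 0 * p i + (if i = j then 0 else v (Equiv.swap 0 j i)) = 0 :=
      fun i => congrFun hv i
    have h0 : v 0 = 0 := by
      have := hL j
      rw [if_pos rfl, add_zero] at this
      exact (mul_eq_zero.1 this).resolve_right hj
    ext i
    by_cases hi : Equiv.swap 0 j i = j
    · have : i = 0 := by
        have := congrArg (Equiv.swap 0 j) hi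
        rwa [Equiv.swap_apply_self, Equiv.swap_apply_right] at this
      rw [this]
      exact h0
    · have := hL (Equiv.swap 0 j i)
      rw [if_neg hi, h0, zero_mul, zero_add, Equiv.swap_apply_self] at this
      exact this
  refine ⟨LinearEquiv.ofInjectiveEndo L hinj, ?_⟩
  rw [LinearEquiv.coe_ofInjectiveEndo]
  ext i
  show (![1, 0, 0] : Fin 3 → k) 0 * p i +
    (if i = j then 0 else (![1, 0, 0] : Fin 3 → k) (Equiv.swap 0 j i)) = p i
  by_cases hi : i = j
  · rw [if_pos hi]
    simp
  · rw [if_neg hi]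
    have : Equiv.swap 0 j i ≠ 0 := by
      intro h
      apply hi
      have := congrArg (Equiv.swap 0 j) h
      rwa [Equiv.swap_apply_self, Equiv.swap_apply_left] at this
    have h3 : (![1, 0, 0] : Fin 3 → k) (Equiv.swap 0 j i) = 0 := by
      generalize Equiv.swap 0 j i = u at this
      fin_cases u
      · exact absurd rfl this
      · rfl
      · rfl
    rw [h3]
    simp

theorem top_coeff (k : Type) [Field k] (d : ℕ) (H : MvPolynomial (Fin 3) k)
    (hH : H.IsHomogeneous d) :
    (top k d (deh k H)).coeff d = MvPolynomial.eval ![1, 0, 0] H := by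
  classical
  have h1 := deh_coeff k d H hH (Finsupp.single 0 d) (by simp)
  simp only [top, LinearMap.coe_mk, AddHom.coe_mk, Polynomial.finsetSum_coeff,
    Polynomial.coeff_monomial]
  rw [Finset.sum_eq_single d]
  · rw [if_pos rfl, Nat.sub_self]
    have e : (Finsupp.single 0 d + Finsupp.single 1 0 : Fin 2 →₀ ℕ) =
        Finsupp.single 0 ((Finsupp.single 0 d : Fin 3 →₀ ℕ) 0) +
          Finsupp.single 1 ((Finsupp.single 0 d : Fin 3 →₀ ℕ) 1) := by simp
    rw [e, h1, MvPolynomial.eval_eq']
    symm
    rw [Finset.sum_eq_single (Finsupp.single 0 d)]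
    · rw [Fin.prod_univ_three]
      simp
    · intro m hm hne
      have hs := hsum3 k d H hH m (MvPolynomial.mem_support_iff.1 hm)
      rw [Fin.prod_univ_three]
      by_cases hm1 : m 1 = 0
      · by_cases hm2 : m 2 = 0
        · exfalso
          apply hne
          ext i
          fin_cases i
          · simp; omega
          · simpa using hm1
          · simpa using hm2
        · simp [zero_pow hm2]
      · simp [zero_pow hm1]
    · intro hm
      rw [MvPolynomial.notMem_support_iff.1 hm, zero_mul]
  · intro j _ hj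
    rw [if_neg hj]
  · intro h
    exact absurd (Finset.mem_range.2 (by omega)) h

theorem top_natDegree (k : Type) [Field k] (d : ℕ) (f : MvPolynomial (Fin 2) k) :
    (top k d f).natDegree ≤ d := by
  simp only [top, LinearMap.coe_mk, AddHom.coe_mk]
  refine Polynomial.natDegree_sum_le_of_forall_le _ _ (fun i hi => ?_)
  refine (Polynomial.natDegree_monomial_le _).trans ?_
  have := Finset.mem_range.1 hi
  omega

theorem taskProj : TaskProj := by
  intro k _ _ d r G hd hdq hr hG hlin
  classical
  have hne : G ⟨0, by omega⟩ ≠ 0 := hlin.ne_zero _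
  set i₀ : Fin r := ⟨0, by omega⟩ with hi₀
  obtain ⟨p, hp⟩ : ∃ p, MvPolynomial.eval p (G i₀) ≠ 0 := by
    by_contra hc
    push Not at hc
    exact hne (zero_of_eval k d hdq _ (hG _) hc)
  have hp0 : p ≠ 0 := by
    rintro rfl
    apply hp
    have := eval_smul3 k d (G i₀) (hG _) 0 0
    rw [zero_smul, zero_pow (by omega), zero_mul] at this
    exact this
  obtain ⟨φ, hφ⟩ := exists_equiv k p hp0
  -- change of coordinates
  let ℓ : Fin 3 → MvPolynomial (Fin 3) k := fun j =>
    ∑ l, MvPolynomial.C (φ (Pi.single l 1) j) * MvPolynomial.X l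
  have hℓ : ∀ j, (ℓ j).IsHomogeneous 1 := by
    intro j
    refine MvPolynomial.IsHomogeneous.sum _ _ _ (fun l _ => ?_)
    have := (MvPolynomial.isHomogeneous_C (Fin 3) (φ (Pi.single l 1) j)).mul
      (MvPolynomial.isHomogeneous_X k l)
    simpa using this
  have hev : ∀ (v : Fin 3 → k) (x : MvPolynomial (Fin 3) k),
      MvPolynomial.eval v (MvPolynomial.aeval ℓ x) = MvPolynomial.eval (φ v) x := by
    intro v x
    have hc : (MvPolynomial.aeval v : MvPolynomial (Fin 3) k →ₐ[k] k).comp
        (MvPolynomial.aeval ℓ) = MvPolynomial.aeval (φ v) := by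
      apply MvPolynomial.algHom_ext
      intro j
      have hv : φ v j = ∑ l, φ (Pi.single l 1) j * v l := by
        conv_lhs => rw [show v = ∑ l, v l • (Pi.single l (1 : k) : Fin 3 → k) from
          (pi_eq_sum_univ' v)]
        rw [map_sum, Finset.sum_apply]
        refine Finset.sum_congr rfl (fun l _ => ?_)
        rw [map_smul, Pi.smul_apply, smul_eq_mul, mul_comm]
      simp [ℓ, hv]
    have h := congrArg (fun ψ => ψ x) hc
    simpa [MvPolynomial.aeval_eq_eval] using h
  have hhom : ∀ x : MvPolynomial (Fin 3) k, x.IsHomogeneous d →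
      (MvPolynomial.aeval ℓ x).IsHomogeneous d := by
    intro x hx
    have := hx.aeval ℓ hℓ
    simpa using this
  let T : MvPolynomial (Fin 3) k →ₗ[k] MvPolynomial (Fin 2) k :=
    (deh k).toLinearMap ∘ₗ (MvPolynomial.aeval ℓ).toLinearMap
  have hT : ∀ x, T x = deh k (MvPolynomial.aeval ℓ x) := fun x => rfl
  set S : Submodule k (MvPolynomial (Fin 3) k) := Submodule.span k (Set.range G) with hS
  have hShom : ∀ x ∈ S, x.IsHomogeneous d := by
    intro x hx
    have : S ≤ MvPolynomial.homogeneousSubmodule (Fin 3) k d := by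
      rw [hS, Submodule.span_le]
      rintro _ ⟨i, rfl⟩
      exact hG i
    exact this hx
  have hSev : ∀ v : Fin 3 → k, (∀ i, MvPolynomial.eval v (G i) = 0) ↔
      ∀ x ∈ S, MvPolynomial.eval v x = 0 := by
    intro v
    constructor
    · intro h x hx
      have : S ≤ LinearMap.ker (MvPolynomial.aeval v : MvPolynomial (Fin 3) k →ₐ[k] k).toLinearMap := by
        rw [hS, Submodule.span_le]
        rintro _ ⟨i, rfl⟩
        simpa [MvPolynomial.aeval_eq_eval] using h i
      simpa [MvPolynomial.aeval_eq_eval] using this hx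
    · intro h i
      exact h _ (Submodule.subset_span ⟨i, rfl⟩)
  have hdis : Disjoint S (LinearMap.ker T) := by
    rw [Submodule.disjoint_def]
    intro x hx hx'
    have hx1 := hShom x hx
    have hx2 : deh k (MvPolynomial.aeval ℓ x) = 0 := hx'
    have hx3 := deh_inj k d _ (hhom x hx1) hx2
    refine zero_of_eval k d hdq x hx1 (fun v => ?_)
    obtain ⟨u, rfl⟩ := φ.surjective v
    rw [← hev, hx3, map_zero]
  have hlin2 : LinearIndependent k (T ∘ G) := hlin.map hdis
  have htopev : ∀ x ∈ S, ∀ c : k, (top k d (T x)).eval c =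
      MvPolynomial.eval (φ ![c, 1, 0]) x := by
    intro x hx c
    rw [hT, top_deh k d _ (hhom x (hShom x hx)), ← hev]
    have hc : (Polynomial.aeval c : Polynomial k →ₐ[k] k).comp
        (MvPolynomial.aeval ![Polynomial.X, 1, 0]) =
        (MvPolynomial.aeval ![c, 1, 0] : MvPolynomial (Fin 3) k →ₐ[k] k) := by
      apply MvPolynomial.algHom_ext
      intro j
      fin_cases j <;> simp
    have h := congrArg (fun ψ => ψ (MvPolynomial.aeval ℓ x)) hc
    simpa [MvPolynomial.aeval_eq_eval, Polynomial.aeval_def, Polynomial.eval₂_eq_eval_map] using h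
  refine ⟨S.map T, Finset.univ.filter (fun a => ∀ i, MvPolynomial.eval (φ ![a.1, a.2, 1]) (G i) = 0),
    Finset.univ.filter (fun c => ∀ i, MvPolynomial.eval (φ ![c, 1, 0]) (G i) = 0), ?_, ?_, ?_, ?_,
    ?_, ?_⟩
  · rintro _ ⟨x, hx, rfl⟩
    exact deh_totalDegree k d _ (hhom x (hShom x hx))
  · rw [hS, Submodule.map_span, ← Set.range_comp, finrank_span_eq_card hlin2, Fintype.card_fin]
  · rintro _ ⟨x, hx, rfl⟩ a ha
    rw [hT, deh_eval, hev]
    exact (hSev _).1 (Finset.mem_filter.1 ha).2 x hx
  · intro c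
    rw [Finset.mem_filter, hSev]
    constructor
    · rintro ⟨-, h⟩ _ ⟨_, ⟨x, hx, rfl⟩, rfl⟩
      rw [htopev x hx]
      exact h x hx
    · intro h
      refine ⟨Finset.mem_univ _, fun x hx => ?_⟩
      rw [← htopev x hx]
      exact h _ ⟨_, ⟨x, hx, rfl⟩, rfl⟩
  · have hxS : G i₀ ∈ S := Submodule.subset_span ⟨i₀, rfl⟩
    refine ⟨top k d (T (G i₀)), ⟨_, ⟨G i₀, hxS, rfl⟩, rfl⟩, ?_⟩
    refine le_antisymm (top_natDegree k d _) (Polynomial.le_natDegree_of_ne_zero ?_)
    rw [hT, top_coeff k d _ (hhom _ (hG _)), hev, hφ]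
    exact hp
  · refine count k (fun v => ∀ i, MvPolynomial.eval v (G i) = 0) ?_ φ ?_ _ ?_ _ ?_
    · intro v c hc
      refine forall_congr' (fun i => ?_)
      rw [eval_smul3 k d _ (hG i)]
      constructor
      · intro h
        exact (mul_eq_zero.1 h).resolve_left (pow_ne_zero _ hc)
      · intro h
        rw [h, mul_zero]
    · intro h
      exact hp (by rw [← hφ]; exact h i₀)
    · intro a
      simp
    · intro c
      simp

end Pool.Agent.H588R3.BOG
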