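import Pool.Agent.H588R3.Defs

set_option autoImplicit false

open MeasureTheory
open scoped NNReal ENNReal

namespace Pool.Agent.H588R3.FPP

variable {d : ℕ}

lemma Joins.symm {e : Edge d} {x y : Fin d → ℤ} (h : Joins e x y) : Joins e y x := by
  rcases h with ⟨h1, h2⟩ | ⟨h1, h2⟩
  · exact Or.inr ⟨h2, h1⟩
  · exact Or.inl ⟨h2, h1⟩

lemma tip_apply (e : Edge d) (j : Fin d) : tip e j = e.1 j + if j = e.2 then 1 else 0 := by
  simp [tip, Pi.single_apply]

lemma Joins.abs_le {e : Edge d} {x y : Fin d → ℤ} (h : Joins e x y) (j : Fin d) :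
    |y j - x j| ≤ 1 := by
  rcases h with ⟨h1, h2⟩ | ⟨h1, h2⟩ <;> subst h1 <;> subst h2 <;> rw [tip_apply] <;>
    split_ifs <;> simp

/-! ### boundaries -/

/-- edges touching `A` -/
noncomputable def touch (A : Finset (Fin d → ℤ)) : Finset (Edge d) :=
  (A ×ˢ Finset.univ) ∪ (A ×ˢ Finset.univ).image (fun e : Edge d => (e.1 - Pi.single e.2 1, e.2))

lemma mem_touch {A : Finset (Fin d → ℤ)} {e : Edge d} : e ∈ touch A ↔ e.1 ∈ A ∨ tip e ∈ A := by
  unfold touch
  simp only [Finset.mem_union, Finset.mem_product, Finset.mem_univ, and_true, Finset.mem_image]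
  constructor
  · rintro (h | ⟨e', he', rfl⟩)
    · exact Or.inl h
    · right
      simpa [tip] using he'
  · rintro (h | h)
    · exact Or.inl h
    · right
      refine ⟨(tip e, e.2), h, ?_⟩
      simp [tip]

/-- edges with exactly one endpoint in `A` -/
noncomputable def bd (A : Finset (Fin d → ℤ)) : Finset (Edge d) :=
  (touch A).filter (fun e => ¬ (e.1 ∈ A ↔ tip e ∈ A))

lemma mem_bd {A : Finset (Fin d → ℤ)} {e : Edge d} :
    e ∈ bd A ↔ (e.1 ∈ A ∧ tip e ∉ A) ∨ (e.1 ∉ A ∧ tip e ∈ A) := by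
  unfold bd
  rw [Finset.mem_filter, mem_touch]
  tauto

lemma bd_subset_touch (A : Finset (Fin d → ℤ)) : bd A ⊆ touch A := Finset.filter_subset _ _

/-- edges with both endpoints in `A` -/
noncomputable def inn (A : Finset (Fin d → ℤ)) : Finset (Edge d) :=
  (touch A).filter (fun e => e.1 ∈ A ∧ tip e ∈ A)

lemma mem_inn {A : Finset (Fin d → ℤ)} {e : Edge d} :
    e ∈ inn A ↔ e.1 ∈ A ∧ tip e ∈ A := by
  unfold inn
  rw [Finset.mem_filter, mem_touch]
  tauto

lemma mem_bd_of_joins {A : Finset (Fin d → ℤ)} {e : Edge d} {x y : Fin d → ℤ}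
    (h : Joins e x y) (hx : x ∈ A) (hy : y ∉ A) : e ∈ bd A := by
  rw [mem_bd]
  rcases h with ⟨h1, h2⟩ | ⟨h1, h2⟩ <;> subst h1 <;> subst h2
  · exact Or.inl ⟨hx, hy⟩
  · exact Or.inr ⟨hy, hx⟩

/-- An edge of the boundary joins a point inside to a point outside. -/
lemma exists_of_mem_bd {A : Finset (Fin d → ℤ)} {e : Edge d} (h : e ∈ bd A) :
    ∃ x y, Joins e x y ∧ x ∈ A ∧ y ∉ A := by
  rw [mem_bd] at h
  rcases h with ⟨h1, h2⟩ | ⟨h1, h2⟩
  · exact ⟨e.1, tip e, Or.inl ⟨rfl, rfl⟩, h1, h2⟩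
  · exact ⟨tip e, e.1, Or.inr ⟨rfl, rfl⟩, h2, h1⟩

lemma Joins.eq_or {e : Edge d} {x y x' y' : Fin d → ℤ} (h : Joins e x y) (h' : Joins e x' y') :
    (x = x' ∧ y = y') ∨ (x = y' ∧ y = x') := by
  rcases h with ⟨h1, h2⟩ | ⟨h1, h2⟩ <;> rcases h' with ⟨h3, h4⟩ | ⟨h3, h4⟩ <;>
    subst h1 <;> subst h2 <;> subst h3 <;> subst h4 <;> simp

/-! ### the isoperimetric inequality -/

lemma exists_exit (A : Finset (Fin d → ℤ)) (v : Fin d → ℤ) (hv : v ≠ 0) (u : Fin d → ℤ)
    (hu : u ∈ A) : ∃ s : ℕ, u + (s : ℤ) • v ∈ A ∧ u + ((s : ℤ) + 1) • v ∉ A := by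
  by_contra hcon
  push_neg at hcon
  have hall : ∀ s : ℕ, u + (s : ℤ) • v ∈ A := by
    intro s
    induction s with
    | zero => simpa using hu
    | succ s ih => simpa using hcon s ih
  have hinj : Function.Injective (fun s : ℕ => u + (s : ℤ) • v) := by
    intro s t hst
    have h1 : (s : ℤ) • v = (t : ℤ) • v := by simpa using hst
    have h2 : ((s : ℤ) - (t : ℤ)) • v = 0 := by rw [sub_smul, h1, sub_self]
    rcases smul_eq_zero.mp h2 with h3 | h3
    · omega
    · exact absurd h3 hv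
  have hinf := Set.infinite_range_of_injective hinj
  apply hinf
  apply (A.finite_toSet).subset
  rintro _ ⟨s, rfl⟩
  exact hall s

/-- Isoperimetric inequality: if `A` meets the layers `x_1 = i`, `i ∈ I`, then it has at
least `2 (d-1) |I| + 2` boundary edges. -/
theorem card_bd_ge (hd : 1 ≤ d) (A : Finset (Fin d → ℤ)) (I : Finset ℤ)
    (hne : A.Nonempty) (hI : ∀ i ∈ I, ∃ u ∈ A, u ⟨0, hd⟩ = i) :
    2 * (d - 1) * I.card + 2 ≤ (bd A).card := by
  classical
  set z : Fin d := ⟨0, hd⟩ with hz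
  set Ψ : Edge d → ℤ × Fin d × Bool := fun e =>
    (if e.2 = z then 0 else e.1 z, e.2, decide (e.1 ∈ A)) with hΨ
  set S : Finset (ℤ × Fin d × Bool) :=
    (I ×ˢ ((Finset.univ.erase z) ×ˢ Finset.univ)) ∪ ({0} ×ˢ ({z} ×ˢ Finset.univ)) with hS
  have hcard : S.card = 2 * (d - 1) * I.card + 2 := by
    rw [hS, Finset.card_union_of_disjoint]
    · simp only [Finset.card_product, Finset.card_erase_of_mem (Finset.mem_univ z),
        Finset.card_univ, Fintype.card_fin, Fintype.card_bool, Finset.card_singleton]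
      ring
    · rw [Finset.disjoint_left]
      rintro ⟨a, b, c⟩ h1 h2
      simp only [Finset.mem_product, Finset.mem_erase, Finset.mem_univ, and_true,
        Finset.mem_singleton] at h1 h2
      exact h1.2 h2.2
  rw [← hcard]
  have key : S ⊆ (bd A).image Ψ := by
    rintro ⟨a, j, b⟩ hab
    rw [Finset.mem_image]
    -- the point from which we leave
    obtain ⟨u, huA, hu⟩ : ∃ u ∈ A, (j ≠ z → u z = a) ∧ (j = z → a = 0) := by
      rw [hS, Finset.mem_union] at hab
      simp only [Finset.mem_product, Finset.mem_erase, Finset.mem_univ, and_true,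
        Finset.mem_singleton] at hab
      rcases hab with ⟨h1, h2⟩ | ⟨h1, h2⟩
      · obtain ⟨u, hu, hua⟩ := hI a h1
        exact ⟨u, hu, fun _ => hua, fun h => absurd h h2⟩
      · obtain ⟨u, hu⟩ := hne
        exact ⟨u, hu, fun h => absurd h2 h, fun _ => h1⟩
    cases b with
    | true =>
      obtain ⟨s, hs1, hs2⟩ := exists_exit A (Pi.single j 1) (by simp) u huA
      refine ⟨(u + (s : ℤ) • Pi.single j 1, j), ?_, ?_⟩
      · rw [mem_bd]
        left
        refine ⟨hs1, ?_⟩
        simpa [tip, add_smul, add_assoc] using hs2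
      · simp only [hΨ, hs1, decide_true]
        by_cases hj : j = z
        · simp [hj, hu.2 hj]
        · have : (u + (s : ℤ) • (Pi.single j 1 : Fin d → ℤ)) z = a := by
            simp [Ne.symm hj, hu.1 hj]
          simp only [hj, if_false, this]
    | false =>
      obtain ⟨s, hs1, hs2⟩ := exists_exit A (-Pi.single j 1) (by simp) u huA
      have htip : tip ((u + ((s : ℤ) + 1) • (-Pi.single j 1 : Fin d → ℤ), j) : Edge d)
          = u + (s : ℤ) • (-Pi.single j 1) := by
        simp only [tip, add_smul, one_smul]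
        abel
      refine ⟨(u + ((s : ℤ) + 1) • (-Pi.single j 1), j), ?_, ?_⟩
      · rw [mem_bd]
        right
        refine ⟨hs2, ?_⟩
        rw [htip]
        exact hs1
      · simp only [hΨ, hs2, decide_false]
        by_cases hj : j = z
        · simp [hj, hu.2 hj]
        · have : (u + ((s : ℤ) + 1) • (-Pi.single j 1 : Fin d → ℤ)) z = a := by
            simp [Ne.symm hj, hu.1 hj]
          simp only [hj, if_false, this]
  calc S.card ≤ ((bd A).image Ψ).card := Finset.card_le_card key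
    _ ≤ (bd A).card := Finset.card_image_le

end Pool.Agent.H588R3.FPP
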