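import Mathlib

set_option autoImplicit false

open MeasureTheory
open scoped NNReal ENNReal

namespace Pool.Agent.H588R3.FPP

/-- The edges of the lattice `ℤ^d`: the pair `(x, i)` stands for the edge joining `x` and
`x + e_i`. -/
abbrev Edge (d : ℕ) := (Fin d → ℤ) × Fin d

/-- The upper endpoint `x + e_i` of the edge `(x, i)`. -/
def tip {d : ℕ} (e : Edge d) : Fin d → ℤ := e.1 + Pi.single e.2 1

/-- The edge `e` joins the vertices `x` and `y`. -/
def Joins {d : ℕ} (e : Edge d) (x y : Fin d → ℤ) : Prop :=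
  (x = e.1 ∧ y = tip e) ∨ (x = tip e ∧ y = e.1)

/-- `IsPath es x y`: the list of edges `es` is a nearest-neighbour lattice path from `x` to `y`. -/
def IsPath {d : ℕ} : List (Edge d) → (Fin d → ℤ) → (Fin d → ℤ) → Prop
  | [], x, y => x = y
  | e :: es, x, y => ∃ z, Joins e x z ∧ IsPath es z y

/-- The first-passage time from `x` to `y` for the edge weights `τ`: the infimum of
`∑_{e ∈ r} τ(e)` over the lattice paths `r` from `x` to `y`. -/
noncomputable def T {d : ℕ} (τ : Edge d → ℝ≥0) (x y : Fin d → ℤ) : ℝ≥0 :=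
  sInf {c | ∃ es : List (Edge d), IsPath es x y ∧ c = (es.map τ).sum}

/-- The lattice point `n e_1`. -/
def axis (d n : ℕ) : Fin d → ℤ := fun i => if (i : ℕ) = 0 then (n : ℤ) else 0

/-- The joint law of i.i.d. edge weights with common law `F`. -/
noncomputable def law (d : ℕ) (F : Measure ℝ≥0) : Measure (Edge d → ℝ≥0) :=
  Measure.infinitePi (fun _ : Edge d => F)

end Pool.Agent.H588R3.FPP
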