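import Pool.Agent.H588R3.Law

set_option autoImplicit false

open MeasureTheory ProbabilityTheory Filter Topology
open scoped NNReal ENNReal

namespace Pool.Agent.H588R3.FPP

/-- a law with a bounded part and a rare part -/
noncomputable def mix (G : Measure ℝ≥0) (s : ℕ → ℝ) (v : ℕ → ℝ≥0) : Measure ℝ≥0 :=
  ENNReal.ofReal (1 - s 0) • G + rare s v

section
variable {G : Measure ℝ≥0} {s : ℕ → ℝ} {v : ℕ → ℝ≥0} {M₀ : ℝ≥0}

lemma mix_prob [IsProbabilityMeasure G] (hs : Antitone s) (h0 : Tendsto s atTop (𝓝 0))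
    (hs1 : s 0 ≤ 1) : IsProbabilityMeasure (mix G s v) := by
  constructor
  have hs0 : 0 ≤ s 0 := le_of_tendsto' h0 (fun n => hs (Nat.zero_le n))
  rw [mix, Measure.add_apply, Measure.smul_apply, measure_univ, rare_univ hs h0, smul_eq_mul,
    mul_one, ← ENNReal.ofReal_add (by linarith) hs0]
  simp

lemma mix_Ici (hG : G (Set.Ioi M₀) = 0) (hs : Antitone s) (h0 : Tendsto s atTop (𝓝 0))
    (hv : StrictMono v) (hM : M₀ < v 0) (k : ℕ) :
    mix G s v (Set.Ici (v k)) = ENNReal.ofReal (s k) := by
  have : G (Set.Ici (v k)) = 0 := by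
    apply measure_mono_null _ hG
    intro x hx
    exact hM.trans_le ((hv.monotone (Nat.zero_le k)).trans hx)
  rw [mix, Measure.add_apply, Measure.smul_apply, this, rare_Ici hs h0 hv]
  simp

lemma mix_null (hG : G (Set.Ioi M₀) = 0) {X : Set ℝ≥0} (hX : MeasurableSet X)
    (hXM : X ⊆ Set.Ioi M₀) (h : ∀ j, v j ∉ X) : mix G s v X = 0 := by
  rw [mix, Measure.add_apply, Measure.smul_apply, measure_mono_null hXM hG, rare_null s v hX h]
  simp

lemma mix_moment [IsProbabilityMeasure G] (hG : G (Set.Ioi M₀) = 0)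
    (hs : Antitone s) (hs0 : ∀ j, 0 ≤ s j)
    (hb : ∀ j, s j ≤ (1 / 2) ^ j * Real.exp (-((j / 2 : ℕ) : ℝ) * v j)) (a : ℝ) :
    Integrable (fun x : ℝ≥0 => Real.exp (a * x)) (mix G s v) := by
  refine ⟨by fun_prop, ?_⟩
  rw [hasFiniteIntegral_iff_ofReal (Eventually.of_forall (fun x => (Real.exp_pos _).le))]
  rw [mix, lintegral_add_measure, lintegral_smul_measure]
  refine ENNReal.add_lt_top.2 ⟨?_, rare_moment hs hs0 hb a⟩
  refine ENNReal.mul_lt_top ENNReal.ofReal_lt_top ?_
  have hae : ∀ᵐ x : ℝ≥0 ∂G, ENNReal.ofReal (Real.exp (a * x)) ≤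
      ENNReal.ofReal (Real.exp (|a| * M₀)) := by
    have : ∀ᵐ x : ℝ≥0 ∂G, x ∉ Set.Ioi M₀ := measure_eq_zero_iff_ae_notMem.1 hG
    filter_upwards [this] with x hx
    apply ENNReal.ofReal_le_ofReal
    apply Real.exp_le_exp.2
    have hx' : (x : ℝ) ≤ M₀ := by exact_mod_cast not_lt.1 hx
    calc a * (x : ℝ) ≤ |a| * x := mul_le_mul_of_nonneg_right (le_abs_self a) x.coe_nonneg
      _ ≤ |a| * M₀ := mul_le_mul_of_nonneg_left hx' (abs_nonneg a)
  calc ∫⁻ x : ℝ≥0, ENNReal.ofReal (Real.exp (a * x)) ∂G
      ≤ ∫⁻ _, ENNReal.ofReal (Real.exp (|a| * M₀)) ∂G := lintegral_mono_ae hae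
    _ < ∞ := by rw [lintegral_const, measure_univ, mul_one]; exact ENNReal.ofReal_lt_top

end

/-! ### from levels to the passage times -/

variable {d : ℕ}

lemma measurable_lev (V : ℝ≥0) : Measurable (lev V) := by
  unfold lev
  refine Measurable.ite measurableSet_Iio measurable_const ?_
  exact Measurable.ite measurableSet_Iio measurable_const measurable_const

lemma map_law (d : ℕ) (F : Measure ℝ≥0) [IsProbabilityMeasure F] (V : ℝ≥0) :
    (law d F).map (fun τ e => lev V (τ e)) = QQ d (F.map (lev V)) := by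
  have := Measure.infinitePi_map_pi (μ := fun _ : Edge d => F) (f := fun _ => lev V)
    (fun _ => measurable_lev V)
  exact this

lemma meas_sum (es : List (Edge d)) :
    Measurable (fun w : Edge d → Fin 3 => (es.map (lv w)).sum) := by
  induction es with
  | nil => simp
  | cons e es ih =>
    simp only [List.map_cons, List.sum_cons]
    refine Measurable.add ?_ ih
    exact (measurable_from_top (f := fun i : Fin 3 => (i : ℕ))).comp (measurable_pi_apply e)

lemma meas_evE (d n : ℕ) : MeasurableSet (evE d n) := by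
  have e : evE d n = ⋂ es : List (Edge d), ⋂ (_ : IsPath es (axis d 0) (axis d n)),
      {w | 2 ≤ (es.map (lv w)).sum} := by
    ext w
    simp only [evE, EE, Set.mem_setOf_eq, Set.mem_iInter]
  rw [e]
  refine MeasurableSet.iInter (fun es => MeasurableSet.iInter (fun _ => ?_))
  exact (meas_sum es) measurableSet_Ici

lemma ae_good {F : Measure ℝ≥0} [IsProbabilityMeasure F] {X : Set ℝ≥0} (hX : F X = 0) :
    ∀ᵐ τ ∂(law d F), ∀ e : Edge d, τ e ∉ X := by
  rw [ae_all_iff]
  intro e
  have h := (measurePreserving_eval_infinitePi (fun _ : Edge d => F) e)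
  have h1 : ∀ᵐ x ∂F, x ∉ X := measure_eq_zero_iff_ae_notMem.1 hX
  exact h.quasiMeasurePreserving.ae h1

/-- One level produces a violation. -/
lemma violation (hd : 2 ≤ d) {n m κ : ℕ}
    {F : Measure ℝ≥0} [IsProbabilityMeasure F] {V L : ℝ≥0} {q q₀ : ℝ}
    (hone : ∀ (ν : Measure (Fin 3)) (q : ℝ), Lev ν q → q < q₀ →
      (QQ d ν).real (evN d m κ) < (QQ d ν).real (evE d n))
    (hL : 0 < L) (hV : V = (4 * (box (axis d 0) (m + 2 * κ)).card + 4) * L)
    (hq0 : 0 < q) (hq1 : q ≤ 1) (hq : q < q₀)
    (hF1 : F (Set.Ici V) = ENNReal.ofReal q)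
    (hF2 : F (Set.Ici (2 * V)) = ENNReal.ofReal (2 * q ^ 2))
    (hFn : F {x | (L < x ∧ x < V) ∨ (V < x ∧ x < 2 * V)} = 0) :
    ∃ t : ℝ≥0, law d F {τ | t < T τ (axis d 0) (axis d m)} <
      law d F {τ | t < T τ (axis d 0) (axis d n)} := by
  set S := box (axis d 0) (m + 2 * κ) with hS
  have hVpos : 0 < V := by rw [hV]; positivity
  have hLV : L ≤ V := by
    rw [hV]
    have : (1 : ℝ≥0) ≤ 4 * (S.card : ℝ≥0) + 4 := by
      have : (1 : ℝ≥0) ≤ 4 := by norm_num
      exact this.trans le_add_self
    exact le_mul_of_one_le_left (by positivity) this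
  have hVL : V + 2 * S.card * L < V + V / 2 := by
    apply add_lt_add_right
    rw [hV]
    have e : (4 * (S.card : ℝ≥0) + 4) * L / 2 = 2 * S.card * L + 2 * L := by
      rw [← NNReal.coe_inj]; push_cast; ring
    rw [e]
    exact lt_add_of_pos_right _ (by positivity)
  have hV2 : V + V / 2 < 2 * V := by
    have : V / 2 < V := NNReal.half_lt_self hVpos.ne'
    rw [two_mul]
    exact add_lt_add_right this V
  set ν := F.map (lev V) with hν
  have hlev : Lev ν q := by
    refine ⟨Measure.isProbabilityMeasure_map (measurable_lev V).aemeasurable, hq0, hq1, ?_, ?_⟩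
    · rw [measureReal_def, hν, Measure.map_apply (measurable_lev V)
        (Set.Finite.measurableSet (Set.toFinite _))]
      have e : lev V ⁻¹' {i | 1 ≤ (i : ℕ)} = Set.Ici V := by
        ext x
        simp only [Set.mem_preimage, Set.mem_setOf_eq, Set.mem_Ici, lev]
        constructor
        · intro h
          by_contra h'
          rw [not_le] at h'
          rw [if_pos h'] at h
          simp at h
        · intro h
          rw [if_neg (not_lt.2 h)]
          split_ifs <;> simp
      rw [e, hF1, ENNReal.toReal_ofReal hq0.le]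
    · rw [measureReal_def, hν, Measure.map_apply (measurable_lev V)
        (Set.Finite.measurableSet (Set.toFinite _))]
      have e : lev V ⁻¹' {i | 2 ≤ (i : ℕ)} = Set.Ici (2 * V) := by
        ext x
        simp only [Set.mem_preimage, Set.mem_setOf_eq, Set.mem_Ici, lev]
        constructor
        · intro h
          by_contra h'
          rw [not_le] at h'
          rw [if_pos h'] at h
          split_ifs at h <;> simp at h
        · intro h
          have h1 : V ≤ x := le_trans (by rw [two_mul]; exact le_add_self) h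
          rw [if_neg (not_lt.2 h1), if_neg (not_lt.2 h)]
          simp
      rw [e, hF2, ENNReal.toReal_ofReal (by positivity)]
  have hlt := hone ν q hlev hq
  haveI := hlev.prob
  refine ⟨V + V / 2, ?_⟩
  have hmeas : Measurable (fun (τ : Edge d → ℝ≥0) e => lev V (τ e)) :=
    measurable_pi_lambda _ (fun e => (measurable_lev V).comp (measurable_pi_apply e))
  have hup : law d F {τ | V + V / 2 < T τ (axis d 0) (axis d m)} ≤ QQ d ν (evN d m κ) := by
    rw [← map_law d F V]
    refine le_trans ?_ (Measure.le_map_apply hmeas.aemeasurable _)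
    apply measure_mono_ae
    filter_upwards [ae_good (d := d) hFn] with τ hτ hT
    show (fun e => lev V (τ e)) ∈ evN d m κ
    intro hR
    have hgood : ∀ e, τ e ≤ L ∨ τ e = V ∨ 2 * V ≤ τ e := by
      intro e
      have this : ¬ ((L < τ e ∧ τ e < V) ∨ (V < τ e ∧ τ e < 2 * V)) := hτ e
      push Not at this
      rcases le_or_gt (τ e) L with h | h
      · exact Or.inl h
      · right
        have h1 := this.1 h
        rcases h1.eq_or_lt with h2 | h2
        · exact Or.inl h2.symm
        · exact Or.inr (this.2 h2)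
    have := T_le hVpos hLV hgood hR
    exact absurd (lt_of_lt_of_le hT this) (not_lt.2 hVL.le)
  have hlow : QQ d ν (evE d n) ≤ law d F {τ | V + V / 2 < T τ (axis d 0) (axis d n)} := by
    rw [← map_law d F V, Measure.map_apply hmeas (meas_evE d n)]
    apply measure_mono
    intro τ hτ
    exact lt_of_lt_of_le hV2 (le_T (exists_path_axis (by omega) n) hτ)
  refine lt_of_le_of_lt hup (lt_of_lt_of_le ?_ hlow)
  rw [measureReal_def, measureReal_def] at hlt
  exact (ENNReal.toReal_lt_toReal (measure_ne_top _ _) (measure_ne_top _ _)).1 hlt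

lemma exists_step (f : ℕ → ℝ≥0∞) {n m : ℕ} (hnm : n < m) (h : f m < f n) :
    ∃ j, n ≤ j ∧ f (j + 1) < f j := by
  by_contra hcon
  push Not at hcon
  have : ∀ k, f n ≤ f (n + k) := by
    intro k
    induction k with
    | zero => exact le_rfl
    | succ k ih => exact ih.trans (hcon (n + k) (by omega))
  have h2 := this (m - n)
  rw [Nat.add_sub_cancel' hnm.le] at h2
  exact absurd h (not_lt.2 h2)

end Pool.Agent.H588R3.FPP
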