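import Pool.Agent.H588R3.Reach

set_option autoImplicit false

open MeasureTheory
open scoped NNReal ENNReal

namespace Pool.Agent.H588R3.FPP

variable {d : ℕ}

lemma Proj.hit {hd : 1 ≤ d} {A : Finset (Fin d → ℤ)} (hA : Proj hd A) {u v : Fin d → ℤ}
    (hu : u ∈ A) (hv : v ∈ A) {i : ℤ}
    (hi : (u ⟨0, hd⟩ ≤ i ∧ i ≤ v ⟨0, hd⟩) ∨ (v ⟨0, hd⟩ ≤ i ∧ i ≤ u ⟨0, hd⟩)) :
    ∃ t ∈ A, t ⟨0, hd⟩ = i := by
  rcases hi with ⟨h1, h2⟩ | ⟨h1, h2⟩
  · exact hA u hu v hv i h1 h2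
  · exact hA v hv u hu i h1 h2

lemma card_bd_ge_one (hd : 1 ≤ d) {A : Finset (Fin d → ℤ)} {x : Fin d → ℤ} (hx : x ∈ A) :
    2 * d ≤ (bd A).card := by
  have := card_bd_ge hd A {x ⟨0, hd⟩} ⟨x, hx⟩ (by
    intro i hi
    rw [Finset.mem_singleton] at hi
    exact ⟨x, hx, hi.symm⟩)
  rw [Finset.card_singleton] at this
  omega

/-- two intersecting surfaces around `0` and around `n e_1` have many edges -/
lemma energy_meet (hd : 1 ≤ d) {A B : Finset (Fin d → ℤ)} {o x c : Fin d → ℤ} {n : ℕ}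
    (hA : Proj hd A) (hB : Proj hd B) (ho : o ∈ A) (hx : x ∈ B) (hcA : c ∈ A) (hcB : c ∈ B)
    (hon : x ⟨0, hd⟩ = o ⟨0, hd⟩ + n) :
    2 * (d - 1) * (n + 1) + 2 + 2 * d ≤ (bd A).card + (bd B).card := by
  have h1 := card_bd_ge hd A (Finset.Icc (min (o ⟨0, hd⟩) (c ⟨0, hd⟩)) (max (o ⟨0, hd⟩) (c ⟨0, hd⟩))) ⟨o, ho⟩ (by
    intro i hi
    rw [Finset.mem_Icc] at hi
    exact hA.hit ho hcA (by omega))
  have h2 := card_bd_ge hd B (Finset.Icc (min (x ⟨0, hd⟩) (c ⟨0, hd⟩)) (max (x ⟨0, hd⟩) (c ⟨0, hd⟩))) ⟨x, hx⟩ (by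
    intro i hi
    rw [Finset.mem_Icc] at hi
    exact hB.hit hx hcB (by omega))
  rw [Int.card_Icc] at h1 h2
  set a := (max (o ⟨0, hd⟩) (c ⟨0, hd⟩) + 1 - min (o ⟨0, hd⟩) (c ⟨0, hd⟩)).toNat with ha
  set b := (max (x ⟨0, hd⟩) (c ⟨0, hd⟩) + 1 - min (x ⟨0, hd⟩) (c ⟨0, hd⟩)).toNat with hb
  have hab : n + 2 ≤ a + b := by omega
  have h3 : 2 * (d - 1) * (n + 2) ≤ 2 * (d - 1) * (a + b) := Nat.mul_le_mul_left _ hab
  have h4 : 2 * (d - 1) * (a + b) = 2 * (d - 1) * a + 2 * (d - 1) * b := by ring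
  have h5 : 2 * (d - 1) * (n + 2) = 2 * (d - 1) * (n + 1) + 2 * (d - 1) := by ring
  omega

lemma union_hit (hd : 1 ≤ d) {A B : Finset (Fin d → ℤ)} {o x : Fin d → ℤ}
    (hA : Proj hd A) (hB : Proj hd B) (ho : o ∈ A) (hx : x ∈ B)
    {e : Edge d} (he1 : e ∈ bd B) (he2 : e ∈ touch A) :
    ∀ i ∈ Finset.Icc (min (o ⟨0, hd⟩) (x ⟨0, hd⟩)) (max (o ⟨0, hd⟩) (x ⟨0, hd⟩)),
      ∃ t ∈ A ∪ B, t ⟨0, hd⟩ = i := by
  intro i hi
  rw [Finset.mem_Icc] at hi
  by_cases hc : ∃ c, c ∈ A ∧ c ∈ B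
  · obtain ⟨c, hcA, hcB⟩ := hc
    by_cases h : (o ⟨0, hd⟩ ≤ i ∧ i ≤ c ⟨0, hd⟩) ∨ (c ⟨0, hd⟩ ≤ i ∧ i ≤ o ⟨0, hd⟩)
    · obtain ⟨t, ht, hti⟩ := hA.hit ho hcA (i := i) h
      exact ⟨t, Finset.mem_union_left _ ht, hti⟩
    · obtain ⟨t, ht, hti⟩ := hB.hit hcB hx (i := i) (by omega)
      exact ⟨t, Finset.mem_union_right _ ht, hti⟩
  · push Not at hc
    obtain ⟨a, b, hj, ha, hb⟩ := exists_of_mem_bd he1
    rw [mem_touch] at he2
    have hbA : b ∈ A := by
      have hor : a ∈ A ∨ b ∈ A := by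
        rcases hj with ⟨h1, h2⟩ | ⟨h1, h2⟩ <;> subst h1 <;> subst h2 <;> tauto
      rcases hor with h | h
      · exact absurd ha (hc a h)
      · exact h
    have hab := hj.abs_le ⟨0, hd⟩
    rw [abs_le] at hab
    by_cases h : (o ⟨0, hd⟩ ≤ i ∧ i ≤ b ⟨0, hd⟩) ∨ (b ⟨0, hd⟩ ≤ i ∧ i ≤ o ⟨0, hd⟩)
    · obtain ⟨t, ht, hti⟩ := hA.hit ho hbA (i := i) h
      exact ⟨t, Finset.mem_union_left _ ht, hti⟩
    · obtain ⟨t, ht, hti⟩ := hB.hit ha hx (i := i) (by omega)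
      exact ⟨t, Finset.mem_union_right _ ht, hti⟩

/-- the energy bound for the covariance term -/
lemma energy_cov (hd : 1 ≤ d) {A B₁ B₂ : Finset (Fin d → ℤ)} {o x : Fin d → ℤ} {n : ℕ}
    (hA : Proj hd A) (hB1 : Proj hd B₁) (hB2 : Proj hd B₂) (h12 : B₁ ⊆ B₂)
    (ho : o ∈ A) (hx : x ∈ B₁)
    (hon : x ⟨0, hd⟩ = o ⟨0, hd⟩ + n ∨ o ⟨0, hd⟩ = x ⟨0, hd⟩ + n)
    (ht : ¬ (Disjoint (bd B₁) (touch A) ∧ Disjoint (bd B₂) (touch A))) :
    2 * (d - 1) * (n + 1) + 2 + 2 * d ≤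
      (bd A ∪ (bd B₁ ∪ bd B₂)).card + (bd B₁ ∩ bd B₂).card := by
  classical
  have hhit : ∀ i ∈ Finset.Icc (min (o ⟨0, hd⟩) (x ⟨0, hd⟩)) (max (o ⟨0, hd⟩) (x ⟨0, hd⟩)),
      ∃ t ∈ A ∪ B₂, t ⟨0, hd⟩ = i := by
    by_cases h1 : Disjoint (bd B₁) (touch A)
    · have h2 : ¬ Disjoint (bd B₂) (touch A) := fun h => ht ⟨h1, h⟩
      rw [Finset.not_disjoint_iff] at h2
      obtain ⟨e, he1, he2⟩ := h2
      exact union_hit hd hA hB2 ho (h12 hx) he1 he2
    · rw [Finset.not_disjoint_iff] at h1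
      obtain ⟨e, he1, he2⟩ := h1
      intro i hi
      obtain ⟨t, ht, hti⟩ := union_hit hd hA hB1 ho hx he1 he2 i hi
      refine ⟨t, ?_, hti⟩
      rw [Finset.mem_union] at ht ⊢
      rcases ht with h | h
      · exact Or.inl h
      · exact Or.inr (h12 h)
  have e1 := card_bd_ge hd (A ∪ B₂)
    (Finset.Icc (min (o ⟨0, hd⟩) (x ⟨0, hd⟩)) (max (o ⟨0, hd⟩) (x ⟨0, hd⟩)))
    ⟨o, Finset.mem_union_left _ ho⟩ hhit
  have e2 := card_bd_ge_one hd hx
  have e3 : (Finset.Icc (min (o ⟨0, hd⟩) (x ⟨0, hd⟩)) (max (o ⟨0, hd⟩) (x ⟨0, hd⟩))).card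
      = n + 1 := by
    rw [Int.card_Icc]; omega
  rw [e3] at e1
  have e4 : (bd (A ∪ B₂)).card ≤ (bd B₂).card + (bd A \ (bd B₁ ∪ bd B₂)).card := by
    refine le_trans (Finset.card_le_card ?_) (Finset.card_union_le _ _)
    intro e he
    obtain ⟨a, b, hj, ha, hb⟩ := exists_of_mem_bd he
    rw [Finset.mem_union] at ha hb
    push Not at hb
    rw [Finset.mem_union]
    by_cases haB : a ∈ B₂
    · left; exact mem_bd_of_joins hj haB hb.2
    · right
      have haA : a ∈ A := by tauto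
      rw [Finset.mem_sdiff]
      refine ⟨mem_bd_of_joins hj haA hb.1, ?_⟩
      intro hmem
      rw [Finset.mem_union] at hmem
      have aux : ∀ C : Finset (Fin d → ℤ), a ∉ C → b ∉ C → e ∉ bd C := by
        intro C h1 h2 h3
        obtain ⟨a', b', hj', ha', hb'⟩ := exists_of_mem_bd h3
        rcases hj.eq_or hj' with ⟨r1, r2⟩ | ⟨r1, r2⟩
        · exact h1 (r1 ▸ ha')
        · exact h2 (r2 ▸ ha')
      rcases hmem with h | h
      · exact aux B₁ (fun h' => haB (h12 h')) (fun h' => hb.2 (h12 h')) h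
      · exact aux B₂ haB hb.2 h
  have e5 : (bd A ∪ (bd B₁ ∪ bd B₂)).card
      = (bd A \ (bd B₁ ∪ bd B₂)).card + (bd B₁ ∪ bd B₂).card := by
    rw [← Finset.sdiff_union_self_eq_union]
    rw [Finset.card_union_of_disjoint Finset.sdiff_disjoint]
  have e6 := Finset.card_union_add_card_inter (bd B₁) (bd B₂)
  omega

/-! ### the segment -/

lemma axis_zero_apply (hd : 1 ≤ d) (n : ℕ) : axis d n ⟨0, hd⟩ = n := by simp [axis]

/-- the segment `{0, e_1, …, (n-1) e_1}` -/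
noncomputable def seg (d n : ℕ) : Finset (Fin d → ℤ) := (Finset.range n).image (axis d)

lemma mem_seg {n : ℕ} {v : Fin d → ℤ} : v ∈ seg d n ↔ ∃ k < n, axis d k = v := by
  simp [seg]

lemma axis_succ (hd : 1 ≤ d) (k : ℕ) :
    axis d (k + 1) = axis d k + Pi.single ⟨0, hd⟩ 1 := by
  ext i
  by_cases hi : i = ⟨0, hd⟩
  · subst hi
    simp [axis]
  · have : (i : ℕ) ≠ 0 := fun h => hi (Fin.ext h)
    simp [axis, this, Pi.single_apply, hi]

lemma card_bd_seg (hd : 1 ≤ d) (n : ℕ) (hn : 1 ≤ n) :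
    (bd (seg d n)).card ≤ 2 * (d - 1) * n + 2 := by
  classical
  set z : Fin d := ⟨0, hd⟩ with hz
  set P1 : Finset (Edge d) :=
    ((Finset.range n) ×ˢ (Finset.univ.erase z)).image (fun p : ℕ × Fin d => (axis d p.1, p.2))
      ∪ {(axis d (n - 1), z)} with hP1
  set P2 : Finset (Edge d) :=
    ((Finset.range n) ×ˢ (Finset.univ.erase z)).image
      (fun p : ℕ × Fin d => (axis d p.1 - Pi.single p.2 1, p.2))
      ∪ {(axis d 0 - Pi.single z 1, z)} with hP2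
  have hc : ∀ (f : ℕ × Fin d → Edge d) (a : Edge d),
      (((Finset.range n) ×ˢ (Finset.univ.erase z)).image f ∪ {a}).card ≤ (d - 1) * n + 1 := by
    intro f a
    refine (Finset.card_union_le _ _).trans ?_
    rw [Finset.card_singleton]
    refine Nat.add_le_add_right (Finset.card_image_le.trans ?_) 1
    rw [Finset.card_product, Finset.card_range, Finset.card_erase_of_mem (Finset.mem_univ z),
      Finset.card_univ, Fintype.card_fin, mul_comm]
  have hsub : bd (seg d n) ⊆ P1 ∪ P2 := by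
    intro e he
    rw [mem_bd] at he
    rw [Finset.mem_union]
    rcases he with ⟨h1, h2⟩ | ⟨h1, h2⟩
    · left
      obtain ⟨k, hk, hke⟩ := mem_seg.1 h1
      rw [hP1, Finset.mem_union]
      by_cases hez : e.2 = z
      · right
        rw [Finset.mem_singleton]
        have hk1 : k = n - 1 := by
          by_contra hne
          apply h2
          rw [mem_seg]
          refine ⟨k + 1, by omega, ?_⟩
          rw [axis_succ hd, hke, tip, hez]
        ext1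
        · rw [← hke, hk1]
        · exact hez
      · left
        rw [Finset.mem_image]
        refine ⟨(k, e.2), ?_, ?_⟩
        · simp [hk, hez]
        · ext1
          · exact hke
          · rfl
    · right
      obtain ⟨k, hk, hke⟩ := mem_seg.1 h2
      rw [hP2, Finset.mem_union]
      have he1 : e.1 = axis d k - Pi.single e.2 1 := by rw [hke, tip]; simp
      by_cases hez : e.2 = z
      · right
        rw [Finset.mem_singleton]
        have hk1 : k = 0 := by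
          by_contra hne
          apply h1
          rw [mem_seg]
          refine ⟨k - 1, by omega, ?_⟩
          have h3 := axis_succ hd (k - 1)
          rw [Nat.sub_add_cancel (by omega)] at h3
          rw [he1, h3, hez]
          simp [hz]
        ext1
        · rw [he1, hk1, hez]
        · exact hez
      · left
        rw [Finset.mem_image]
        refine ⟨(k, e.2), ?_, ?_⟩
        · simp [hk, hez]
        · ext1
          · exact he1.symm
          · rfl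
  calc (bd (seg d n)).card ≤ (P1 ∪ P2).card := Finset.card_le_card hsub
    _ ≤ P1.card + P2.card := Finset.card_union_le _ _
    _ ≤ ((d - 1) * n + 1) + ((d - 1) * n + 1) := Nat.add_le_add (hc _ _) (hc _ _)
    _ = 2 * (d - 1) * n + 2 := by ring

lemma card_bd_singleton (hd : 1 ≤ d) (x : Fin d → ℤ) :
    (bd ({x} : Finset (Fin d → ℤ))).card ≤ 2 * d := by
  classical
  refine (Finset.card_le_card (bd_subset_touch _)).trans ?_
  unfold touch
  refine (Finset.card_union_le _ _).trans ?_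
  have h1 : (({x} : Finset (Fin d → ℤ)) ×ˢ (Finset.univ : Finset (Fin d))).card = d := by
    simp
  have h2 := Finset.card_image_le (s := ({x} : Finset (Fin d → ℤ)) ×ˢ (Finset.univ : Finset (Fin d)))
    (f := (fun e : Edge d => (e.1 - Pi.single e.2 1, e.2)))
  omega

lemma link_mem (hd : 1 ≤ d) (n : ℕ) (hn : 1 ≤ n) :
    ((axis d (n - 1), ⟨0, hd⟩) : Edge d) ∈ bd (seg d n) ∩ bd {axis d n} := by
  classical
  have htip : tip ((axis d (n - 1), ⟨0, hd⟩) : Edge d) = axis d n := by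
    have := axis_succ hd (n - 1)
    rw [Nat.sub_add_cancel hn] at this
    rw [this, tip]
  have hns : axis d n ∉ seg d n := by
    rw [mem_seg]
    rintro ⟨k, hk, h⟩
    have := congrFun h ⟨0, hd⟩
    rw [axis_zero_apply, axis_zero_apply] at this
    omega
  rw [Finset.mem_inter, mem_bd, mem_bd, htip]
  refine ⟨Or.inl ⟨?_, hns⟩, Or.inr ⟨?_, Finset.mem_singleton_self _⟩⟩
  · rw [mem_seg]; exact ⟨n - 1, by omega, rfl⟩
  · rw [Finset.mem_singleton]
    intro h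
    have := congrFun h ⟨0, hd⟩
    simp only [axis_zero_apply] at this
    omega

lemma conn_seg (hd : 1 ≤ d) (n : ℕ) (hn : 1 ≤ n) {w : Edge d → ℕ}
    (hw : ∀ e ∈ inn (seg d n), w e = 0) : Conn (seg d n) (axis d 0) w := by
  refine ⟨mem_seg.2 ⟨0, by omega, rfl⟩, ?_⟩
  intro v hv
  obtain ⟨k, hk, rfl⟩ := mem_seg.1 hv
  clear hv
  induction k with
  | zero => exact RIn.refl 0 _ (Finset.mem_coe.2 (mem_seg.2 ⟨0, hk, rfl⟩))
  | succ k ih =>
    have h1 := ih (by omega)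
    have hj : Joins ((axis d k, ⟨0, hd⟩) : Edge d) (axis d k) (axis d (k + 1)) := by
      left
      refine ⟨rfl, ?_⟩
      rw [axis_succ hd, tip]
    have h2 := RIn.step _ h1 hj (Finset.mem_coe.2 (mem_seg.2 ⟨k + 1, hk, rfl⟩))
    have h3 : w (axis d k, ⟨0, hd⟩) = 0 := by
      apply hw
      rw [mem_inn]
      refine ⟨mem_seg.2 ⟨k, by omega, rfl⟩, ?_⟩
      show tip _ ∈ _
      rw [tip]
      simp only
      rw [← axis_succ hd]
      exact mem_seg.2 ⟨k + 1, hk, rfl⟩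
    rwa [h3] at h2

end Pool.Agent.H588R3.FPP
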