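import Pool.Agent.H588R3.Path

set_option autoImplicit false

open MeasureTheory ProbabilityTheory Filter Topology
open scoped NNReal ENNReal

namespace Pool.Agent.H588R3.FPP

/-- a discrete measure with tails `s j` beyond `v j` -/
noncomputable def rare (s : ℕ → ℝ) (v : ℕ → ℝ≥0) : Measure ℝ≥0 :=
  Measure.sum (fun j => ENNReal.ofReal (s j - s (j + 1)) • Measure.dirac (v j))

lemma tsum_tel {s : ℕ → ℝ} (hs : Antitone s) (h0 : Tendsto s atTop (𝓝 0)) (k : ℕ) :
    ∑' j, ENNReal.ofReal (s (j + k) - s (j + k + 1)) = ENNReal.ofReal (s k) := by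
  have hnn : ∀ j, 0 ≤ s (j + k) - s (j + k + 1) := fun j => sub_nonneg.2 (hs (Nat.le_succ _))
  have hsum : HasSum (fun j => s (j + k) - s (j + k + 1)) (s k) := by
    rw [hasSum_iff_tendsto_nat_of_nonneg hnn]
    have e : ∀ n, ∑ i ∈ Finset.range n, (s (i + k) - s (i + k + 1)) = s k - s (n + k) := by
      intro n
      have := Finset.sum_range_sub' (fun i => s (i + k)) n
      simp only [zero_add] at this
      rw [← this]
      apply Finset.sum_congr rfl
      intro i _
      rw [add_right_comm]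
    simp only [e]
    have h1 : Tendsto (fun n => s (n + k)) atTop (𝓝 0) :=
      h0.comp (tendsto_add_atTop_nat k)
    simpa using (tendsto_const_nhds (x := s k)).sub h1
  rw [← ENNReal.ofReal_tsum_of_nonneg hnn hsum.summable, hsum.tsum_eq]

lemma rare_apply (s : ℕ → ℝ) (v : ℕ → ℝ≥0) {X : Set ℝ≥0} (hX : MeasurableSet X) :
    rare s v X = ∑' j, ENNReal.ofReal (s j - s (j + 1)) * X.indicator 1 (v j) := by
  rw [rare, Measure.sum_apply _ hX]
  simp only [Measure.smul_apply, Measure.dirac_apply' _ hX, smul_eq_mul]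

lemma rare_Ici {s : ℕ → ℝ} (hs : Antitone s) (h0 : Tendsto s atTop (𝓝 0)) {v : ℕ → ℝ≥0}
    (hv : StrictMono v) (k : ℕ) : rare s v (Set.Ici (v k)) = ENNReal.ofReal (s k) := by
  rw [rare_apply s v measurableSet_Ici]
  rw [← (ENNReal.summable (f := fun j => ENNReal.ofReal (s (j + k) - s (j + k + 1)) *
    (Set.Ici (v k)).indicator 1 (v (j + k)))).sum_add_tsum_nat_add'
      (f := fun j => ENNReal.ofReal (s j - s (j + 1)) * (Set.Ici (v k)).indicator 1 (v j))]
  have h1 : ∑ i ∈ Finset.range k, ENNReal.ofReal (s i - s (i + 1)) *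
      (Set.Ici (v k)).indicator (1 : ℝ≥0 → ℝ≥0∞) (v i) = 0 := by
    apply Finset.sum_eq_zero
    intro i hi
    have hik : v i < v k := hv (Finset.mem_range.1 hi)
    have : v i ∉ Set.Ici (v k) := by simpa using hik
    rw [Set.indicator_of_notMem this, mul_zero]
  rw [h1, zero_add, ← tsum_tel hs h0 k]
  apply tsum_congr
  intro j
  have : v (j + k) ∈ Set.Ici (v k) := hv.monotone (Nat.le_add_left _ _)
  rw [Set.indicator_of_mem this]
  simp

lemma rare_univ {s : ℕ → ℝ} (hs : Antitone s) (h0 : Tendsto s atTop (𝓝 0)) (v : ℕ → ℝ≥0) :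
    rare s v Set.univ = ENNReal.ofReal (s 0) := by
  rw [rare_apply s v MeasurableSet.univ, ← tsum_tel hs h0 0]
  simp

lemma rare_null (s : ℕ → ℝ) (v : ℕ → ℝ≥0) {X : Set ℝ≥0} (hX : MeasurableSet X)
    (h : ∀ j, v j ∉ X) : rare s v X = 0 := by
  rw [rare_apply s v hX]
  simp [h]

lemma rare_moment {s : ℕ → ℝ} (hs : Antitone s) (hs0 : ∀ j, 0 ≤ s j)
    {v : ℕ → ℝ≥0} (hb : ∀ j, s j ≤ (1 / 2) ^ j * Real.exp (-((j / 2 : ℕ) : ℝ) * v j)) (a : ℝ) :
    ∫⁻ x, ENNReal.ofReal (Real.exp (a * x)) ∂(rare s v) < ∞ := by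
  have hm : Measurable (fun x : ℝ≥0 => ENNReal.ofReal (Real.exp (a * x))) := by fun_prop
  rw [rare, lintegral_sum_measure]
  simp only [lintegral_smul_measure, lintegral_dirac' _ hm, smul_eq_mul]
  have hnn : ∀ j, 0 ≤ s j - s (j + 1) := fun j => sub_nonneg.2 (hs (Nat.le_succ _))
  have e : ∀ j, ENNReal.ofReal (s j - s (j + 1)) * ENNReal.ofReal (Real.exp (a * v j)) =
      ENNReal.ofReal ((s j - s (j + 1)) * Real.exp (a * v j)) := by
    intro j
    rw [ENNReal.ofReal_mul (hnn j)]
  simp only [e]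
  have hsum : Summable (fun j => (s j - s (j + 1)) * Real.exp (a * v j)) := by
    obtain ⟨K, hK⟩ := exists_nat_ge a
    apply Summable.of_norm_bounded_eventually_nat (g := fun j => (1 / 2 : ℝ) ^ j)
    · exact summable_geometric_of_lt_one (by norm_num) (by norm_num)
    · filter_upwards [eventually_ge_atTop (2 * K)] with j hj
      rw [Real.norm_of_nonneg (mul_nonneg (hnn j) (Real.exp_pos _).le)]
      have h1 : s j - s (j + 1) ≤ s j := by linarith [hs0 (j + 1)]
      have h2 : (K : ℝ) ≤ ((j / 2 : ℕ) : ℝ) := by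
        exact_mod_cast (by omega : K ≤ j / 2)
      calc (s j - s (j + 1)) * Real.exp (a * v j) ≤ s j * Real.exp (a * v j) :=
            mul_le_mul_of_nonneg_right h1 (Real.exp_pos _).le
        _ ≤ ((1 / 2) ^ j * Real.exp (-((j / 2 : ℕ) : ℝ) * v j)) * Real.exp (a * v j) :=
            mul_le_mul_of_nonneg_right (hb j) (Real.exp_pos _).le
        _ = (1 / 2) ^ j * Real.exp ((a - ((j / 2 : ℕ) : ℝ)) * v j) := by
            rw [mul_assoc, ← Real.exp_add]; congr 2; ring
        _ ≤ (1 / 2) ^ j * 1 := by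
            apply mul_le_mul_of_nonneg_left _ (by positivity)
            rw [Real.exp_le_one_iff]
            apply mul_nonpos_of_nonpos_of_nonneg
            · linarith
            · exact (v j).coe_nonneg
        _ = (1 / 2) ^ j := mul_one _
  rw [← ENNReal.ofReal_tsum_of_nonneg (fun j => mul_nonneg (hnn j) (Real.exp_pos _).le) hsum]
  exact ENNReal.ofReal_lt_top

end Pool.Agent.H588R3.FPP
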