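import Pool.Agent.H588R3.Prob4

set_option autoImplicit false

open MeasureTheory ProbabilityTheory
open scoped NNReal ENNReal

namespace Pool.Agent.H588R3.FPP

variable {d : ℕ}

lemma IsPath.append : ∀ {es es' : List (Edge d)} {u v x : Fin d → ℤ},
    IsPath es u v → IsPath es' v x → IsPath (es ++ es') u x := by
  intro es
  induction es with
  | nil =>
    intro es' u v x h h'
    have : u = v := h
    rw [this]; exact h'
  | cons e es ih =>
    rintro es' u v x ⟨z, hz, hzv⟩ h'
    exact ⟨z, hz, ih hzv h'⟩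

lemma exists_path_axis (hd : 1 ≤ d) (n : ℕ) :
    ∃ es : List (Edge d), IsPath es (axis d 0) (axis d n) := by
  induction n with
  | zero => exact ⟨[], rfl⟩
  | succ n ih =>
    obtain ⟨es, hes⟩ := ih
    refine ⟨es ++ [(axis d n, ⟨0, hd⟩)], hes.append ⟨axis d (n + 1), Or.inl ⟨rfl, ?_⟩, rfl⟩⟩
    rw [axis_succ hd, tip]

lemma Joins.ne {e : Edge d} {x y : Fin d → ℤ} (h : Joins e x y) : x ≠ y := by
  have : e.1 ≠ tip e := by
    intro h'
    have h1 := congrFun h' e.2
    rw [tip_apply] at h1
    simp at h1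
  rcases h with ⟨h1, h2⟩ | ⟨h1, h2⟩ <;> subst h1 <;> subst h2
  · exact this
  · exact this.symm

/-- the graph of open edges inside `S` -/
def openG (S : Finset (Fin d → ℤ)) (w : Edge d → ℕ) : SimpleGraph (Fin d → ℤ) where
  Adj a b := a ∈ S ∧ b ∈ S ∧ ∃ e, Joins e a b ∧ w e = 0
  symm := ⟨fun _ _ ⟨h1, h2, e, h3, h4⟩ => ⟨h2, h1, e, h3.symm, h4⟩⟩
  loopless := ⟨fun _ ⟨_, _, _, h3, _⟩ => h3.ne rfl⟩

lemma reachable_of_RIn {S : Finset (Fin d → ℤ)} {w : Edge d → ℕ} {c : ℕ} {x y : Fin d → ℤ}
    (h : RIn (S : Set (Fin d → ℤ)) w c x y) (hc : c = 0) : (openG S w).Reachable x y := by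
  induction h with
  | refl c x hx => exact SimpleGraph.Reachable.refl _
  | @step c x y z e h hj hz ih =>
    have h1 := ih (by omega)
    refine h1.trans (SimpleGraph.Adj.reachable ?_)
    exact ⟨h.mem_right, hz, e, hj, by omega⟩

lemma supp_sub {S : Finset (Fin d → ℤ)} {w : Edge d → ℕ} {u v : Fin d → ℤ}
    (p : (openG S w).Walk u v) (hu : u ∈ S) : ∀ a ∈ p.support, a ∈ S := by
  induction p with
  | nil => intro a ha; simp at ha; rw [ha]; exact hu
  | cons h p ih =>
    intro a ha
    rw [SimpleGraph.Walk.support_cons, List.mem_cons] at ha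
    rcases ha with rfl | ha
    · exact hu
    · exact ih h.2.1 a ha

lemma list_of_walk {S : Finset (Fin d → ℤ)} {w : Edge d → ℕ} {u v : Fin d → ℤ}
    (p : (openG S w).Walk u v) :
    ∃ es : List (Edge d), IsPath es u v ∧ es.length = p.length ∧ ∀ e ∈ es, w e = 0 := by
  induction p with
  | nil => exact ⟨[], rfl, rfl, by simp⟩
  | cons h p ih =>
    obtain ⟨es, h1, h2, h3⟩ := ih
    obtain ⟨_, _, e, he, hw⟩ := h
    refine ⟨e :: es, ⟨_, he, h1⟩, by simp [h2], ?_⟩
    intro e' he'
    rw [List.mem_cons] at he'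
    rcases he' with rfl | he'
    · exact hw
    · exact h3 e' he'

lemma open_path {S : Finset (Fin d → ℤ)} {w : Edge d → ℕ} {u v : Fin d → ℤ}
    (h : RIn (S : Set (Fin d → ℤ)) w 0 u v) :
    ∃ es : List (Edge d), IsPath es u v ∧ es.length ≤ S.card ∧ ∀ e ∈ es, w e = 0 := by
  classical
  obtain ⟨p⟩ := reachable_of_RIn h rfl
  have hp := p.bypass_isPath
  obtain ⟨es, h1, h2, h3⟩ := list_of_walk p.bypass
  refine ⟨es, h1, ?_, h3⟩
  have h4 : p.bypass.support.toFinset.card = p.bypass.support.length :=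
    List.toFinset_card_of_nodup hp.support_nodup
  have h5 : p.bypass.support.toFinset ⊆ S := by
    intro a ha
    rw [List.mem_toFinset] at ha
    exact supp_sub p.bypass h.mem_left a ha
  have h6 := Finset.card_le_card h5
  rw [h4, SimpleGraph.Walk.length_support] at h6
  omega

lemma budget {S : Set (Fin d → ℤ)} {w : Edge d → ℕ} {c : ℕ} {u v : Fin d → ℤ}
    (h : RIn S w c u v) (hc : c ≤ 1) :
    RIn S w 0 u v ∨ ∃ a b e, RIn S w 0 u a ∧ Joins e a b ∧ w e ≤ 1 ∧ RIn S w 0 b v := by
  induction h with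
  | refl c x hx => exact Or.inl (RIn.refl 0 x hx)
  | @step c x y z e h hj hz ih =>
    by_cases hw : w e = 0
    · rcases ih (by omega) with h1 | ⟨a, b, e', h1, h2, h3, h4⟩
      · left
        have := RIn.step e h1 hj hz
        rwa [hw] at this
      · right
        refine ⟨a, b, e', h1, h2, h3, ?_⟩
        have := RIn.step e h4 hj hz
        rwa [hw] at this
    · right
      have hc0 : c = 0 := by omega
      rw [hc0] at h
      exact ⟨y, z, e, h, hj, by omega, RIn.refl 0 z hz⟩

/-- the level of a weight -/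
noncomputable def lev (V : ℝ≥0) (x : ℝ≥0) : Fin 3 :=
  if x < V then 0 else if x < 2 * V then 1 else 2

lemma lev_zero {V x : ℝ≥0} (h : (lev V x : ℕ) = 0) : x < V := by
  by_contra h'
  unfold lev at h
  rw [if_neg h'] at h
  split_ifs at h <;> simp at h

lemma lev_le_one {V x : ℝ≥0} (h : (lev V x : ℕ) ≤ 1) (hV : 0 < V) : x < 2 * V := by
  by_contra h'
  have h2 : ¬ x < V := by
    intro h3
    apply h'
    calc x < V := h3
      _ ≤ 2 * V := by rw [two_mul]; exact le_add_self
  unfold lev at h
  rw [if_neg h2, if_neg h'] at h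
  simp at h

lemma lev_mul_le (V x : ℝ≥0) : ((lev V x : ℕ) : ℝ≥0) * V ≤ x := by
  unfold lev
  split_ifs with h1 h2
  · simp
  · simpa using h1
  · have := not_lt.1 h2
    simpa using this

/-- lower bound for the passage time -/
lemma le_T {τ : Edge d → ℝ≥0} {V : ℝ≥0} {o x : Fin d → ℤ}
    (hne : ∃ es : List (Edge d), IsPath es o x)
    (h : EE o x (fun e => (lev V (τ e) : ℕ))) : 2 * V ≤ T τ o x := by
  obtain ⟨es₀, hes₀⟩ := hne
  apply le_csInf
  · exact ⟨_, es₀, hes₀, rfl⟩
  · rintro c ⟨es, hes, rfl⟩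
    have h1 := h es hes
    have h2 : ∀ l : List (Edge d), (((l.map (fun e => (lev V (τ e) : ℕ))).sum : ℕ) : ℝ≥0) * V
        ≤ (l.map τ).sum := by
      intro l
      induction l with
      | nil => simp
      | cons e l ih =>
        simp only [List.map_cons, List.sum_cons, Nat.cast_add, add_mul]
        exact add_le_add (lev_mul_le V (τ e)) ih
    refine le_trans ?_ (h2 es)
    apply mul_le_mul_left
    exact_mod_cast h1

/-- upper bound for the passage time -/
lemma T_le {τ : Edge d → ℝ≥0} {V L : ℝ≥0} (hV : 0 < V) (hLV : L ≤ V)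
    (hgood : ∀ e, τ e ≤ L ∨ τ e = V ∨ 2 * V ≤ τ e) {S : Finset (Fin d → ℤ)} {o x : Fin d → ℤ}
    (h : RIn (S : Set (Fin d → ℤ)) (fun e => (lev V (τ e) : ℕ)) 1 o x) :
    T τ o x ≤ V + 2 * S.card * L := by
  have hsum : ∀ l : List (Edge d), (∀ e ∈ l, (lev V (τ e) : ℕ) = 0) → l.length ≤ S.card →
      (l.map τ).sum ≤ S.card * L := by
    intro l hl hlen
    have h1 : (l.map τ).sum ≤ (l.length : ℝ≥0) * L := by
      clear hlen
      induction l with
      | nil => simp
      | cons e l ih =>
        simp only [List.map_cons, List.sum_cons, List.length_cons, Nat.cast_add, Nat.cast_one,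
          add_mul, one_mul]
        rw [add_comm]
        apply add_le_add
        · exact ih (fun e' he' => hl e' (List.mem_cons_of_mem _ he'))
        · have := lev_zero (hl e List.mem_cons_self)
          rcases hgood e with h2 | h2 | h2
          · exact h2
          · exact absurd this (by rw [h2]; exact lt_irrefl _)
          · exfalso
            have h3 : V ≤ 2 * V := by rw [two_mul]; exact le_add_self
            exact absurd (h3.trans h2) (not_le.2 this)
    refine h1.trans ?_
    apply mul_le_mul_left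
    exact_mod_cast hlen
  rcases budget h le_rfl with h1 | ⟨a, b, e, h1, h2, h3, h4⟩
  · obtain ⟨es, hes, hlen, hz⟩ := open_path h1
    calc T τ o x ≤ (es.map τ).sum := csInf_le' ⟨es, hes, rfl⟩
      _ ≤ S.card * L := hsum es hz hlen
      _ ≤ V + 2 * S.card * L := by
          rw [two_mul, add_mul]
          exact le_add_left le_self_add
  · obtain ⟨es, hes, hlen, hz⟩ := open_path h1
    obtain ⟨es', hes', hlen', hz'⟩ := open_path h4
    have hp : IsPath (es ++ (e :: es')) o x := hes.append ⟨b, h2, hes'⟩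
    have he : τ e ≤ V := by
      have := lev_le_one h3 hV
      rcases hgood e with h5 | h5 | h5
      · exact h5.trans hLV
      · exact h5.le
      · exact absurd h5 (not_le.2 this)
    calc T τ o x ≤ ((es ++ (e :: es')).map τ).sum := csInf_le' ⟨_, hp, rfl⟩
      _ = (es.map τ).sum + (τ e + (es'.map τ).sum) := by simp
      _ ≤ S.card * L + (V + S.card * L) :=
          add_le_add (hsum es hz hlen) (add_le_add he (hsum es' hz' hlen'))
      _ = V + 2 * S.card * L := by ring

end Pool.Agent.H588R3.FPP
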