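import Pool.Agent.H588R3.Sph

set_option autoImplicit false

open MeasureTheory ProbabilityTheory
open scoped NNReal ENNReal

namespace Pool.Agent.H588R3.FPP

/-! ### a finite alphabet product measure -/

section general

variable {ι : Type*} [DecidableEq ι]

lemma eq_preimage_of_dep {s : Finset ι} {A : Set (ι → Fin 3)}
    (hA : DependsOn (fun w => w ∈ A) (s : Set ι)) :
    A = (fun (w : ι → Fin 3) (i : s) => w i) ⁻¹' ((fun (w : ι → Fin 3) (i : s) => w i) '' A) := by
  ext w
  constructor
  · intro hw
    exact ⟨w, hw, rfl⟩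
  · rintro ⟨w', hw', he⟩
    have h : (w' ∈ A) = (w ∈ A) := hA (fun i hi => congrFun he ⟨i, hi⟩)
    rw [← h]
    exact hw'

lemma meas_of_dep {s : Finset ι} {A : Set (ι → Fin 3)}
    (hA : DependsOn (fun w => w ∈ A) (s : Set ι)) : MeasurableSet A := by
  rw [eq_preimage_of_dep hA]
  refine measurableSet_preimage (by fun_prop) ?_
  exact Set.Finite.measurableSet (Set.toFinite _)

variable (ν : Measure (Fin 3)) [IsProbabilityMeasure ν]

lemma indep_of_dep {s t : Finset ι} (hst : Disjoint s t) {A B : Set (ι → Fin 3)}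
    (hA : DependsOn (fun w => w ∈ A) (s : Set ι)) (hB : DependsOn (fun w => w ∈ B) (t : Set ι)) :
    (Measure.infinitePi (fun _ : ι => ν)).real (A ∩ B) =
      (Measure.infinitePi (fun _ : ι => ν)).real A *
      (Measure.infinitePi (fun _ : ι => ν)).real B := by
  have hI : iIndepFun (fun (i : ι) (w : ι → Fin 3) => w i) (Measure.infinitePi (fun _ : ι => ν)) :=
    iIndepFun_infinitePi (X := fun _ x => x) (fun _ => measurable_id)
  have h2 := hI.indepFun_finset s t hst (fun i => measurable_pi_apply i)
  have h3 := h2.measure_inter_preimage_eq_mul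
    ((fun (w : ι → Fin 3) (i : s) => w i) '' A) ((fun (w : ι → Fin 3) (i : t) => w i) '' B)
    (Set.Finite.measurableSet (Set.toFinite _)) (Set.Finite.measurableSet (Set.toFinite _))
  rw [← eq_preimage_of_dep hA, ← eq_preimage_of_dep hB] at h3
  rw [measureReal_def, h3, ENNReal.toReal_mul]
  rfl

lemma pi_prob (K : Finset ι) (t : Set (Fin 3)) :
    (Measure.infinitePi (fun _ : ι => ν)).real {w | ∀ e ∈ K, w e ∈ t} = (ν.real t) ^ K.card := by
  have h1 : {w : ι → Fin 3 | ∀ e ∈ K, w e ∈ t} = Set.pi (K : Set ι) (fun _ => t) := by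
    ext w; simp [Set.mem_pi]
  rw [h1, measureReal_def, Measure.infinitePi_pi _ (fun i _ => Set.Finite.measurableSet (Set.toFinite _)),
    Finset.prod_const, ENNReal.toReal_pow]
  rfl

end general

end Pool.Agent.H588R3.FPP
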