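import Pool.Agent.H588R3.Prob

set_option autoImplicit false

open MeasureTheory ProbabilityTheory
open scoped NNReal ENNReal

namespace Pool.Agent.H588R3.FPP

variable {d : ℕ}

/-- forget that the levels are in `Fin 3` -/
def lv (w : Edge d → Fin 3) : Edge d → ℕ := fun e => (w e : ℕ)

/-- `A` only depends on the coordinates in `s` -/
def Dep (s : Finset (Edge d)) (A : Set (Edge d → Fin 3)) : Prop :=
  ∀ w w' : Edge d → Fin 3, (∀ e ∈ s, w e = w' e) → w ∈ A → w' ∈ A

lemma Dep.dependsOn {s : Finset (Edge d)} {A : Set (Edge d → Fin 3)} (h : Dep s A) :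
    DependsOn (fun w => w ∈ A) (s : Set (Edge d)) := by
  intro w w' hw
  exact propext ⟨h w w' hw, h w' w (fun e he => (hw e he).symm)⟩

lemma Dep.mono {s t : Finset (Edge d)} {A : Set (Edge d → Fin 3)} (h : Dep s A) (hst : s ⊆ t) :
    Dep t A := fun w w' hw => h w w' (fun e he => hw e (hst he))

lemma Dep.inter {s : Finset (Edge d)} {A B : Set (Edge d → Fin 3)} (hA : Dep s A)
    (hB : Dep s B) : Dep s (A ∩ B) := fun w w' hw h => ⟨hA w w' hw h.1, hB w w' hw h.2⟩

lemma Dep.compl {s : Finset (Edge d)} {A : Set (Edge d → Fin 3)} (hA : Dep s A) :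
    Dep s Aᶜ := fun w w' hw h h' => h (hA w' w (fun e he => (hw e he).symm) h')

lemma Dep.meas {s : Finset (Edge d)} {A : Set (Edge d → Fin 3)} (hA : Dep s A) :
    MeasurableSet A := by
  classical
  exact meas_of_dep hA.dependsOn

def evC (K : Finset (Edge d)) : Set (Edge d → Fin 3) := {w | Closed K (lv w)}
def evD (K : Finset (Edge d)) : Set (Edge d → Fin 3) := {w | Dbl K (lv w)}
def evO (K : Finset (Edge d)) : Set (Edge d → Fin 3) := {w | ∀ e ∈ K, lv w e = 0}
def evConn (A : Finset (Fin d → ℤ)) (o : Fin d → ℤ) : Set (Edge d → Fin 3) :=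
  {w | Conn A o (lv w)}
def evCl (A : Finset (Fin d → ℤ)) (o : Fin d → ℤ) : Set (Edge d → Fin 3) :=
  {w | Cl A o (lv w)}
def evU (Λ : Finset (Fin d → ℤ)) (o : Fin d → ℤ) : Set (Edge d → Fin 3) :=
  {w | UU Λ o (lv w)}
def evW (hd : 1 ≤ d) (Λ : Finset (Fin d → ℤ)) (o : Fin d → ℤ) : Set (Edge d → Fin 3) :=
  {w | WW hd Λ o (lv w)}

lemma closed_congr {K : Finset (Edge d)} {w w' : Edge d → ℕ} (h : ∀ e ∈ K, w e = w' e)
    (hc : Closed K w) : Closed K w' := fun e he => by rw [← h e he]; exact hc e he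

lemma dbl_congr {K : Finset (Edge d)} {w w' : Edge d → ℕ} (h : ∀ e ∈ K, w e = w' e)
    (hc : Dbl K w) : Dbl K w' := fun e he => by rw [← h e he]; exact hc e he

lemma conn_congr {A : Finset (Fin d → ℤ)} {o : Fin d → ℤ} {w w' : Edge d → ℕ}
    (h : ∀ e ∈ inn A, w e = w' e) (hc : Conn A o w) : Conn A o w' := by
  refine ⟨hc.1, fun v hv => (hc.2 v hv).congr ?_⟩
  intro e h1 h2
  exact h e (mem_inn.2 ⟨h1, h2⟩)

lemma inn_subset_touch (A : Finset (Fin d → ℤ)) : inn A ⊆ touch A := Finset.filter_subset _ _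

lemma touch_mono {A B : Finset (Fin d → ℤ)} (h : A ⊆ B) : touch A ⊆ touch B := by
  intro e he
  rw [mem_touch] at he ⊢
  rcases he with h1 | h1
  · exact Or.inl (h h1)
  · exact Or.inr (h h1)

lemma dep_evC (K : Finset (Edge d)) : Dep K (evC K) := by
  intro w w' hw h
  exact closed_congr (fun e he => by simp [lv, hw e he]) h

lemma dep_evD (K : Finset (Edge d)) : Dep K (evD K) := by
  intro w w' hw h
  exact dbl_congr (fun e he => by simp [lv, hw e he]) h

lemma dep_evO (K : Finset (Edge d)) : Dep K (evO K) := by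
  intro w w' hw h e he
  have := h e he
  simp only [lv] at this ⊢
  rw [← hw e he]; exact this

lemma dep_evConn (A : Finset (Fin d → ℤ)) (o : Fin d → ℤ) : Dep (inn A) (evConn A o) := by
  intro w w' hw h
  exact conn_congr (fun e he => by simp [lv, hw e he]) h

lemma dep_evCl (A : Finset (Fin d → ℤ)) (o : Fin d → ℤ) : Dep (touch A) (evCl A o) := by
  intro w w' hw h
  refine ⟨conn_congr (fun e he => ?_) h.1, closed_congr (fun e he => ?_) h.2⟩
  · simp [lv, hw e (inn_subset_touch A he)]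
  · simp [lv, hw e (bd_subset_touch A he)]

lemma dep_evU (Λ : Finset (Fin d → ℤ)) (o : Fin d → ℤ) : Dep (touch Λ) (evU Λ o) := by
  rintro w w' hw ⟨A, hA, hcl⟩
  exact ⟨A, hA, dep_evCl A o w w' (fun e he => hw e (touch_mono hA he)) hcl⟩

lemma dep_evW (hd : 1 ≤ d) (Λ : Finset (Fin d → ℤ)) (o : Fin d → ℤ) :
    Dep (touch Λ) (evW hd Λ o) := by
  rintro w w' hw ⟨B₁, B₂, h12, h2L, hx, hP1, hP2, hc1, hc2, hD⟩
  have hb1 : bd B₁ ⊆ touch Λ := (bd_subset_touch _).trans (touch_mono (h12.trans h2L))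
  have hb2 : bd B₂ ⊆ touch Λ := (bd_subset_touch _).trans (touch_mono h2L)
  refine ⟨B₁, B₂, h12, h2L, hx, hP1, hP2, closed_congr (fun e he => ?_) hc1,
    closed_congr (fun e he => ?_) hc2, dbl_congr (fun e he => ?_) hD⟩
  · simp [lv, hw e (hb1 he)]
  · simp [lv, hw e (hb2 he)]
  · simp [lv, hw e (hb1 (Finset.mem_inter.1 he).1)]

/-! ### probabilities -/

/-- The hypotheses on the one-edge law at one level. -/
structure Lev (ν : Measure (Fin 3)) (q : ℝ) : Prop where
  prob : IsProbabilityMeasure ν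
  pos : 0 < q
  le_one : q ≤ 1
  h1 : ν.real {i | 1 ≤ (i : ℕ)} = q
  h2 : ν.real {i | 2 ≤ (i : ℕ)} = 2 * q ^ 2

/-- the law of the levels -/
noncomputable abbrev QQ (d : ℕ) (ν : Measure (Fin 3)) : Measure (Edge d → Fin 3) :=
  Measure.infinitePi (fun _ : Edge d => ν)

variable {ν : Measure (Fin 3)} {q : ℝ}

lemma Lev.h0 (h : Lev ν q) : ν.real {i | (i : ℕ) = 0} = 1 - q := by
  haveI := h.prob
  have e : {i : Fin 3 | (i : ℕ) = 0} = {i : Fin 3 | 1 ≤ (i : ℕ)}ᶜ := by
    ext i; simp only [Set.mem_setOf_eq, Set.mem_compl_iff]; omega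
  rw [e, probReal_compl_eq_one_sub (Set.Finite.measurableSet (Set.toFinite _)), h.h1]

lemma prob_evC (h : Lev ν q) (K : Finset (Edge d)) : (QQ d ν).real (evC K) = q ^ K.card := by
  classical
  haveI := h.prob
  have := pi_prob (ι := Edge d) ν K {i | 1 ≤ (i : ℕ)}
  rw [h.h1] at this
  exact this

lemma prob_evD (h : Lev ν q) (K : Finset (Edge d)) :
    (QQ d ν).real (evD K) = (2 * q ^ 2) ^ K.card := by
  classical
  haveI := h.prob
  have := pi_prob (ι := Edge d) ν K {i | 2 ≤ (i : ℕ)}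
  rw [h.h2] at this
  exact this

lemma prob_evO (h : Lev ν q) (K : Finset (Edge d)) :
    (QQ d ν).real (evO K) = (1 - q) ^ K.card := by
  classical
  haveI := h.prob
  have := pi_prob (ι := Edge d) ν K {i | (i : ℕ) = 0}
  rw [h.h0] at this
  exact this

lemma prob_indep (h : Lev ν q) {s t : Finset (Edge d)} (hst : Disjoint s t)
    {A B : Set (Edge d → Fin 3)} (hA : Dep s A) (hB : Dep t B) :
    (QQ d ν).real (A ∩ B) = (QQ d ν).real A * (QQ d ν).real B := by
  classical
  haveI := h.prob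
  exact indep_of_dep ν hst hA.dependsOn hB.dependsOn

/-- probability of a pattern -/
lemma prob_pattern (h : Lev ν q) {S₁ S₂ : Finset (Edge d)} (hS : S₂ ⊆ S₁) :
    (QQ d ν).real (evC S₁ ∩ evD S₂) = 2 ^ S₂.card * q ^ (S₁.card + S₂.card) := by
  classical
  have e : evC S₁ ∩ evD S₂ = evC (S₁ \ S₂) ∩ evD S₂ := by
    ext w
    constructor
    · rintro ⟨h1, h2⟩
      exact ⟨fun e he => h1 e (Finset.mem_sdiff.1 he).1, h2⟩
    · rintro ⟨h1, h2⟩
      refine ⟨fun e he => ?_, h2⟩
      by_cases h3 : e ∈ S₂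
      · have := h2 e h3; omega
      · exact h1 e (Finset.mem_sdiff.2 ⟨he, h3⟩)
  rw [e, prob_indep h Finset.sdiff_disjoint (dep_evC _) (dep_evD _), prob_evC h, prob_evD h]
  have hc : S₁.card = (S₁ \ S₂).card + S₂.card := by
    rw [Finset.card_sdiff_of_subset hS]
    have := Finset.card_le_card hS
    omega
  rw [hc, mul_pow, ← pow_mul]
  ring

lemma disj_inn_bd (A : Finset (Fin d → ℤ)) : Disjoint (inn A) (bd A) := by
  rw [Finset.disjoint_left]
  intro e h1 h2
  rw [mem_inn] at h1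
  rw [mem_bd] at h2
  tauto

lemma disj_inn_bd' {A B : Finset (Fin d → ℤ)} (hAB : Disjoint A B) :
    Disjoint (inn A) (bd B) := by
  rw [Finset.disjoint_left]
  intro e h1 h2
  rw [mem_inn] at h1
  rw [mem_bd] at h2
  have h3 := Finset.disjoint_left.mp hAB h1.1
  have h4 := Finset.disjoint_left.mp hAB h1.2
  tauto

lemma disj_inn_inn {A B : Finset (Fin d → ℤ)} (hAB : Disjoint A B) :
    Disjoint (inn A) (inn B) := by
  rw [Finset.disjoint_left]
  intro e h1 h2
  rw [mem_inn] at h1 h2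
  exact Finset.disjoint_left.mp hAB h1.1 h2.1

lemma prob_evCl (h : Lev ν q) (A : Finset (Fin d → ℤ)) (o : Fin d → ℤ) :
    (QQ d ν).real (evCl A o) = (QQ d ν).real (evConn A o) * q ^ (bd A).card := by
  have e : evCl A o = evConn A o ∩ evC (bd A) := rfl
  rw [e, prob_indep h (disj_inn_bd A) (dep_evConn A o) (dep_evC _), prob_evC h]

lemma prob_evCl_le (h : Lev ν q) (A : Finset (Fin d → ℤ)) (o : Fin d → ℤ) :
    (QQ d ν).real (evCl A o) ≤ q ^ (bd A).card := by
  haveI := h.prob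
  rw [prob_evCl h]
  have h1 : (QQ d ν).real (evConn A o) ≤ 1 := measureReal_le_one
  have h2 : 0 ≤ q ^ (bd A).card := pow_nonneg h.pos.le _
  nlinarith

/-- two disjoint clusters with only double edges in between -/
def evG (A B : Finset (Fin d → ℤ)) (o x : Fin d → ℤ) : Set (Edge d → Fin 3) :=
  {w | Cl A o (lv w) ∧ Cl B x (lv w) ∧ Dbl (bd A ∩ bd B) (lv w)}

lemma dep_evG (A B : Finset (Fin d → ℤ)) (o x : Fin d → ℤ) :
    Dep (touch A ∪ touch B) (evG A B o x) := by
  classical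
  rintro w w' hw ⟨h1, h2, h3⟩
  refine ⟨dep_evCl A o w w' (fun e he => hw e (Finset.mem_union_left _ he)) h1,
    dep_evCl B x w w' (fun e he => hw e (Finset.mem_union_right _ he)) h2,
    dbl_congr (fun e he => ?_) h3⟩
  have := hw e (Finset.mem_union_left _ (bd_subset_touch A (Finset.mem_inter.1 he).1))
  simp [lv, this]

lemma prob_evG (h : Lev ν q) {A B : Finset (Fin d → ℤ)} (hAB : Disjoint A B)
    (o x : Fin d → ℤ) :
    (QQ d ν).real (evG A B o x) =
      2 ^ (bd A ∩ bd B).card * ((QQ d ν).real (evCl A o) * (QQ d ν).real (evCl B x)) := by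
  classical
  have e : evG A B o x =
      evConn A o ∩ (evConn B x ∩ (evC (bd A ∪ bd B) ∩ evD (bd A ∩ bd B))) := by
    ext w
    constructor
    · rintro ⟨h1, h2, h3⟩
      refine ⟨h1.1, h2.1, ?_, h3⟩
      intro e he
      rcases Finset.mem_union.1 he with he | he
      · exact h1.2 e he
      · exact h2.2 e he
    · rintro ⟨h1, h2, h3, h4⟩
      exact ⟨⟨h1, fun e he => h3 e (Finset.mem_union_left _ he)⟩,
        ⟨h2, fun e he => h3 e (Finset.mem_union_right _ he)⟩, h4⟩
  have hsub : bd A ∩ bd B ⊆ bd A ∪ bd B :=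
    Finset.inter_subset_left.trans Finset.subset_union_left
  have dP : Dep (bd A ∪ bd B) (evC (bd A ∪ bd B) ∩ evD (bd A ∩ bd B)) :=
    (dep_evC _).inter ((dep_evD _).mono hsub)
  have d2 : Disjoint (inn B) (bd A ∪ bd B) := by
    rw [Finset.disjoint_union_right]
    exact ⟨disj_inn_bd' hAB.symm, disj_inn_bd B⟩
  have dP2 : Dep (inn B ∪ (bd A ∪ bd B))
      (evConn B x ∩ (evC (bd A ∪ bd B) ∩ evD (bd A ∩ bd B))) :=
    ((dep_evConn B x).mono Finset.subset_union_left).inter (dP.mono Finset.subset_union_right)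
  have d1 : Disjoint (inn A) (inn B ∪ (bd A ∪ bd B)) := by
    rw [Finset.disjoint_union_right, Finset.disjoint_union_right]
    exact ⟨disj_inn_inn hAB, disj_inn_bd A, disj_inn_bd' hAB⟩
  rw [e, prob_indep h d1 (dep_evConn A o) dP2, prob_indep h d2 (dep_evConn B x) dP,
    prob_pattern h hsub, prob_evCl h, prob_evCl h, Finset.card_union_add_card_inter, pow_add]
  ring

end Pool.Agent.H588R3.FPP
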