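import Pool.Agent.H588R3.Prob2

set_option autoImplicit false

open MeasureTheory ProbabilityTheory
open scoped NNReal ENNReal

namespace Pool.Agent.H588R3.FPP

variable {d : ℕ} {ν : Measure (Fin 3)} {q : ℝ}

/-- the exponent of the error terms -/
def kap (d n : ℕ) : ℕ := 2 * (d - 1) * (n + 1) + 2 + 2 * d

lemma evU_eq (Λ : Finset (Fin d → ℤ)) (o : Fin d → ℤ) :
    evU Λ o = ⋃ A ∈ Λ.powerset, evCl A o := by
  ext w
  simp only [evU, UU, Set.mem_setOf_eq, Set.mem_iUnion, Finset.mem_powerset, evCl, exists_prop]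

lemma evCl_disj {A A' : Finset (Fin d → ℤ)} {o : Fin d → ℤ} (h : A ≠ A') :
    Disjoint (evCl A o) (evCl A' o) := by
  rw [Set.disjoint_left]
  intro w h1 h2
  exact h (Cl.unique h1 h2)

lemma prob_evU (h : Lev ν q) (Λ : Finset (Fin d → ℤ)) (o : Fin d → ℤ) :
    (QQ d ν).real (evU Λ o) = ∑ A ∈ Λ.powerset, (QQ d ν).real (evCl A o) := by
  haveI := h.prob
  rw [evU_eq, measureReal_biUnion_finset]
  · intro A _ A' _ hne
    exact evCl_disj hne
  · intro A _
    exact (dep_evCl A o).meas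

/-- disjoint clusters with double edges in between -/
def evF (Λ : Finset (Fin d → ℤ)) (o x : Fin d → ℤ) : Set (Edge d → Fin 3) :=
  ⋃ p ∈ (Λ.powerset ×ˢ Λ.powerset).filter
    (fun p : Finset (Fin d → ℤ) × Finset (Fin d → ℤ) => Disjoint p.1 p.2), evG p.1 p.2 o x

lemma prob_evF (h : Lev ν q) (Λ : Finset (Fin d → ℤ)) (o x : Fin d → ℤ) :
    (QQ d ν).real (evF Λ o x) =
      ∑ p ∈ (Λ.powerset ×ˢ Λ.powerset).filter
        (fun p : Finset (Fin d → ℤ) × Finset (Fin d → ℤ) => Disjoint p.1 p.2),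
        (QQ d ν).real (evG p.1 p.2 o x) := by
  haveI := h.prob
  rw [evF, measureReal_biUnion_finset]
  · intro p _ p' _ hne
    rw [Function.onFun, Set.disjoint_left]
    rintro w ⟨h1, h2, -⟩ ⟨h3, h4, -⟩
    exact hne (Prod.ext (Cl.unique h1 h3) (Cl.unique h2 h4))
  · intro p _
    exact (dep_evG _ _ o x).meas

lemma sum_aux {α : Type*} (s : Finset α) (a : α) (ha : a ∈ s) (f g : α → ℝ)
    (hfg : ∀ p ∈ s, f p ≤ g p) (hfa : f a + f a ≤ g a) :
    ∑ p ∈ s, f p + f a ≤ ∑ p ∈ s, g p := by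
  classical
  rw [← Finset.add_sum_erase s f ha, ← Finset.add_sum_erase s g ha]
  have := Finset.sum_le_sum (s := s.erase a) (f := f) (g := g)
    (fun p hp => hfg p (Finset.mem_of_mem_erase hp))
  linarith

/-- Lower bound for the probability of `evF`. -/
lemma prob_evF_ge (hd : 1 ≤ d) (h : Lev ν q) (Λ : Finset (Fin d → ℤ)) (o x : Fin d → ℤ) (n : ℕ)
    (hox : x ⟨0, hd⟩ = o ⟨0, hd⟩ + n) (A₀ B₀ : Finset (Fin d → ℤ)) (hA0 : A₀ ⊆ Λ) (hB0 : B₀ ⊆ Λ)
    (hAB0 : Disjoint A₀ B₀) (hlink : (bd A₀ ∩ bd B₀).Nonempty) :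
    (QQ d ν).real (evU Λ o) * (QQ d ν).real (evU Λ x)
      + (QQ d ν).real (evCl A₀ o) * (QQ d ν).real (evCl B₀ x)
      - ((Λ.powerset ×ˢ Λ.powerset).card : ℝ) * q ^ kap d n ≤ (QQ d ν).real (evF Λ o x) := by
  classical
  haveI := h.prob
  set P := (Λ.powerset ×ˢ Λ.powerset) with hP
  set f : Finset (Fin d → ℤ) × Finset (Fin d → ℤ) → ℝ :=
    fun p => (QQ d ν).real (evCl p.1 o) * (QQ d ν).real (evCl p.2 x) with hf
  have hf0 : ∀ p, 0 ≤ f p := fun p => mul_nonneg measureReal_nonneg measureReal_nonneg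
  have e1 : (QQ d ν).real (evU Λ o) * (QQ d ν).real (evU Λ x) = ∑ p ∈ P, f p := by
    rw [prob_evU h, prob_evU h, Finset.sum_mul_sum, hP, Finset.sum_product]
  have e2 : ∑ p ∈ P, f p = ∑ p ∈ P.filter (fun p => Disjoint p.1 p.2), f p
      + ∑ p ∈ P.filter (fun p => ¬ Disjoint p.1 p.2), f p :=
    (Finset.sum_filter_add_sum_filter_not P _ f).symm
  have e3 : ∑ p ∈ P.filter (fun p => ¬ Disjoint p.1 p.2), f p ≤ (P.card : ℝ) * q ^ kap d n := by
    calc ∑ p ∈ P.filter (fun p => ¬ Disjoint p.1 p.2), f p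
        ≤ ∑ p ∈ P.filter (fun p => ¬ Disjoint p.1 p.2), q ^ kap d n := by
          apply Finset.sum_le_sum
          intro p hp
          rw [Finset.mem_filter] at hp
          obtain ⟨-, hp⟩ := hp
          rw [Finset.not_disjoint_iff] at hp
          obtain ⟨c, hcA, hcB⟩ := hp
          by_cases hA : (evCl p.1 o : Set (Edge d → Fin 3)).Nonempty
          · by_cases hB : (evCl p.2 x : Set (Edge d → Fin 3)).Nonempty
            · obtain ⟨w, hw⟩ := hA
              obtain ⟨w', hw'⟩ := hB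
              have hw1 : Cl p.1 o (lv w) := hw
              have hw2 : Cl p.2 x (lv w') := hw'
              have hE := energy_meet hd (hw1.proj hd) (hw2.proj hd) hw1.1.1 hw2.1.1 hcA hcB hox
              calc f p ≤ q ^ (bd p.1).card * q ^ (bd p.2).card :=
                    mul_le_mul (prob_evCl_le h _ _) (prob_evCl_le h _ _) measureReal_nonneg
                      (pow_nonneg h.pos.le _)
                _ = q ^ ((bd p.1).card + (bd p.2).card) := (pow_add _ _ _).symm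
                _ ≤ q ^ kap d n := pow_le_pow_of_le_one h.pos.le h.le_one hE
            · rw [Set.not_nonempty_iff_eq_empty] at hB
              simp only [hf, hB, measureReal_empty, mul_zero]
              exact pow_nonneg h.pos.le _
          · rw [Set.not_nonempty_iff_eq_empty] at hA
            simp only [hf, hA, measureReal_empty, zero_mul]
            exact pow_nonneg h.pos.le _
      _ = ((P.filter (fun p => ¬ Disjoint p.1 p.2)).card : ℝ) * q ^ kap d n := by
          rw [Finset.sum_const, nsmul_eq_mul]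
      _ ≤ (P.card : ℝ) * q ^ kap d n := by
          apply mul_le_mul_of_nonneg_right _ (pow_nonneg h.pos.le _)
          exact_mod_cast Finset.card_filter_le _ _
  have e4 : ∑ p ∈ P.filter (fun p => Disjoint p.1 p.2), f p + f (A₀, B₀) ≤
      (QQ d ν).real (evF Λ o x) := by
    rw [prob_evF h]
    have hmem : (A₀, B₀) ∈ P.filter (fun p => Disjoint p.1 p.2) := by
      rw [Finset.mem_filter, hP, Finset.mem_product, Finset.mem_powerset, Finset.mem_powerset]
      exact ⟨⟨hA0, hB0⟩, hAB0⟩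
    have hge : ∀ p ∈ P.filter (fun p => Disjoint p.1 p.2),
        f p ≤ (QQ d ν).real (evG p.1 p.2 o x) := by
      intro p hp
      rw [Finset.mem_filter] at hp
      rw [prob_evG h hp.2]
      have : (1 : ℝ) ≤ 2 ^ (bd p.1 ∩ bd p.2).card := one_le_pow₀ (by norm_num)
      have h0 := hf0 p
      simp only [hf] at h0 ⊢
      nlinarith
    have hge0 : f (A₀, B₀) + f (A₀, B₀) ≤ (QQ d ν).real (evG A₀ B₀ o x) := by
      rw [prob_evG h hAB0]
      have hc : 1 ≤ (bd A₀ ∩ bd B₀).card := Finset.card_pos.2 hlink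
      have : (2 : ℝ) ^ 1 ≤ 2 ^ (bd A₀ ∩ bd B₀).card := pow_le_pow_right₀ (by norm_num) hc
      have h0 := hf0 (A₀, B₀)
      simp only [hf] at h0 ⊢
      nlinarith
    exact sum_aux _ (A₀, B₀) hmem f (fun p => (QQ d ν).real (evG p.1 p.2 o x)) hge hge0
  have e5 : f (A₀, B₀) = (QQ d ν).real (evCl A₀ o) * (QQ d ν).real (evCl B₀ x) := rfl
  rw [e1, e2, ← e5]
  clear_value f
  linarith

/-- the part of `evW` which does not use edges touching `A` -/
def evWoff (hd : 1 ≤ d) (Λ A : Finset (Fin d → ℤ)) (x : Fin d → ℤ) : Set (Edge d → Fin 3) :=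
  {w | ∃ B₁ B₂ : Finset (Fin d → ℤ), B₁ ⊆ B₂ ∧ B₂ ⊆ Λ ∧ x ∈ B₁ ∧ Proj hd B₁ ∧ Proj hd B₂ ∧
    Closed (bd B₁) (lv w) ∧ Closed (bd B₂) (lv w) ∧ Dbl (bd B₁ ∩ bd B₂) (lv w) ∧
    Disjoint (bd B₁) (touch A) ∧ Disjoint (bd B₂) (touch A)}

lemma dep_evWoff (hd : 1 ≤ d) (Λ A : Finset (Fin d → ℤ)) (x : Fin d → ℤ) :
    Dep (touch Λ \ touch A) (evWoff hd Λ A x) := by
  classical
  rintro w w' hw ⟨B₁, B₂, h12, h2L, hx, hP1, hP2, hc1, hc2, hD, hd1, hd2⟩
  have hb1 : bd B₁ ⊆ touch Λ \ touch A := by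
    intro e he
    exact Finset.mem_sdiff.2 ⟨touch_mono (h12.trans h2L) (bd_subset_touch _ he),
      Finset.disjoint_left.mp hd1 he⟩
  have hb2 : bd B₂ ⊆ touch Λ \ touch A := by
    intro e he
    exact Finset.mem_sdiff.2 ⟨touch_mono h2L (bd_subset_touch _ he),
      Finset.disjoint_left.mp hd2 he⟩
  refine ⟨B₁, B₂, h12, h2L, hx, hP1, hP2, closed_congr (fun e he => ?_) hc1,
    closed_congr (fun e he => ?_) hc2, dbl_congr (fun e he => ?_) hD, hd1, hd2⟩
  · simp [lv, hw e (hb1 he)]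
  · simp [lv, hw e (hb2 he)]
  · simp [lv, hw e (hb1 (Finset.mem_inter.1 he).1)]

/-- the covariance bound -/
lemma prob_cov (hd : 1 ≤ d) (h : Lev ν q) (Λ : Finset (Fin d → ℤ)) (o x : Fin d → ℤ) (n : ℕ)
    (hox : x ⟨0, hd⟩ = o ⟨0, hd⟩ + n ∨ o ⟨0, hd⟩ = x ⟨0, hd⟩ + n) :
    (QQ d ν).real (evU Λ o ∩ evW hd Λ x) ≤
      (QQ d ν).real (evU Λ o) * (QQ d ν).real (evW hd Λ x)
      + ((Λ.powerset.card : ℝ) * ((Λ.powerset ×ˢ Λ.powerset).card : ℝ) * 2 ^ (touch Λ).card)
        * q ^ kap d n := by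
  classical
  haveI := h.prob
  set P := (Λ.powerset ×ˢ Λ.powerset) with hP
  set C : ℝ := (P.card : ℝ) * (2 ^ (touch Λ).card * q ^ kap d n) with hC
  have hmain : ∀ A ∈ Λ.powerset, (QQ d ν).real (evCl A o ∩ evW hd Λ x) ≤
      (QQ d ν).real (evCl A o) * (QQ d ν).real (evW hd Λ x) + C := by
    intro A hA
    rw [Finset.mem_powerset] at hA
    set bad : Set (Edge d → Fin 3) := ⋃ p ∈ P, {w | w ∈ evC (bd A ∪ (bd p.1 ∪ bd p.2)) ∩
      evD (bd p.1 ∩ bd p.2) ∧ kap d n ≤ (bd A ∪ (bd p.1 ∪ bd p.2)).card + (bd p.1 ∩ bd p.2).card}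
      with hbad
    have hsub : evCl A o ∩ evW hd Λ x ⊆ (evCl A o ∩ evWoff hd Λ A x) ∪ bad := by
      rintro w ⟨hcl, B₁, B₂, h12, h2L, hx, hP1, hP2, hc1, hc2, hD⟩
      by_cases ht : Disjoint (bd B₁) (touch A) ∧ Disjoint (bd B₂) (touch A)
      · exact Or.inl ⟨hcl, B₁, B₂, h12, h2L, hx, hP1, hP2, hc1, hc2, hD, ht.1, ht.2⟩
      · right
        have hcl' : Cl A o (lv w) := hcl
        have hE := energy_cov hd (hcl'.proj hd) hP1 hP2 h12 hcl'.1.1 hx hox ht
        rw [hbad, Set.mem_iUnion₂]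
        refine ⟨(B₁, B₂), ?_, ⟨⟨?_, hD⟩, hE⟩⟩
        · rw [hP, Finset.mem_product, Finset.mem_powerset, Finset.mem_powerset]
          exact ⟨h12.trans h2L, h2L⟩
        · intro e he
          rcases Finset.mem_union.1 he with he | he
          · exact hcl'.2 e he
          · rcases Finset.mem_union.1 he with he | he
            · exact hc1 e he
            · exact hc2 e he
    have hbadle : (QQ d ν).real bad ≤ C := by
      rw [hbad, hC]
      refine (measureReal_biUnion_finset_le _ _).trans ?_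
      refine (Finset.sum_le_sum (g := fun _ => 2 ^ (touch Λ).card * q ^ kap d n) ?_).trans ?_
      · intro p hp
        rw [hP, Finset.mem_product, Finset.mem_powerset, Finset.mem_powerset] at hp
        by_cases hk : kap d n ≤ (bd A ∪ (bd p.1 ∪ bd p.2)).card + (bd p.1 ∩ bd p.2).card
        · have hset : {w | w ∈ evC (bd A ∪ (bd p.1 ∪ bd p.2)) ∩ evD (bd p.1 ∩ bd p.2) ∧
              kap d n ≤ (bd A ∪ (bd p.1 ∪ bd p.2)).card + (bd p.1 ∩ bd p.2).card}
              = evC (bd A ∪ (bd p.1 ∪ bd p.2)) ∩ evD (bd p.1 ∩ bd p.2) := by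
            ext w; simp [hk]
          rw [hset, prob_pattern h (Finset.inter_subset_left.trans
            (Finset.subset_union_left.trans Finset.subset_union_right))]
          apply mul_le_mul
          · apply pow_le_pow_right₀ (by norm_num)
            apply Finset.card_le_card
            exact Finset.inter_subset_left.trans ((bd_subset_touch _).trans (touch_mono hp.1))
          · exact pow_le_pow_of_le_one h.pos.le h.le_one hk
          · exact pow_nonneg h.pos.le _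
          · positivity
        · have hset : {w | w ∈ evC (bd A ∪ (bd p.1 ∪ bd p.2)) ∩ evD (bd p.1 ∩ bd p.2) ∧
              kap d n ≤ (bd A ∪ (bd p.1 ∪ bd p.2)).card + (bd p.1 ∩ bd p.2).card}
              = (∅ : Set (Edge d → Fin 3)) := by
            ext w; simp [hk]
          rw [hset, measureReal_empty]
          have := pow_nonneg h.pos.le (kap d n)
          positivity
      · rw [Finset.sum_const, nsmul_eq_mul]
    have hdis : Disjoint (touch A) (touch Λ \ touch A) := Finset.disjoint_sdiff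
    have hoff : (QQ d ν).real (evWoff hd Λ A x) ≤ (QQ d ν).real (evW hd Λ x) := by
      refine measureReal_mono ?_ (measure_ne_top _ _)
      rintro w ⟨B₁, B₂, h12, h2L, hx, hP1, hP2, hc1, hc2, hD, -, -⟩
      exact ⟨B₁, B₂, h12, h2L, hx, hP1, hP2, hc1, hc2, hD⟩
    calc (QQ d ν).real (evCl A o ∩ evW hd Λ x)
        ≤ (QQ d ν).real ((evCl A o ∩ evWoff hd Λ A x) ∪ bad) := measureReal_mono hsub
      _ ≤ (QQ d ν).real (evCl A o ∩ evWoff hd Λ A x) + (QQ d ν).real bad :=
          measureReal_union_le _ _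
      _ ≤ (QQ d ν).real (evCl A o) * (QQ d ν).real (evW hd Λ x) + C := by
          rw [prob_indep h hdis (dep_evCl A o) (dep_evWoff hd Λ A x)]
          have h0 : 0 ≤ (QQ d ν).real (evCl A o) := measureReal_nonneg
          have := mul_le_mul_of_nonneg_left hoff h0
          linarith
  have hU : evU Λ o ∩ evW hd Λ x = ⋃ A ∈ Λ.powerset, (evCl A o ∩ evW hd Λ x) := by
    rw [evU_eq, Set.iUnion₂_inter]
  calc (QQ d ν).real (evU Λ o ∩ evW hd Λ x)
      ≤ ∑ A ∈ Λ.powerset, (QQ d ν).real (evCl A o ∩ evW hd Λ x) := by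
        rw [hU]; exact measureReal_biUnion_finset_le _ _
    _ ≤ ∑ A ∈ Λ.powerset, ((QQ d ν).real (evCl A o) * (QQ d ν).real (evW hd Λ x) + C) :=
        Finset.sum_le_sum hmain
    _ = (QQ d ν).real (evU Λ o) * (QQ d ν).real (evW hd Λ x) + Λ.powerset.card * C := by
        rw [Finset.sum_add_distrib, ← Finset.sum_mul, ← prob_evU h, Finset.sum_const, nsmul_eq_mul]
    _ = _ := by rw [hC]; ring

end Pool.Agent.H588R3.FPP
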