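import Pool.Agent.H588R3.Prob3

set_option autoImplicit false

open MeasureTheory ProbabilityTheory
open scoped NNReal ENNReal

namespace Pool.Agent.H588R3.FPP

variable {d : ℕ} {ν : Measure (Fin 3)} {q : ℝ}

def evE (d n : ℕ) : Set (Edge d → Fin 3) := {w | EE (axis d 0) (axis d n) (lv w)}

def evN (d m κ : ℕ) : Set (Edge d → Fin 3) :=
  {w | ¬ RIn (box (axis d 0) (m + 2 * κ) : Set (Fin d → ℤ)) (lv w) 1 (axis d 0) (axis d m)}

def evBad (S : Finset (Fin d → ℤ)) (κ : ℕ) : Set (Edge d → Fin 3) := {w | Bad S κ (lv w)}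

lemma prob_bad (h : Lev ν q) (S : Finset (Fin d → ℤ)) (κ : ℕ) :
    (QQ d ν).real (evBad S κ) ≤ (2 ^ (inn S).card : ℝ) * q ^ κ := by
  classical
  haveI := h.prob
  have e : evBad S κ ⊆ ⋃ K ∈ (inn S).powersetCard κ, evC K := by
    rintro w ⟨K, hK, hc, hcl⟩
    rw [Set.mem_iUnion₂]
    exact ⟨K, Finset.mem_powersetCard.2 ⟨hK, hc⟩, hcl⟩
  calc (QQ d ν).real (evBad S κ) ≤ (QQ d ν).real (⋃ K ∈ (inn S).powersetCard κ, evC K) :=
        measureReal_mono e (measure_ne_top _ _)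
    _ ≤ ∑ K ∈ (inn S).powersetCard κ, (QQ d ν).real (evC K) :=
        measureReal_biUnion_finset_le _ _
    _ = ∑ K ∈ (inn S).powersetCard κ, q ^ κ := by
        apply Finset.sum_congr rfl
        intro K hK
        rw [prob_evC h, (Finset.mem_powersetCard.1 hK).2]
    _ = (((inn S).powersetCard κ).card : ℝ) * q ^ κ := by rw [Finset.sum_const, nsmul_eq_mul]
    _ ≤ _ := by
        apply mul_le_mul_of_nonneg_right _ (pow_nonneg h.pos.le _)
        have : ((inn S).powersetCard κ).card ≤ 2 ^ (inn S).card := by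
          rw [← Finset.card_powerset]
          apply Finset.card_le_card
          intro K hK
          exact Finset.mem_powerset.2 (Finset.mem_powersetCard.1 hK).1
        exact_mod_cast this

lemma prob_shift (h : Lev ν q) (a : Fin d → ℤ) (X : Set (Edge d → Fin 3))
    (hX : MeasurableSet X) :
    (QQ d ν).real {w | (fun e : Edge d => w (e.1 + a, e.2)) ∈ X} = (QQ d ν).real X := by
  haveI := h.prob
  have hinj : Function.Injective (fun e : Edge d => ((e.1 + a, e.2) : Edge d)) := by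
    intro e e' hee
    simp only [Prod.mk.injEq, add_left_inj] at hee
    exact Prod.ext hee.1 hee.2
  have := MeasureTheory.Measure.map_infinitePi_infinitePi_of_inj
    (P := fun _ : Edge d => ν) hinj
  rw [measureReal_def, measureReal_def]
  congr 1
  conv_rhs => rw [QQ, ← this]
  rw [Measure.map_apply (by fun_prop) hX]
  rfl

lemma axis_zero (d : ℕ) : axis d 0 = 0 := by
  ext i; simp [axis]

lemma prob_evU_shift (h : Lev ν q) (a : Fin d → ℤ) (r : ℕ) :
    (QQ d ν).real (evU (box a r) a) = (QQ d ν).real (evU (box (axis d 0) r) (axis d 0)) := by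
  rw [← prob_shift h a (evU (box (axis d 0) r) (axis d 0)) (dep_evU _ _).meas]
  congr 1
  ext w
  simp only [evU, Set.mem_setOf_eq, UU_iff]
  have := reach_shift (w := lv w) (c := 0) (x := axis d 0) a r
  rw [axis_zero, zero_add] at this
  rw [axis_zero]
  exact this

lemma prob_evW_shift (hd : 1 ≤ d) (h : Lev ν q) (a : Fin d → ℤ) (r : ℕ) :
    (QQ d ν).real (evW hd (box a r) a) =
      (QQ d ν).real (evW hd (box (axis d 0) r) (axis d 0)) := by
  rw [← prob_shift h a (evW hd (box (axis d 0) r) (axis d 0)) (dep_evW _ _ _).meas]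
  congr 1
  ext w
  simp only [evW, Set.mem_setOf_eq, WW_iff]
  have := reach_shift (w := lv w) (c := 1) (x := axis d 0) a r
  rw [axis_zero, zero_add] at this
  rw [axis_zero]
  exact this

lemma evW_subset_evU (hd : 1 ≤ d) (Λ : Finset (Fin d → ℤ)) (x : Fin d → ℤ) :
    evW hd Λ x ⊆ evU Λ x := fun _ hw => UU_of_WW hw

lemma evU_mono {Λ Λ' : Finset (Fin d → ℤ)} (hL : Λ ⊆ Λ') (x : Fin d → ℤ) :
    evU Λ x ⊆ evU Λ' x := fun _ hw => UU_mono hL hw

lemma evW_mono (hd : 1 ≤ d) {Λ Λ' : Finset (Fin d → ℤ)} (hL : Λ ⊆ Λ') (x : Fin d → ℤ) :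
    evW hd Λ x ⊆ evW hd Λ' x := fun _ hw => WW_mono hL hw

lemma prob_compl_inter (h : Lev ν q) {s : Finset (Edge d)} {A B : Set (Edge d → Fin 3)}
    (hA : Dep s A) :
    (QQ d ν).real (Aᶜ ∩ B) = (QQ d ν).real B - (QQ d ν).real (A ∩ B) := by
  haveI := h.prob
  have := measureReal_inter_add_diff (μ := QQ d ν) (s := B) hA.meas
  rw [Set.inter_comm A B, ← this]
  have e : Aᶜ ∩ B = B \ A := by rw [Set.diff_eq, Set.inter_comm]
  rw [e]
  ring

/-- the main lower bound -/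
lemma lower (hd2 : 2 ≤ d) (hd : 1 ≤ d) (h : Lev ν q) (Λ : Finset (Fin d → ℤ)) (n : ℕ) (hn : 1 ≤ n)
    (hseg : seg d n ⊆ Λ) (hax : {axis d n} ⊆ Λ) :
    (QQ d ν).real (evU Λ (axis d 0)) * (QQ d ν).real (evU Λ (axis d n))
      + (1 - (QQ d ν).real (evU Λ (axis d 0))) * (QQ d ν).real (evW hd Λ (axis d n))
      + (1 - (QQ d ν).real (evU Λ (axis d n))) * (QQ d ν).real (evW hd Λ (axis d 0))
      + (1 - q) ^ (inn (seg d n)).card * q ^ (kap d n - 1)
      - (((Λ.powerset ×ˢ Λ.powerset).card : ℝ)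
          + 2 * ((Λ.powerset.card : ℝ) * ((Λ.powerset ×ˢ Λ.powerset).card : ℝ)
            * 2 ^ (touch Λ).card)) * q ^ kap d n
      ≤ (QQ d ν).real (evE d n) := by
  classical
  haveI := h.prob
  set o := axis d 0 with ho
  set x := axis d n with hx
  have hox : x ⟨0, hd⟩ = o ⟨0, hd⟩ + n := by
    rw [hx, ho, axis_zero_apply, axis_zero_apply]; simp
  have hxs : x ∉ seg d n := by
    rw [mem_seg]
    rintro ⟨k, hk, hk'⟩
    have := congrFun hk' ⟨0, hd⟩
    rw [hx, axis_zero_apply, axis_zero_apply] at this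
    omega
  have hdisj : Disjoint (seg d n) ({x} : Finset (Fin d → ℤ)) := by
    rw [Finset.disjoint_singleton_right]; exact hxs
  have hF := prob_evF_ge hd h Λ o x n hox (seg d n) {x} hseg hax hdisj
    ⟨_, link_mem hd n hn⟩
  have hc1 := prob_cov hd h Λ o x n (Or.inl hox)
  have hc2 := prob_cov hd h Λ x o n (Or.inr hox)
  -- the three pieces
  have e1 : evF Λ o x ⊆ evE d n := by
    intro w hw
    rw [evF, Set.mem_iUnion₂] at hw
    obtain ⟨p, hp, h1, h2, h3⟩ := hw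
    exact EE_of_Cl h1 h2 (Finset.mem_filter.1 hp).2 h3
  have e2 : (evU Λ o)ᶜ ∩ evW hd Λ x ⊆ evE d n := fun w hw => EE_of_WW hw.2 hw.1
  have e3 : (evU Λ x)ᶜ ∩ evW hd Λ o ⊆ evE d n := fun w hw => EE_of_WW' hw.2 hw.1
  have hFsub : evF Λ o x ⊆ evU Λ o ∩ evU Λ x := by
    intro w hw
    rw [evF, Set.mem_iUnion₂] at hw
    obtain ⟨p, hp, h1, h2, h3⟩ := hw
    have hp' := Finset.mem_product.1 (Finset.mem_filter.1 hp).1
    exact ⟨⟨p.1, Finset.mem_powerset.1 hp'.1, h1⟩, ⟨p.2, Finset.mem_powerset.1 hp'.2, h2⟩⟩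
  have d2m : MeasurableSet ((evU Λ o)ᶜ ∩ evW hd Λ x) :=
    ((dep_evU Λ o).compl.inter (dep_evW hd Λ x)).meas
  have d3m : MeasurableSet ((evU Λ x)ᶜ ∩ evW hd Λ o) :=
    ((dep_evU Λ x).compl.inter (dep_evW hd Λ o)).meas
  have dis1 : Disjoint (evF Λ o x) ((evU Λ o)ᶜ ∩ evW hd Λ x) := by
    rw [Set.disjoint_left]
    intro w h1 h2
    exact h2.1 (hFsub h1).1
  have dis2 : Disjoint (evF Λ o x ∪ ((evU Λ o)ᶜ ∩ evW hd Λ x)) ((evU Λ x)ᶜ ∩ evW hd Λ o) := by
    rw [Set.disjoint_left]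
    rintro w (h1 | h1) h2
    · exact h2.1 (hFsub h1).2
    · exact h2.1 (evW_subset_evU hd _ _ h1.2)
  have hsum : (QQ d ν).real (evF Λ o x) + (QQ d ν).real ((evU Λ o)ᶜ ∩ evW hd Λ x)
      + (QQ d ν).real ((evU Λ x)ᶜ ∩ evW hd Λ o) ≤ (QQ d ν).real (evE d n) := by
    rw [← measureReal_union dis1 d2m, ← measureReal_union dis2 d3m]
    exact measureReal_mono (Set.union_subset (Set.union_subset e1 e2) e3) (measure_ne_top _ _)
  rw [prob_compl_inter h (dep_evU Λ o), prob_compl_inter h (dep_evU Λ x)] at hsum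
  -- the gain
  have hgain : (1 - q) ^ (inn (seg d n)).card * q ^ (kap d n - 1) ≤
      (QQ d ν).real (evCl (seg d n) o) * (QQ d ν).real (evCl {x} x) := by
    have g1 : (1 - q) ^ (inn (seg d n)).card * q ^ (bd (seg d n)).card ≤
        (QQ d ν).real (evCl (seg d n) o) := by
      rw [prob_evCl h]
      apply mul_le_mul_of_nonneg_right _ (pow_nonneg h.pos.le _)
      rw [← prob_evO h]
      apply measureReal_mono _ (measure_ne_top _ _)
      intro w hw
      exact conn_seg hd n hn hw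
    have g2 : q ^ (bd ({x} : Finset (Fin d → ℤ))).card ≤ (QQ d ν).real (evCl {x} x) := by
      rw [prob_evCl h]
      have : evConn {x} x = (Set.univ : Set (Edge d → Fin 3)) := by
        ext w
        simp only [evConn, Conn, Set.mem_setOf_eq, Set.mem_univ, iff_true,
          Finset.mem_singleton, true_and]
        rintro v rfl
        exact RIn.refl 0 _ (by simp)
      rw [this, probReal_univ, one_mul]
    have g3 : (bd (seg d n)).card + (bd ({x} : Finset (Fin d → ℤ))).card ≤ kap d n - 1 := by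
      have := card_bd_seg hd n hn
      have := card_bd_singleton hd x
      rw [kap]
      have e : 2 * (d - 1) * (n + 1) = 2 * (d - 1) * n + 2 * (d - 1) := by ring
      omega
    have hq1 : 0 ≤ (1 - q) ^ (inn (seg d n)).card :=
      pow_nonneg (by linarith [h.le_one]) _
    calc (1 - q) ^ (inn (seg d n)).card * q ^ (kap d n - 1)
        ≤ (1 - q) ^ (inn (seg d n)).card *
          q ^ ((bd (seg d n)).card + (bd ({x} : Finset (Fin d → ℤ))).card) :=
          mul_le_mul_of_nonneg_left (pow_le_pow_of_le_one h.pos.le h.le_one g3) hq1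
      _ = ((1 - q) ^ (inn (seg d n)).card * q ^ (bd (seg d n)).card) *
          q ^ (bd ({x} : Finset (Fin d → ℤ))).card := by rw [pow_add]; ring
      _ ≤ _ := mul_le_mul g1 g2 (pow_nonneg h.pos.le _) measureReal_nonneg
  linarith

lemma touch_box_disj (hd : 1 ≤ d) {κ m : ℕ} (hm : 4 * κ + 3 ≤ m) :
    Disjoint (touch (box (axis d 0) (2 * κ))) (touch (box (axis d m) (2 * κ))) := by
  rw [Finset.disjoint_left]
  intro e h1 h2
  rw [mem_touch, mem_box, mem_box] at h1 h2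
  have ht := tip_apply e ⟨0, hd⟩
  have h1' : |e.1 ⟨0, hd⟩ - axis d 0 ⟨0, hd⟩| ≤ (2 * κ : ℕ) ∨
      |tip e ⟨0, hd⟩ - axis d 0 ⟨0, hd⟩| ≤ (2 * κ : ℕ) := by
    rcases h1 with h | h
    · exact Or.inl (h _)
    · exact Or.inr (h _)
  have h2' : |e.1 ⟨0, hd⟩ - axis d m ⟨0, hd⟩| ≤ (2 * κ : ℕ) ∨
      |tip e ⟨0, hd⟩ - axis d m ⟨0, hd⟩| ≤ (2 * κ : ℕ) := by
    rcases h2 with h | h
    · exact Or.inl (h _)
    · exact Or.inr (h _)
  rw [axis_zero_apply] at h1' h2'
  simp only [abs_le] at h1' h2'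
  split_ifs at ht <;> push_cast at h1' h2' <;> omega

/-- the main upper bound -/
lemma upper (hd2 : 2 ≤ d) (hd : 1 ≤ d) (h : Lev ν q) {κ m : ℕ} (hκ : 1 ≤ κ)
    (hm : 4 * κ + 3 ≤ m) :
    (QQ d ν).real (evN d m κ) ≤
      (2 ^ (inn (box (axis d 0) (m + 2 * κ))).card : ℝ) * q ^ κ
      + (QQ d ν).real (evU (box (axis d 0) (2 * κ)) (axis d 0)) *
          (QQ d ν).real (evU (box (axis d 0) (2 * κ)) (axis d 0))
      + (1 - (QQ d ν).real (evU (box (axis d 0) (2 * κ)) (axis d 0))) *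
          (QQ d ν).real (evW hd (box (axis d 0) (2 * κ)) (axis d 0))
      + (1 - (QQ d ν).real (evU (box (axis d 0) (2 * κ)) (axis d 0))) *
          (QQ d ν).real (evW hd (box (axis d 0) (2 * κ)) (axis d 0)) := by
  classical
  haveI := h.prob
  have hdis := touch_box_disj hd hm
  set U₀ := evU (box (axis d 0) (2 * κ)) (axis d 0) with hU0
  set W₀ := evW hd (box (axis d 0) (2 * κ)) (axis d 0) with hW0
  set U₁ := evU (box (axis d m) (2 * κ)) (axis d m) with hU1
  set W₁ := evW hd (box (axis d m) (2 * κ)) (axis d m) with hW1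
  have hsub : evN d m κ ⊆ ((evBad (box (axis d 0) (m + 2 * κ)) κ ∪ (U₀ ∩ U₁)) ∪ (U₀ᶜ ∩ W₁)) ∪
      (U₁ᶜ ∩ W₀) := by
    intro w hw
    by_cases hB : Bad (box (axis d 0) (m + 2 * κ)) κ (lv w)
    · exact Or.inl (Or.inl (Or.inl hB))
    · rcases upper_det' hd2 hd hκ (by omega) hB hw with h1 | h1 | h1
      · exact Or.inl (Or.inl (Or.inr h1))
      · exact Or.inl (Or.inr h1)
      · exact Or.inr h1
  have b1 := prob_bad h (box (axis d 0) (m + 2 * κ)) κ
  have b2 : (QQ d ν).real (U₀ ∩ U₁) = (QQ d ν).real U₀ * (QQ d ν).real U₀ := by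
    rw [prob_indep h hdis (dep_evU _ _) (dep_evU _ _), prob_evU_shift h (axis d m)]
  have b3 : (QQ d ν).real (U₀ᶜ ∩ W₁) = (1 - (QQ d ν).real U₀) * (QQ d ν).real W₀ := by
    rw [prob_indep h hdis (dep_evU _ _).compl (dep_evW _ _ _),
      prob_evW_shift hd h (axis d m), probReal_compl_eq_one_sub (dep_evU _ _).meas]
  have b4 : (QQ d ν).real (U₁ᶜ ∩ W₀) = (1 - (QQ d ν).real U₀) * (QQ d ν).real W₀ := by
    rw [prob_indep h hdis.symm (dep_evU _ _).compl (dep_evW _ _ _),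
      probReal_compl_eq_one_sub (dep_evU _ _).meas, prob_evU_shift h (axis d m)]
  calc (QQ d ν).real (evN d m κ) ≤ (QQ d ν).real (((evBad (box (axis d 0) (m + 2 * κ)) κ ∪
        (U₀ ∩ U₁)) ∪ (U₀ᶜ ∩ W₁)) ∪ (U₁ᶜ ∩ W₀)) := measureReal_mono hsub (measure_ne_top _ _)
    _ ≤ (QQ d ν).real (evBad (box (axis d 0) (m + 2 * κ)) κ) + (QQ d ν).real (U₀ ∩ U₁)
        + (QQ d ν).real (U₀ᶜ ∩ W₁) + (QQ d ν).real (U₁ᶜ ∩ W₀) := by
        refine (measureReal_union_le _ _).trans ?_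
        refine add_le_add ((measureReal_union_le _ _).trans ?_) le_rfl
        refine add_le_add (measureReal_union_le _ _) le_rfl
    _ ≤ _ := by rw [b2, b3, b4]; linarith

lemma real_aux {a1 b1 a2 b2 a b : ℝ} (h1 : a ≤ a1) (h2 : a ≤ a2) (h3 : b ≤ b1) (h4 : b ≤ b2)
    (h5 : b2 ≤ a2) (h6 : b ≤ a) (h7 : a2 ≤ 1) (h8 : a ≤ 1) :
    a * a + (1 - a) * b + (1 - a) * b ≤ a1 * a2 + (1 - a1) * b2 + (1 - a2) * b1 := by
  have e1 : 0 ≤ (a1 - a) * (a2 - b2) := mul_nonneg (by linarith) (by linarith)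
  have e2 : 0 ≤ (1 - a2) * (b1 - b) := mul_nonneg (by linarith) (by linarith)
  have e3 : 0 ≤ (a2 - a) * (a - b) := mul_nonneg (by linarith) (by linarith)
  have e4 : 0 ≤ (1 - a) * (b2 - b) := mul_nonneg (by linarith) (by linarith)
  nlinarith

/-- The one-level theorem. -/
theorem one_level (hd2 : 2 ≤ d) (n : ℕ) (hn : 1 ≤ n) :
    ∃ (m κ : ℕ) (q₀ : ℝ), n < m ∧ 0 < q₀ ∧ ∀ (ν : Measure (Fin 3)) (q : ℝ), Lev ν q → q < q₀ →
      (QQ d ν).real (evN d m κ) < (QQ d ν).real (evE d n) := by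
  classical
  have hd : 1 ≤ d := by omega
  set κ := kap d n with hκ
  have hκ1 : 1 ≤ κ := by rw [hκ, kap]; omega
  set m := n + 4 * κ + 3 with hm
  set Λ : Finset (Fin d → ℤ) := box (axis d 0) (n + 2 * κ) with hΛ
  set C : ℝ := (((Λ.powerset ×ˢ Λ.powerset).card : ℝ)
          + 2 * ((Λ.powerset.card : ℝ) * ((Λ.powerset ×ˢ Λ.powerset).card : ℝ)
            * 2 ^ (touch Λ).card)) + (2 ^ (inn (box (axis d 0) (m + 2 * κ))).card : ℝ) with hC
  have hC0 : 0 ≤ C := by positivity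
  set M := (inn (seg d n)).card with hM
  refine ⟨m, κ, 1 / (M + C + 1), by omega, by positivity, ?_⟩
  intro ν q h hq
  haveI := h.prob
  have hb0 : box (axis d 0) (2 * κ) ⊆ Λ := box_mono (by omega)
  have hbn : box (axis d n) (2 * κ) ⊆ Λ := box_axis_subset
  have hself : ∀ k : ℕ, axis d k ∈ box (axis d k) (2 * κ) := by
    intro k; rw [mem_box]; intro i; simp
  have hseg : seg d n ⊆ Λ := by
    intro v hv
    obtain ⟨k, hk, rfl⟩ := mem_seg.1 hv
    have := (box_axis_subset (d := d) (m := k) (κ := κ)) (hself k)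
    exact box_mono (by omega) this
  have hax : ({axis d n} : Finset (Fin d → ℤ)) ⊆ Λ := by
    rw [Finset.singleton_subset_iff]
    exact hbn (hself n)
  have hlow := lower hd2 hd h Λ n hn hseg hax
  have hupp := upper hd2 hd h (κ := κ) (m := m) hκ1 (by omega)
  set a := (QQ d ν).real (evU (box (axis d 0) (2 * κ)) (axis d 0)) with ha
  set b := (QQ d ν).real (evW hd (box (axis d 0) (2 * κ)) (axis d 0)) with hb
  have r1 : a ≤ (QQ d ν).real (evU Λ (axis d 0)) :=
    measureReal_mono (evU_mono hb0 _) (measure_ne_top _ _)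
  have r2 : a ≤ (QQ d ν).real (evU Λ (axis d n)) := by
    rw [ha, ← prob_evU_shift h (axis d n) (2 * κ)]
    exact measureReal_mono (evU_mono hbn _) (measure_ne_top _ _)
  have r3 : b ≤ (QQ d ν).real (evW hd Λ (axis d 0)) :=
    measureReal_mono (evW_mono hd hb0 _) (measure_ne_top _ _)
  have r4 : b ≤ (QQ d ν).real (evW hd Λ (axis d n)) := by
    rw [hb, ← prob_evW_shift hd h (axis d n) (2 * κ)]
    exact measureReal_mono (evW_mono hd hbn _) (measure_ne_top _ _)
  have r5 : (QQ d ν).real (evW hd Λ (axis d n)) ≤ (QQ d ν).real (evU Λ (axis d n)) :=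
    measureReal_mono (evW_subset_evU hd _ _) (measure_ne_top _ _)
  have r6 : b ≤ a := measureReal_mono (evW_subset_evU hd _ _) (measure_ne_top _ _)
  have hr := real_aux r1 r2 r3 r4 r5 r6 measureReal_le_one measureReal_le_one
  have hq0 := h.pos
  have hqC : (M + C + 1) * q < 1 := by
    rw [lt_div_iff₀ (by positivity)] at hq
    linarith
  have hbern : 1 - M * q ≤ (1 - q) ^ M := by
    have := one_add_mul_le_pow (a := -q) (by linarith [h.le_one]) M
    have e : (1 + -q) = 1 - q := by ring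
    rw [e] at this
    linarith
  have hpow : q ^ κ = q ^ (κ - 1) * q := by
    rw [← pow_succ]; congr 1; omega
  have hpos : 0 < q ^ (κ - 1) := pow_pos hq0 _
  have hfin : C * q ^ κ < (1 - q) ^ M * q ^ (κ - 1) := by
    rw [hpow]
    have : C * q < (1 - q) ^ M := by nlinarith
    nlinarith
  have hCsplit : C * q ^ κ = ((((Λ.powerset ×ˢ Λ.powerset).card : ℝ)
          + 2 * ((Λ.powerset.card : ℝ) * ((Λ.powerset ×ˢ Λ.powerset).card : ℝ)
            * 2 ^ (touch Λ).card))) * q ^ κ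
            + (2 ^ (inn (box (axis d 0) (m + 2 * κ))).card : ℝ) * q ^ κ := by
    rw [hC]; ring
  linarith

end Pool.Agent.H588R3.FPP
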