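import Pool.Agent.H588R3.Cut

set_option autoImplicit false

open MeasureTheory
open scoped NNReal ENNReal

namespace Pool.Agent.H588R3.FPP

variable {d : ℕ}

/-- `RIn S w c x y`: there is a path from `x` to `y` inside `S` whose total weight is at
most `c`. -/
inductive RIn (S : Set (Fin d → ℤ)) (w : Edge d → ℕ) :
    ℕ → (Fin d → ℤ) → (Fin d → ℤ) → Prop
  | refl (c : ℕ) (x : Fin d → ℤ) (hx : x ∈ S) : RIn S w c x x
  | step {c : ℕ} {x y z : Fin d → ℤ} (e : Edge d) (h : RIn S w c x y) (hj : Joins e y z)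
      (hz : z ∈ S) : RIn S w (c + w e) x z

lemma RIn.mem_left {S : Set (Fin d → ℤ)} {w : Edge d → ℕ} {c : ℕ} {x y : Fin d → ℤ}
    (h : RIn S w c x y) : x ∈ S := by
  induction h with
  | refl c x hx => exact hx
  | step e _ _ _ ih => exact ih

lemma RIn.mem_right {S : Set (Fin d → ℤ)} {w : Edge d → ℕ} {c : ℕ} {x y : Fin d → ℤ}
    (h : RIn S w c x y) : y ∈ S := by
  cases h with
  | refl c x hx => exact hx
  | step e _ _ hz => exact hz

lemma RIn.mono {S : Set (Fin d → ℤ)} {w : Edge d → ℕ} {c : ℕ} {x y : Fin d → ℤ}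
    (h : RIn S w c x y) : ∀ {c' : ℕ}, c ≤ c' → RIn S w c' x y := by
  induction h with
  | refl c x hx => intro c' _; exact RIn.refl c' x hx
  | @step c x y z e h hj hz ih =>
    intro c' hc'
    have h1 : c ≤ c' - w e := by omega
    have h2 := RIn.step e (ih h1) hj hz
    have h3 : c' - w e + w e = c' := by omega
    rwa [h3] at h2

lemma RIn.mono_set {S S' : Set (Fin d → ℤ)} (hS : S ⊆ S') {w : Edge d → ℕ} {c : ℕ}
    {x y : Fin d → ℤ} (h : RIn S w c x y) : RIn S' w c x y := by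
  induction h with
  | refl c x hx => exact RIn.refl c x (hS hx)
  | step e _ hj hz ih => exact RIn.step e ih hj (hS hz)

lemma RIn.trans {S : Set (Fin d → ℤ)} {w : Edge d → ℕ} {c c' : ℕ} {x y z : Fin d → ℤ}
    (h : RIn S w c x y) (h' : RIn S w c' y z) : RIn S w (c + c') x z := by
  induction h' with
  | refl c' x hx => exact h.mono (by omega)
  | step e _ hj hz ih =>
    have := RIn.step e (ih h) hj hz
    rwa [add_assoc] at this

lemma RIn.symm {S : Set (Fin d → ℤ)} {w : Edge d → ℕ} {c : ℕ} {x y : Fin d → ℤ}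
    (h : RIn S w c x y) : RIn S w c y x := by
  induction h with
  | refl c x hx => exact RIn.refl c x hx
  | @step c x y z e h hj hz ih =>
    have h1 : RIn S w (0 + w e) z y := RIn.step e (RIn.refl 0 z hz) hj.symm h.mem_right
    have h2 := h1.trans ih
    exact h2.mono (by omega)

lemma RIn.congr {S : Set (Fin d → ℤ)} {w w' : Edge d → ℕ} {c : ℕ} {x y : Fin d → ℤ}
    (hw : ∀ e : Edge d, e.1 ∈ S → tip e ∈ S → w e = w' e)
    (h : RIn S w c x y) : RIn S w' c x y := by
  induction h with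
  | refl c x hx => exact RIn.refl c x hx
  | @step c x y z e h hj hz ih =>
    have hy := h.mem_right
    have : w e = w' e := by
      rcases hj with ⟨h1, h2⟩ | ⟨h1, h2⟩
      · exact hw e (h1 ▸ hy) (h2 ▸ hz)
      · exact hw e (h2 ▸ hz) (h1 ▸ hy)
    rw [this]
    exact RIn.step e ih hj hz

/-- discrete intermediate value theorem along a path -/
lemma RIn.ivt {S : Set (Fin d → ℤ)} {w : Edge d → ℕ} {c : ℕ} {x y : Fin d → ℤ}
    (h : RIn S w c x y) (j : Fin d) (i : ℤ)
    (hi : (x j ≤ i ∧ i ≤ y j) ∨ (y j ≤ i ∧ i ≤ x j)) :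
    ∃ z, RIn S w c x z ∧ z j = i := by
  induction h with
  | refl c x hx => exact ⟨x, RIn.refl c x hx, by omega⟩
  | @step c x y z e h hj hz ih =>
    by_cases hy : (x j ≤ i ∧ i ≤ y j) ∨ (y j ≤ i ∧ i ≤ x j)
    · obtain ⟨t, ht, hti⟩ := ih hy
      exact ⟨t, ht.mono (by omega), hti⟩
    · refine ⟨z, RIn.step e h hj hz, ?_⟩
      have := hj.abs_le j
      rw [abs_le] at this
      omega

/-- The first coordinates of the points of `A` form an interval. -/
def Proj (hd : 1 ≤ d) (A : Finset (Fin d → ℤ)) : Prop :=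
  ∀ u ∈ A, ∀ v ∈ A, ∀ i : ℤ, u ⟨0, hd⟩ ≤ i → i ≤ v ⟨0, hd⟩ → ∃ t ∈ A, t ⟨0, hd⟩ = i

lemma proj_of_reach (hd : 1 ≤ d) {A : Finset (Fin d → ℤ)} {w : Edge d → ℕ} {c : ℕ}
    {o : Fin d → ℤ} (hA : ∀ v, v ∈ A ↔ RIn Set.univ w c o v) : Proj hd A := by
  intro u hu v hv i h1 h2
  rw [hA] at hu hv
  rcases le_total (o ⟨0, hd⟩) i with h | h
  · obtain ⟨t, ht, hti⟩ := hv.ivt ⟨0, hd⟩ i (Or.inl ⟨h, h2⟩)
    exact ⟨t, (hA t).2 ht, hti⟩
  · obtain ⟨t, ht, hti⟩ := hu.ivt ⟨0, hd⟩ i (Or.inr ⟨h1, h⟩)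
    exact ⟨t, (hA t).2 ht, hti⟩

/-- all vertices of `A` are joined to `o` by paths of weight `0` inside `A` -/
def Conn (A : Finset (Fin d → ℤ)) (o : Fin d → ℤ) (w : Edge d → ℕ) : Prop :=
  o ∈ A ∧ ∀ v ∈ A, RIn (A : Set (Fin d → ℤ)) w 0 o v

def Closed (K : Finset (Edge d)) (w : Edge d → ℕ) : Prop := ∀ e ∈ K, 1 ≤ w e

def Dbl (K : Finset (Edge d)) (w : Edge d → ℕ) : Prop := ∀ e ∈ K, 2 ≤ w e

/-- `A` is the cluster of `o` -/
def Cl (A : Finset (Fin d → ℤ)) (o : Fin d → ℤ) (w : Edge d → ℕ) : Prop :=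
  Conn A o w ∧ Closed (bd A) w

lemma Cl.mem_iff {A : Finset (Fin d → ℤ)} {o : Fin d → ℤ} {w : Edge d → ℕ} (h : Cl A o w)
    (v : Fin d → ℤ) : v ∈ A ↔ RIn Set.univ w 0 o v := by
  constructor
  · intro hv
    exact (h.1.2 v hv).mono_set (Set.subset_univ _)
  · intro hv
    have key : ∀ {c : ℕ} {x y : Fin d → ℤ}, RIn Set.univ w c x y → c = 0 → x ∈ A → y ∈ A := by
      intro c x y hxy
      induction hxy with
      | refl c x hx => intro _ h; exact h
      | @step c x y z e h' hj hz ih =>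
        intro hc hx
        have hy := ih (by omega) hx
        by_contra hzA
        have := h.2 e (mem_bd_of_joins hj hy hzA)
        omega
    exact key hv rfl h.1.1

lemma Cl.unique {A A' : Finset (Fin d → ℤ)} {o : Fin d → ℤ} {w : Edge d → ℕ} (h : Cl A o w)
    (h' : Cl A' o w) : A = A' := by
  ext v
  rw [h.mem_iff, h'.mem_iff]

lemma Cl.proj (hd : 1 ≤ d) {A : Finset (Fin d → ℤ)} {o : Fin d → ℤ} {w : Edge d → ℕ}
    (h : Cl A o w) : Proj hd A := proj_of_reach hd h.mem_iff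

lemma rin_self {w : Edge d → ℕ} {A : Finset (Fin d → ℤ)} {o : Fin d → ℤ}
    (hA : ∀ v, v ∈ A ↔ RIn Set.univ w 0 o v) (v : Fin d → ℤ) (hv : v ∈ A) :
    RIn (A : Set (Fin d → ℤ)) w 0 o v := by
  have key : ∀ {c : ℕ} {x y : Fin d → ℤ}, RIn Set.univ w c x y → c = 0 →
      (∀ v, v ∈ A ↔ RIn Set.univ w 0 x v) → RIn (A : Set (Fin d → ℤ)) w 0 x y := by
    intro c x y hxy
    induction hxy with
    | refl c x hx =>
      intro _ h
      exact RIn.refl 0 x ((h x).2 (RIn.refl 0 x trivial))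
    | @step c x y z e h' hj hz ih =>
      intro hc hx
      have hc0 : c = 0 := by omega
      have hy := ih hc0 hx
      have hz' : z ∈ A := by
        rw [hx]
        have := RIn.step e h' hj hz
        rwa [hc] at this
      have := RIn.step e hy hj (show z ∈ (A : Set (Fin d → ℤ)) from hz')
      have hwe : w e = 0 := by omega
      rwa [hwe] at this
  exact key ((hA v).1 hv) rfl hA

lemma exists_Cl {Λ : Finset (Fin d → ℤ)} {o : Fin d → ℤ} {w : Edge d → ℕ}
    (h : ∀ v, RIn Set.univ w 0 o v → v ∈ Λ) : ∃ A, A ⊆ Λ ∧ Cl A o w := by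
  classical
  set A := Λ.filter (fun v => RIn Set.univ w 0 o v) with hA
  have hmem : ∀ v, v ∈ A ↔ RIn Set.univ w 0 o v := by
    intro v
    rw [hA, Finset.mem_filter]
    exact ⟨fun h => h.2, fun h' => ⟨h v h', h'⟩⟩
  refine ⟨A, Finset.filter_subset _ _, ⟨(hmem o).2 (RIn.refl 0 o trivial), ?_⟩, ?_⟩
  · exact fun v hv => rin_self hmem v hv
  · intro e he
    obtain ⟨x, y, hj, hx, hy⟩ := exists_of_mem_bd he
    by_contra hw
    have hw0 : w e = 0 := by omega
    apply hy
    rw [hmem] at hx ⊢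
    have := RIn.step e hx hj (Set.mem_univ _)
    rwa [hw0] at this

/-- two nested surfaces around `x` inside `Λ` -/
def WW (hd : 1 ≤ d) (Λ : Finset (Fin d → ℤ)) (x : Fin d → ℤ) (w : Edge d → ℕ) : Prop :=
  ∃ B₁ B₂ : Finset (Fin d → ℤ), B₁ ⊆ B₂ ∧ B₂ ⊆ Λ ∧ x ∈ B₁ ∧ Proj hd B₁ ∧ Proj hd B₂ ∧
    Closed (bd B₁) w ∧ Closed (bd B₂) w ∧ Dbl (bd B₁ ∩ bd B₂) w

/-- one surface around `x` inside `Λ` -/
def UU (Λ : Finset (Fin d → ℤ)) (x : Fin d → ℤ) (w : Edge d → ℕ) : Prop :=
  ∃ A, A ⊆ Λ ∧ Cl A x w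

lemma WW_of_reach (hd : 1 ≤ d) {Λ : Finset (Fin d → ℤ)} {x : Fin d → ℤ} {w : Edge d → ℕ}
    (h : ∀ v, RIn Set.univ w 1 x v → v ∈ Λ) : WW hd Λ x w := by
  classical
  set B₁ := Λ.filter (fun v => RIn Set.univ w 0 x v) with hB1
  set B₂ := Λ.filter (fun v => RIn Set.univ w 1 x v) with hB2
  have h1 : ∀ v, v ∈ B₁ ↔ RIn Set.univ w 0 x v := by
    intro v
    rw [hB1, Finset.mem_filter]
    exact ⟨fun h => h.2, fun h' => ⟨h v (h'.mono (by omega)), h'⟩⟩
  have h2 : ∀ v, v ∈ B₂ ↔ RIn Set.univ w 1 x v := by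
    intro v
    rw [hB2, Finset.mem_filter]
    exact ⟨fun h => h.2, fun h' => ⟨h v h', h'⟩⟩
  have hcl : ∀ (c : ℕ) (B : Finset (Fin d → ℤ)), (∀ v, v ∈ B ↔ RIn Set.univ w c x v) →
      Closed (bd B) w := by
    intro c B hB e he
    obtain ⟨a, b, hj, ha, hb⟩ := exists_of_mem_bd he
    by_contra hw
    have hw0 : w e = 0 := by omega
    apply hb
    rw [hB] at ha ⊢
    have := RIn.step e ha hj (Set.mem_univ _)
    rwa [hw0] at this
  refine ⟨B₁, B₂, ?_, Finset.filter_subset _ _, (h1 x).2 (RIn.refl 0 x trivial),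
    proj_of_reach hd h1, proj_of_reach hd h2, hcl 0 B₁ h1, hcl 1 B₂ h2, ?_⟩
  · intro v hv
    rw [h1] at hv
    rw [h2]
    exact hv.mono (by omega)
  · intro e he
    rw [Finset.mem_inter] at he
    obtain ⟨a, b, hj, ha, hb⟩ := exists_of_mem_bd he.1
    obtain ⟨a', b', hj', ha', hb'⟩ := exists_of_mem_bd he.2
    have hab : b ∉ B₂ := by
      rcases hj.eq_or hj' with ⟨r1, r2⟩ | ⟨r1, r2⟩
      · rw [r2]; exact hb'
      · exfalso
        apply hb'
        rw [← r1, h2]
        rw [h1] at ha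
        exact ha.mono (by omega)
    by_contra hw
    apply hab
    rw [h2]
    rw [h1] at ha
    exact (RIn.step e ha hj (Set.mem_univ _)).mono (by omega)

/-! ### potentials and lower bounds for path weights -/

lemma path_pot {w : Edge d → ℕ} {h : (Fin d → ℤ) → ℤ}
    (hh : ∀ e u v, Joins e u v → h v - h u ≤ w e) :
    ∀ (es : List (Edge d)) (u v : Fin d → ℤ), IsPath es u v →
      h v - h u ≤ ((es.map w).sum : ℕ) := by
  intro es
  induction es with
  | nil => intro u v huv; simp [IsPath] at huv; simp [huv]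
  | cons e es ih =>
    rintro u v ⟨z, hz, hzv⟩
    have h1 := hh e u z hz
    have h2 := ih z v hzv
    simp only [List.map_cons, List.sum_cons, Nat.cast_add]
    omega

/-- all paths from `o` to `x` have weight at least `2` -/
def EE (o x : Fin d → ℤ) (w : Edge d → ℕ) : Prop :=
  ∀ es : List (Edge d), IsPath es o x → 2 ≤ (es.map w).sum

lemma EE_of_Cl {A B : Finset (Fin d → ℤ)} {o x : Fin d → ℤ} {w : Edge d → ℕ}
    (hA : Cl A o w) (hB : Cl B x w) (hAB : Disjoint A B) (hD : Dbl (bd A ∩ bd B) w) :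
    EE o x w := by
  classical
  intro es hes
  set h : (Fin d → ℤ) → ℤ := fun v => if v ∈ A then 0 else if v ∈ B then 2 else 1 with hh
  have hxB := hB.1.1
  have hoA := hA.1.1
  have hxA : x ∉ A := fun h => (Finset.disjoint_left.mp hAB) h hxB
  have key := path_pot (w := w) (h := h) ?_ es o x hes
  · simp only [hh, hoA, hxA, hxB, if_true, if_false] at key
    omega
  · intro e u v hj
    simp only [hh]
    by_cases hu : u ∈ A
    · by_cases hv : v ∈ A
      · simp [hu, hv]
      · have he := mem_bd_of_joins hj hu hv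
        have h1 := hA.2 e he
        by_cases hvB : v ∈ B
        · have huB : u ∉ B := fun h => (Finset.disjoint_left.mp hAB) hu h
          have he' := mem_bd_of_joins hj.symm hvB huB
          have h2 := hD e (Finset.mem_inter.2 ⟨he, he'⟩)
          simp only [hu, hv, hvB, if_true, if_false]
          omega
        · simp only [hu, hv, hvB, if_true, if_false]
          omega
    · by_cases hv : v ∈ A
      · simp only [hu, hv, if_true, if_false]
        split_ifs <;> omega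
      · by_cases huB : u ∈ B
        · simp only [hu, hv, huB, if_true, if_false]
          split_ifs <;> omega
        · by_cases hvB : v ∈ B
          · have he' := mem_bd_of_joins hj.symm hvB huB
            have h2 := hB.2 e he'
            simp only [hu, hv, hvB, huB, if_true, if_false]
            omega
          · simp [hu, hv, hvB, huB]

lemma pot_WW {hd : 1 ≤ d} {Λ : Finset (Fin d → ℤ)} {o x : Fin d → ℤ} {w : Edge d → ℕ}
    (hW : WW hd Λ x w) (hU : ¬ UU Λ o w) :
    ∃ h : (Fin d → ℤ) → ℤ, h x = 0 ∧ h o = 2 ∧ ∀ e u v, Joins e u v → h v - h u ≤ w e := by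
  classical
  obtain ⟨B₁, B₂, h12, h2L, hx, -, -, hc1, hc2, hD⟩ := hW
  have ho2 : o ∉ B₂ := by
    intro ho
    apply hU
    apply exists_Cl
    have key : ∀ {c : ℕ} {x y : Fin d → ℤ}, RIn Set.univ w c x y → c = 0 → x ∈ B₂ → y ∈ B₂ := by
      intro c x y hxy
      induction hxy with
      | refl c x hx => intro _ h; exact h
      | @step c x y z e h' hj hz ih =>
        intro hc hx
        have hy := ih (by omega) hx
        by_contra hzA
        have := hc2 e (mem_bd_of_joins hj hy hzA)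
        omega
    intro v hv
    exact h2L (key hv rfl ho)
  have ho1 : o ∉ B₁ := fun h => ho2 (h12 h)
  refine ⟨fun v => (if v ∈ B₁ then 0 else 1) + (if v ∈ B₂ then 0 else 1), ?_, ?_, ?_⟩
  · simp [hx, h12 hx]
  · simp [ho1, ho2]
  · intro e u v hj
    by_cases hv1 : v ∈ B₁
    · have hv2 := h12 hv1
      simp only [hv1, hv2, if_true]
      split_ifs <;> omega
    · by_cases hu1 : u ∈ B₁
      · have hu2 := h12 hu1
        have e1 := mem_bd_of_joins hj hu1 hv1
        have w1 := hc1 e e1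
        by_cases hv2 : v ∈ B₂
        · simp only [hv1, hu1, hu2, hv2, if_true, if_false]
          omega
        · have e2 := mem_bd_of_joins hj hu2 hv2
          have w2 := hD e (Finset.mem_inter.2 ⟨e1, e2⟩)
          simp only [hv1, hu1, hu2, hv2, if_true, if_false]
          omega
      · by_cases hv2 : v ∈ B₂
        · simp only [hv1, hu1, hv2, if_true, if_false]
          split_ifs <;> omega
        · by_cases hu2 : u ∈ B₂
          · have e2 := mem_bd_of_joins hj hu2 hv2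
            have w2 := hc2 e e2
            simp only [hv1, hu1, hv2, hu2, if_true, if_false]
            omega
          · simp [hv1, hu1, hv2, hu2]

lemma EE_of_WW {hd : 1 ≤ d} {Λ : Finset (Fin d → ℤ)} {o x : Fin d → ℤ} {w : Edge d → ℕ}
    (hW : WW hd Λ x w) (hU : ¬ UU Λ o w) : EE o x w := by
  intro es hes
  obtain ⟨h, hx, ho, hh⟩ := pot_WW hW hU
  have key := path_pot (w := w) (h := fun v => - h v) ?_ es o x hes
  · simp only [hx, ho] at key
    omega
  · intro e u v hj
    have := hh e v u hj.symm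
    omega

lemma EE_of_WW' {hd : 1 ≤ d} {Λ : Finset (Fin d → ℤ)} {o x : Fin d → ℤ} {w : Edge d → ℕ}
    (hW : WW hd Λ o w) (hU : ¬ UU Λ x w) : EE o x w := by
  intro es hes
  obtain ⟨h, hx, ho, hh⟩ := pot_WW hW hU
  have key := path_pot (w := w) (h := h) hh es o x hes
  rw [hx, ho] at key
  omega

end Pool.Agent.H588R3.FPP
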