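import Pool.Agent.H588R3.Geo

set_option autoImplicit false

open MeasureTheory
open scoped NNReal ENNReal

namespace Pool.Agent.H588R3.FPP

variable {d : ℕ}

/-- the sup-norm sphere -/
def sph (y : Fin d → ℤ) (r : ℕ) : Set (Fin d → ℤ) :=
  {v | (∀ i, |v i - y i| ≤ r) ∧ ∃ i, |v i - y i| = r}

/-- the sup-norm ball -/
noncomputable def box (y : Fin d → ℤ) (r : ℕ) : Finset (Fin d → ℤ) :=
  Finset.Icc (fun i => y i - r) (fun i => y i + r)

lemma mem_box {y v : Fin d → ℤ} {r : ℕ} : v ∈ box y r ↔ ∀ i, |v i - y i| ≤ r := by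
  rw [box, Finset.mem_Icc, Pi.le_def, Pi.le_def]
  constructor
  · rintro ⟨h1, h2⟩ i
    have := h1 i
    have := h2 i
    rw [abs_le]
    constructor <;> omega
  · intro h
    refine ⟨fun i => ?_, fun i => ?_⟩ <;> have := h i <;> rw [abs_le] at this <;> omega

lemma box_mono {y : Fin d → ℤ} {r r' : ℕ} (h : r ≤ r') : box y r ⊆ box y r' := by
  intro v hv
  rw [mem_box] at hv ⊢
  intro i
  have := hv i
  omega

lemma sph_subset_box (y : Fin d → ℤ) (r : ℕ) : sph y r ⊆ (box y r : Set (Fin d → ℤ)) := by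
  intro v hv
  rw [Finset.mem_coe, mem_box]
  exact hv.1

lemma hit {w : Edge d → ℕ} {c r : ℕ} {y v : Fin d → ℤ} (h : RIn Set.univ w c y v) :
    RIn (box y r : Set (Fin d → ℤ)) w c y v ∨
      ∃ z ∈ sph y r, RIn (box y r : Set (Fin d → ℤ)) w c y z := by
  induction h with
  | refl c x hx =>
    left
    apply RIn.refl
    rw [Finset.mem_coe, mem_box]
    intro i
    simp
  | @step c x y z e h hj hz ih =>
    rcases ih with ih | ⟨z', hz', ih⟩
    · by_cases hzb : z ∈ box x r
      · left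
        exact RIn.step e ih hj hzb
      · right
        have hy : y ∈ box x r := ih.mem_right
        rw [mem_box] at hzb hy
        push Not at hzb
        obtain ⟨i, hi⟩ := hzb
        have h1 := hy i
        have h2 := hj.abs_le i
        refine ⟨y, ⟨hy, i, ?_⟩, ih.mono (by omega)⟩
        have h3 : |z i - x i| ≤ |z i - y i| + |y i - x i| := by
          have := abs_add_le (z i - y i) (y i - x i)
          simpa using this
        omega
    · right
      exact ⟨z', hz', ih.mono (by omega)⟩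

lemma move {S : Set (Fin d → ℤ)} {w : Edge d → ℕ} (u : Fin d → ℤ) (j : Fin d) (k : ℕ)
    (hS : ∀ t : ℕ, t ≤ k → u + Pi.single j (t : ℤ) ∈ S)
    (hw : ∀ t : ℕ, t < k → w (u + Pi.single j (t : ℤ), j) = 0) :
    RIn S w 0 u (u + Pi.single j (k : ℤ)) := by
  induction k with
  | zero =>
    have := hS 0 le_rfl
    simp only [Nat.cast_zero, Pi.single_zero, add_zero] at this ⊢
    exact RIn.refl 0 u this
  | succ k ih =>
    have h1 := ih (fun t ht => hS t (by omega)) (fun t ht => hw t (by omega))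
    have h2 := RIn.step (u + Pi.single j (k : ℤ), j) h1 (z := u + Pi.single j ((k + 1 : ℕ) : ℤ))
      (by
        left
        refine ⟨rfl, ?_⟩
        rw [tip]
        simp only
        rw [add_assoc, ← Pi.single_add]
        push_cast
        rfl) (hS (k + 1) le_rfl)
    rw [hw k (by omega)] at h2
    exact h2

lemma sph_conn_aux {w : Edge d → ℕ} {y : Fin d → ℤ} {r : ℕ}
    (hw : ∀ e : Edge d, e.1 ∈ sph y r → tip e ∈ sph y r → w e = 0)
    {u : Fin d → ℤ} (hu : u ∈ sph y r) (i : Fin d) (hi : |u i - y i| = r)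
    (Tt : Finset (Fin d)) (hT : i ∉ Tt) :
    RIn (sph y r) w 0 u (fun a => if a ∈ Tt then y a + r else u a) := by
  classical
  induction Tt using Finset.induction_on with
  | empty => simpa using RIn.refl 0 u hu
  | insert j Tt hj ih =>
    have hiT : i ∉ Tt := fun h => hT (Finset.mem_insert_of_mem h)
    have hij : i ≠ j := fun h => hT (h ▸ Finset.mem_insert_self _ _)
    have h1 := ih hiT
    set p : Fin d → ℤ := fun a => if a ∈ Tt then y a + r else u a with hp
    have huj := hu.1 j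
    rw [abs_le] at huj
    set k : ℕ := (y j + r - u j).toNat with hk
    have hkz : (k : ℤ) = y j + r - u j := by rw [hk]; apply Int.toNat_of_nonneg; omega
    have hpj : p j = u j := by simp [hp, hj]
    have hpi : p i = u i := by simp [hp, hiT]
    have hin : ∀ t : ℕ, t ≤ k → p + Pi.single j (t : ℤ) ∈ sph y r := by
      intro t ht
      refine ⟨fun a => ?_, i, ?_⟩
      · by_cases haj : a = j
        · subst haj
          simp only [Pi.add_apply, Pi.single_eq_same, hpj]
          rw [abs_le]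
          omega
        · simp only [Pi.add_apply, Pi.single_eq_of_ne haj, add_zero, hp]
          split_ifs
          · simp
          · exact hu.1 a
      · simp only [Pi.add_apply, Pi.single_eq_of_ne hij, add_zero, hpi]
        exact hi
    have h2 := move (S := sph y r) (w := w) p j k hin (by
      intro t ht
      apply hw
      · exact hin t (by omega)
      · have := hin (t + 1) (by omega)
        rw [tip]
        simp only
        rw [add_assoc, ← Pi.single_add]
        exact_mod_cast this)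
    have h3 := h1.trans h2
    have h4 : p + Pi.single j (k : ℤ) = fun a => if a ∈ insert j Tt then y a + r else u a := by
      ext a
      by_cases haj : a = j
      · subst haj
        simp only [Pi.add_apply, Pi.single_eq_same, hpj, hkz, Finset.mem_insert_self, if_true]
        ring
      · simp only [Pi.add_apply, Pi.single_eq_of_ne haj, add_zero, hp, Finset.mem_insert, haj,
          false_or]
    rwa [h4] at h3

lemma sph_conn_corner (hd : 2 ≤ d) {w : Edge d → ℕ} {y : Fin d → ℤ} {r : ℕ}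
    (hw : ∀ e : Edge d, e.1 ∈ sph y r → tip e ∈ sph y r → w e = 0)
    {u : Fin d → ℤ} (hu : u ∈ sph y r) :
    RIn (sph y r) w 0 u (fun a => y a + r) := by
  classical
  obtain ⟨i, hi⟩ := hu.2
  have h1 := sph_conn_aux hw hu i hi (Finset.univ.erase i) (Finset.notMem_erase _ _)
  set p : Fin d → ℤ := fun a => if a ∈ Finset.univ.erase i then y a + r else u a with hp
  have hpi : p i = u i := by simp [hp]
  have hpa : ∀ a, a ≠ i → p a = y a + r := by intro a ha; simp [hp, ha]
  obtain ⟨j, hj⟩ : ∃ j : Fin d, j ≠ i := by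
    by_cases h : (i : ℕ) = 0
    · refine ⟨⟨1, by omega⟩, ?_⟩
      intro h'
      rw [← h'] at h
      simp at h
    · refine ⟨⟨0, by omega⟩, ?_⟩
      intro h'
      rw [← h'] at h
      simp at h
  have hui := hu.1 i
  rw [abs_le] at hui
  set k : ℕ := (y i + r - u i).toNat with hk
  have hkz : (k : ℤ) = y i + r - u i := by rw [hk]; apply Int.toNat_of_nonneg; omega
  have hin : ∀ t : ℕ, t ≤ k → p + Pi.single i (t : ℤ) ∈ sph y r := by
    intro t ht
    refine ⟨fun a => ?_, j, ?_⟩
    · by_cases hai : a = i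
      · subst hai
        simp only [Pi.add_apply, Pi.single_eq_same, hpi]
        rw [abs_le]
        omega
      · simp only [Pi.add_apply, Pi.single_eq_of_ne hai, add_zero, hpa a hai]
        simp
    · simp only [Pi.add_apply, Pi.single_eq_of_ne hj, add_zero, hpa j hj]
      simp
  have h2 := move (S := sph y r) (w := w) p i k hin (by
    intro t ht
    apply hw
    · exact hin t (by omega)
    · have := hin (t + 1) (by omega)
      rw [tip]
      simp only
      rw [add_assoc, ← Pi.single_add]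
      exact_mod_cast this)
  have h3 := h1.trans h2
  have h4 : p + Pi.single i (k : ℤ) = fun a => y a + r := by
    ext a
    by_cases hai : a = i
    · subst hai
      simp only [Pi.add_apply, Pi.single_eq_same, hpi, hkz]
      ring
    · simp only [Pi.add_apply, Pi.single_eq_of_ne hai, add_zero, hpa a hai]
  rwa [h4] at h3

lemma sph_conn (hd : 2 ≤ d) {w : Edge d → ℕ} {y : Fin d → ℤ} {r : ℕ}
    (hw : ∀ e : Edge d, e.1 ∈ sph y r → tip e ∈ sph y r → w e = 0)
    {u v : Fin d → ℤ} (hu : u ∈ sph y r) (hv : v ∈ sph y r) :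
    RIn (sph y r) w 0 u v :=
  (sph_conn_corner hd hw hu).trans (sph_conn_corner hd hw hv).symm

/-- points of the horizontal line at height `h` -/
def lin (d : ℕ) (h s : ℤ) : Fin d → ℤ :=
  fun i => if (i : ℕ) = 0 then s else if (i : ℕ) = 1 then h else 0

lemma lin_add (hd : 1 ≤ d) (h s t : ℤ) :
    lin d h s + Pi.single (⟨0, hd⟩ : Fin d) t = lin d h (s + t) := by
  ext i
  by_cases hi : i = ⟨0, hd⟩
  · subst hi
    simp [lin]
  · have : (i : ℕ) ≠ 0 := fun h => hi (Fin.ext h)
    simp [lin, this, Pi.single_apply, hi]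

/-- few edges are closed in the box -/
def Bad (S : Finset (Fin d → ℤ)) (κ : ℕ) (w : Edge d → ℕ) : Prop :=
  ∃ K, K ⊆ inn S ∧ K.card = κ ∧ Closed K w

lemma pick (hd : 1 ≤ d) {S : Finset (Fin d → ℤ)} {κ : ℕ} {w : Edge d → ℕ} (hB : ¬ Bad S κ w)
    (I : Finset ℕ) (hI : κ ≤ I.card) (P : ℕ → Edge d → Prop)
    (hinj : ∀ i ∈ I, ∀ j ∈ I, ∀ e, P i e → P j e → i = j)
    (hS : ∀ i ∈ I, ∀ e, P i e → e ∈ inn S) : ∃ i ∈ I, ∀ e, P i e → w e = 0 := by
  classical
  by_contra hcon
  push Not at hcon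
  apply hB
  haveI : Nonempty (Edge d) := ⟨(0, ⟨0, hd⟩)⟩
  obtain ⟨I', hI', hcard⟩ := Finset.exists_subset_card_eq hI
  choose! f hf using hcon
  refine ⟨I'.image f, ?_, ?_, ?_⟩
  · intro e he
    rw [Finset.mem_image] at he
    obtain ⟨i, hi, rfl⟩ := he
    exact hS i (hI' hi) _ (hf i (hI' hi)).1
  · rw [Finset.card_image_of_injOn, hcard]
    intro i hi j hj hij
    have hi' := hI' hi
    have hj' := hI' hj
    have h1 := (hf i hi').1
    have h2 := (hf j hj').1
    rw [hij] at h1
    exact hinj i hi' j hj' _ h1 h2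
  · intro e he
    rw [Finset.mem_image] at he
    obtain ⟨i, hi, rfl⟩ := he
    have := (hf i (hI' hi)).2
    omega

lemma box_axis_subset {d m κ : ℕ} :
    (box (axis d m) (2 * κ) : Finset (Fin d → ℤ)) ⊆ box (axis d 0) (m + 2 * κ) := by
  intro v hv
  rw [mem_box] at hv ⊢
  intro i
  have h1 := hv i
  by_cases hi : (i : ℕ) = 0
  · simp only [axis, hi, if_true] at h1 ⊢
    rw [abs_le] at h1 ⊢
    push_cast at h1 ⊢
    omega
  · simp only [axis, hi, if_false] at h1 ⊢
    rw [abs_le] at h1 ⊢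
    push_cast at h1 ⊢
    omega

lemma sph_unique {y v : Fin d → ℤ} {r r' : ℕ} (h : v ∈ sph y r) (h' : v ∈ sph y r') :
    r = r' := by
  obtain ⟨i, hi⟩ := h.2
  obtain ⟨j, hj⟩ := h'.2
  have h1 := h.1 j
  have h2 := h'.1 i
  omega

/-- If few edges are closed then two far apart points which are joined to the outside of their
boxes are joined to each other. -/
theorem upper_det (hd : 2 ≤ d) {κ m : ℕ} (hκ : 1 ≤ κ) (hm : 4 * κ ≤ m) {w : Edge d → ℕ}
    (hB : ¬ Bad (box (axis d 0) (m + 2 * κ)) κ w) {c₁ c₂ : ℕ} {v v' : Fin d → ℤ}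
    (h1 : RIn Set.univ w c₁ (axis d 0) v) (hv : v ∉ box (axis d 0) (2 * κ))
    (h2 : RIn Set.univ w c₂ (axis d m) v') (hv' : v' ∉ box (axis d m) (2 * κ)) :
    RIn (box (axis d 0) (m + 2 * κ) : Set (Fin d → ℤ)) w (c₁ + c₂) (axis d 0) (axis d m) := by
  classical
  set S : Finset (Fin d → ℤ) := box (axis d 0) (m + 2 * κ) with hS
  have hd1 : 1 ≤ d := by omega
  have sphere : ∀ y : Fin d → ℤ, box y (2 * κ) ⊆ S →
      ∃ r ∈ Finset.Ioc κ (2 * κ), ∀ e : Edge d, (e.1 ∈ sph y r ∧ tip e ∈ sph y r) → w e = 0 := by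
    intro y hy
    apply pick hd1 hB (Finset.Ioc κ (2 * κ)) (by rw [Nat.card_Ioc]; omega)
      (fun r e => e.1 ∈ sph y r ∧ tip e ∈ sph y r)
    · intro i _ j _ e he he'
      exact sph_unique he.1 he'.1
    · intro r hr e he
      rw [Finset.mem_Ioc] at hr
      rw [mem_inn]
      exact ⟨hy (box_mono hr.2 (sph_subset_box y r he.1)),
        hy (box_mono hr.2 (sph_subset_box y r he.2))⟩
  obtain ⟨r, hr, hr0⟩ := sphere (axis d 0) (box_mono (by omega))
  obtain ⟨r', hr', hr0'⟩ := sphere (axis d m) box_axis_subset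
  rw [Finset.mem_Ioc] at hr hr'
  have hlinS : ∀ h : ℕ, 1 ≤ h → h ≤ κ → ∀ s : ℤ, 0 ≤ s → s ≤ m → lin d h s ∈ S := by
    intro h hh1 hh2 s hs1 hs2
    rw [hS, mem_box]
    intro i
    simp only [lin, axis]
    rw [abs_le]
    split_ifs <;> push_cast <;> omega
  obtain ⟨h, hh, hh0⟩ : ∃ h ∈ Finset.Icc 1 κ, ∀ e : Edge d,
      (∃ s : ℤ, 0 ≤ s ∧ s < m ∧ e = (lin d h s, ⟨0, hd1⟩)) → w e = 0 := by
    apply pick hd1 hB (Finset.Icc 1 κ) (by rw [Nat.card_Icc]; omega)
      (fun h e => ∃ s : ℤ, 0 ≤ s ∧ s < m ∧ e = (lin d h s, ⟨0, hd1⟩))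
    · rintro i _ j _ e ⟨s, _, _, hs⟩ ⟨s', _, _, hs'⟩
      rw [hs] at hs'
      have := congrFun (congrArg Prod.fst hs') ⟨1, by omega⟩
      simp [lin] at this
      exact this
    · rintro h hh e ⟨s, hs1, hs2, rfl⟩
      rw [Finset.mem_Icc] at hh
      rw [mem_inn]
      refine ⟨hlinS h hh.1 hh.2 s hs1 hs2.le, ?_⟩
      rw [tip]
      simp only
      rw [lin_add]
      exact hlinS h hh.1 hh.2 (s + 1) (by omega) (by omega)
  rw [Finset.mem_Icc] at hh
  -- from the centres to the spheres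
  obtain ⟨z, hz, hz1⟩ : ∃ z ∈ sph (axis d 0) r,
      RIn (box (axis d 0) r : Set (Fin d → ℤ)) w c₁ (axis d 0) z := by
    rcases hit (r := r) h1 with h3 | h3
    · exact absurd (box_mono hr.2 h3.mem_right) hv
    · exact h3
  obtain ⟨z', hz', hz1'⟩ : ∃ z ∈ sph (axis d m) r',
      RIn (box (axis d m) r' : Set (Fin d → ℤ)) w c₂ (axis d m) z := by
    rcases hit (r := r') h2 with h3 | h3
    · exact absurd (box_mono hr'.2 h3.mem_right) hv'
    · exact h3
  have hb1 : (box (axis d 0) r : Set (Fin d → ℤ)) ⊆ S := by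
    intro a ha
    exact box_mono (by omega) ha
  have hb2 : (box (axis d m) r' : Set (Fin d → ℤ)) ⊆ S := by
    intro a ha
    exact box_axis_subset (box_mono hr'.2 ha)
  have ha : lin d h r ∈ sph (axis d 0) r := by
    refine ⟨fun i => ?_, ⟨0, hd1⟩, ?_⟩
    · simp only [lin, axis]
      rw [abs_le]
      split_ifs <;> push_cast <;> omega
    · simp [lin, axis]
  have ha' : lin d h ((m : ℤ) - r') ∈ sph (axis d m) r' := by
    refine ⟨fun i => ?_, ⟨0, hd1⟩, ?_⟩
    · simp only [lin, axis]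
      rw [abs_le]
      split_ifs <;> push_cast <;> omega
    · simp [lin, axis]
  have hs1 := (sph_conn hd (fun e he he' => hr0 e ⟨he, he'⟩) hz ha).mono_set
    ((sph_subset_box _ _).trans hb1)
  have hs2 := (sph_conn hd (fun e he he' => hr0' e ⟨he, he'⟩) ha' hz').mono_set
    ((sph_subset_box _ _).trans hb2)
  have hline : RIn (S : Set (Fin d → ℤ)) w 0 (lin d h r) (lin d h ((m : ℤ) - r')) := by
    have hk : ((m - r' - r : ℕ) : ℤ) = (m : ℤ) - r' - r := by omega
    have := move (S := (S : Set (Fin d → ℤ))) (w := w) (lin d h r) ⟨0, hd1⟩ (m - r' - r)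
      (by
        intro t ht
        rw [lin_add]
        exact hlinS h hh.1 hh.2 _ (by omega) (by omega))
      (by
        intro t ht
        apply hh0
        refine ⟨r + t, by omega, by omega, ?_⟩
        rw [lin_add])
    rw [lin_add, hk] at this
    have e : (r : ℤ) + ((m : ℤ) - r' - r) = (m : ℤ) - r' := by ring
    rwa [e] at this
  have := (((hz1.mono_set hb1).trans hs1).trans hline).trans (hs2.trans (hz1'.mono_set hb2).symm)
  exact this.mono (by omega)

/-! ### characterisation of the events by reachability -/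

lemma UU_iff {Λ : Finset (Fin d → ℤ)} {x : Fin d → ℤ} {w : Edge d → ℕ} :
    UU Λ x w ↔ ∀ v, RIn Set.univ w 0 x v → v ∈ Λ := by
  constructor
  · rintro ⟨A, hA, hcl⟩ v hv
    exact hA ((hcl.mem_iff v).2 hv)
  · exact exists_Cl

lemma WW_iff {hd : 1 ≤ d} {Λ : Finset (Fin d → ℤ)} {x : Fin d → ℤ} {w : Edge d → ℕ} :
    WW hd Λ x w ↔ ∀ v, RIn Set.univ w 1 x v → v ∈ Λ := by
  classical
  constructor
  · rintro ⟨B₁, B₂, h12, h2L, hx, -, -, hc1, hc2, hD⟩
    have key : ∀ {c : ℕ} {a b : Fin d → ℤ}, RIn Set.univ w c a b → a = x →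
        (c = 0 → b ∈ B₁) ∧ (c ≤ 1 → b ∈ B₂) := by
      intro c a b hab
      induction hab with
      | refl c a ha => rintro rfl; exact ⟨fun _ => hx, fun _ => h12 hx⟩
      | @step c a b z e h' hj hz ih =>
        intro hax
        obtain ⟨ih1, ih2⟩ := ih hax
        constructor
        · intro hc
          have hb := ih1 (by omega)
          by_contra hzB
          have := hc1 e (mem_bd_of_joins hj hb hzB)
          omega
        · intro hc
          by_contra hzB
          have hb := ih2 (by omega)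
          have h2 := mem_bd_of_joins hj hb hzB
          have hw2 := hc2 e h2
          have hb1 := ih1 (by omega)
          have h1 := mem_bd_of_joins hj hb1 (fun h => hzB (h12 h))
          have := hD e (Finset.mem_inter.2 ⟨h1, h2⟩)
          omega
    intro v hv
    exact h2L ((key hv rfl).2 le_rfl)
  · exact WW_of_reach hd

lemma UU_of_WW {hd : 1 ≤ d} {Λ : Finset (Fin d → ℤ)} {x : Fin d → ℤ} {w : Edge d → ℕ}
    (h : WW hd Λ x w) : UU Λ x w := by
  rw [WW_iff] at h
  rw [UU_iff]
  exact fun v hv => h v (hv.mono (by omega))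

lemma UU_mono {Λ Λ' : Finset (Fin d → ℤ)} (hL : Λ ⊆ Λ') {x : Fin d → ℤ} {w : Edge d → ℕ}
    (h : UU Λ x w) : UU Λ' x w := by
  rw [UU_iff] at h ⊢
  exact fun v hv => hL (h v hv)

lemma WW_mono {hd : 1 ≤ d} {Λ Λ' : Finset (Fin d → ℤ)} (hL : Λ ⊆ Λ') {x : Fin d → ℤ}
    {w : Edge d → ℕ} (h : WW hd Λ x w) : WW hd Λ' x w := by
  rw [WW_iff] at h ⊢
  exact fun v hv => hL (h v hv)

lemma RIn.shift {w : Edge d → ℕ} {c : ℕ} {x y : Fin d → ℤ} (a : Fin d → ℤ)
    (h : RIn Set.univ (fun e : Edge d => w (e.1 + a, e.2)) c x y) :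
    RIn Set.univ w c (x + a) (y + a) := by
  induction h with
  | refl c x hx => exact RIn.refl c _ trivial
  | @step c x y z e h hj hz ih =>
    refine RIn.step (e.1 + a, e.2) ih ?_ trivial
    have htip : tip ((e.1 + a, e.2) : Edge d) = tip e + a := by
      simp only [tip]
      abel
    rcases hj with ⟨h1, h2⟩ | ⟨h1, h2⟩
    · left; exact ⟨by rw [h1], by rw [htip, h2]⟩
    · right; exact ⟨by rw [htip, h1], by rw [h2]⟩

lemma reach_shift {w : Edge d → ℕ} {c : ℕ} {x : Fin d → ℤ} (a : Fin d → ℤ) (r : ℕ) :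
    (∀ v, RIn Set.univ w c (x + a) v → v ∈ box (x + a) r) ↔
      (∀ v, RIn Set.univ (fun e : Edge d => w (e.1 + a, e.2)) c x v → v ∈ box x r) := by
  constructor
  · intro h v hv
    have := h _ (hv.shift a)
    rw [mem_box] at this ⊢
    intro i
    have h1 := this i
    simpa using h1
  · intro h v hv
    have h1 : RIn Set.univ (fun e : Edge d => (fun e' : Edge d => w (e'.1 + a, e'.2))
        (e.1 + (-a), e.2)) c (x + a) v := by
      simpa using hv
    have h2 := RIn.shift (w := fun e' : Edge d => w (e'.1 + a, e'.2)) (-a) h1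
    have h3 : x + a + -a = x := by abel
    rw [h3] at h2
    have := h _ h2
    rw [mem_box] at this ⊢
    intro i
    have h4 := this i
    simp only [Pi.add_apply, Pi.neg_apply] at h4 ⊢
    have h5 : v i - (x i + a i) = v i + -a i - x i := by ring
    rwa [h5]

/-- the upper bound event is contained in the two-copy event -/
theorem upper_det' (hd : 2 ≤ d) (hd1 : 1 ≤ d) {κ m : ℕ} (hκ : 1 ≤ κ) (hm : 4 * κ ≤ m)
    {w : Edge d → ℕ}
    (hB : ¬ Bad (box (axis d 0) (m + 2 * κ)) κ w)
    (hN : ¬ RIn (box (axis d 0) (m + 2 * κ) : Set (Fin d → ℤ)) w 1 (axis d 0) (axis d m)) :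
    (UU (box (axis d 0) (2 * κ)) (axis d 0) w ∧ UU (box (axis d m) (2 * κ)) (axis d m) w) ∨
    (¬ UU (box (axis d 0) (2 * κ)) (axis d 0) w ∧
      WW hd1 (box (axis d m) (2 * κ)) (axis d m) w) ∨
    (¬ UU (box (axis d m) (2 * κ)) (axis d m) w ∧
      WW hd1 (box (axis d 0) (2 * κ)) (axis d 0) w) := by
  by_contra hcon
  push Not at hcon
  obtain ⟨h1, h2, h3⟩ := hcon
  apply hN
  by_cases hU : UU (box (axis d 0) (2 * κ)) (axis d 0) w
  · have h4 := h1 hU
    have h5 := h3 h4
    rw [UU_iff] at h4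
    rw [WW_iff] at h5
    push Not at h4 h5
    obtain ⟨v, hv, hv'⟩ := h5
    obtain ⟨u, hu, hu'⟩ := h4
    exact upper_det hd hκ hm hB hv hv' hu hu'
  · have h5 := h2 hU
    rw [UU_iff] at hU
    rw [WW_iff] at h5
    push Not at hU h5
    obtain ⟨v, hv, hv'⟩ := h5
    obtain ⟨u, hu, hu'⟩ := hU
    exact (upper_det hd hκ hm hB hu hu' hv hv').mono (by omega)

end Pool.Agent.H588R3.FPP
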